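import Mathlib

/-!
# Union-closed families generated by sets with at most three elements

`Fam H F`: `F` is a finite union-closed family, closed under adding members of `H`, such that every
element `x` of a member `X` which lies in some generator, and for which `X \ {x}` is a member too,
lies in a generator inside `X`. For example every up-set of the union-closed family generated by `H`.
(That the condition is only needed for elements that can be deleted was noticed by helper457.)
-/

set_option linter.unusedSimpArgs false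
set_option linter.unusedVariables false

namespace Pool.Agent.W616.UC3

open Finset

variable {V : Type*} [DecidableEq V]

/-- Numerical lemma on the subsets of a set with at most three elements. -/
theorem local_neg (e : Finset V) (hcard : e.card ≤ 3) (p : Finset V → Prop) [DecidablePred p]
    (h0 : p ∅) (hI : ∀ S ⊆ e, ∀ T ⊆ e, p S → p T → p (S ∩ T))
    (hneg : ∑ S ∈ e.powerset.filter p, ((e.card : ℤ) - 2 * (S.card : ℤ)) < 0) :
    e.card = 3 ∧ ∑ S ∈ e.powerset.filter p, ((e.card : ℤ) - 2 * (S.card : ℤ)) = -1 ∧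
      ∃ a ∈ e, p e ∧ p (e.erase a) ∧ ¬ p {a} ∧ ∀ x ∈ e, x ≠ a → ¬ p {x} ∨ p {a, x} := by
  classical
  rw [Finset.sum_filter] at hneg ⊢
  interval_cases hc : e.card
  · rw [Finset.card_eq_zero] at hc
    subst hc
    simp [h0] at hneg
  · obtain ⟨a, rfl⟩ := Finset.card_eq_one.mp hc
    exfalso
    have : ({a} : Finset V) = insert a ∅ := by simp
    rw [this, Finset.sum_powerset_insert (by simp)] at hneg
    simp only [Finset.powerset_empty, Finset.sum_singleton, Finset.card_empty, h0, if_true] at hneg
    split_ifs at hneg <;> simp at hneg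
  · obtain ⟨a, b, hab, rfl⟩ := Finset.card_eq_two.mp hc
    exfalso
    rw [Finset.sum_powerset_insert (by simpa using hab)] at hneg
    have : ({b} : Finset V) = insert b ∅ := by simp
    rw [this, Finset.sum_powerset_insert (by simp), Finset.sum_powerset_insert (by simp)] at hneg
    simp only [Finset.powerset_empty, Finset.sum_singleton, Finset.card_empty, h0, if_true] at hneg
    have c1 : (insert b (∅ : Finset V)).card = 1 := by simp
    have c2 : (insert a (∅ : Finset V)).card = 1 := by simp
    have c3 : (insert a (insert b (∅ : Finset V))).card = 2 := by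
      simpa using hc
    rw [c1, c2, c3] at hneg
    split_ifs at hneg <;> simp at hneg
  · obtain ⟨a, b, c, hab, hac, hbc, rfl⟩ := Finset.card_eq_three.mp hc
    refine ⟨rfl, ?_⟩
    have key : ∀ f : Finset V → ℤ, ∑ S ∈ ({a, b, c} : Finset V).powerset, f S =
        f ∅ + f {a} + f {b} + f {c} + f {a, b} + f {a, c} + f {b, c} + f {a, b, c} := by
      intro f
      rw [Finset.sum_powerset_insert (by simp [hab, hac]),
        Finset.sum_powerset_insert (by simp [hbc]), Finset.sum_powerset_insert (by simp [hbc])]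
      have : ({c} : Finset V) = insert c ∅ := by simp
      rw [this]
      simp only [Finset.sum_powerset_insert (Finset.notMem_empty c), Finset.powerset_empty,
        Finset.sum_singleton]
      simp only [insert_empty_eq]
      ring
    rw [key] at hneg ⊢
    have k1 : ({a} : Finset V).card = 1 := by simp
    have k2 : ({b} : Finset V).card = 1 := by simp
    have k3 : ({c} : Finset V).card = 1 := by simp
    have k4 : ({a, b} : Finset V).card = 2 := Finset.card_pair hab
    have k5 : ({a, c} : Finset V).card = 2 := Finset.card_pair hac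
    have k6 : ({b, c} : Finset V).card = 2 := Finset.card_pair hbc
    have i1 : ({a, b} : Finset V) ∩ {a, c} = {a} := by
      ext x; simp only [mem_inter, mem_insert, mem_singleton]; constructor
      · rintro ⟨h1 | h1, h2 | h2⟩ <;> simp_all
      · rintro rfl; simp
    have i2 : ({a, b} : Finset V) ∩ {b, c} = {b} := by
      ext x; simp only [mem_inter, mem_insert, mem_singleton]; constructor
      · rintro ⟨h1 | h1, h2 | h2⟩ <;> simp_all
      · rintro rfl; simp
    have i3 : ({a, c} : Finset V) ∩ {b, c} = {c} := by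
      ext x; simp only [mem_inter, mem_insert, mem_singleton]; constructor
      · rintro ⟨h1 | h1, h2 | h2⟩ <;> simp_all
      · rintro rfl; simp
    have s1 : ({a, b} : Finset V) ⊆ {a, b, c} := by intro x; simp; tauto
    have s2 : ({a, c} : Finset V) ⊆ {a, b, c} := by intro x; simp; tauto
    have s3 : ({b, c} : Finset V) ⊆ {a, b, c} := by intro x; simp; tauto
    have j1 : p {a, b} → p {a, c} → p {a} := fun h h' => i1 ▸ hI _ s1 _ s2 h h'
    have j2 : p {a, b} → p {b, c} → p {b} := fun h h' => i2 ▸ hI _ s1 _ s3 h h'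
    have j3 : p {a, c} → p {b, c} → p {c} := fun h h' => i3 ▸ hI _ s2 _ s3 h h'
    have e1 : ({a, b, c} : Finset V).erase a = {b, c} := by
      ext x; simp only [mem_erase, mem_insert, mem_singleton]
      constructor
      · rintro ⟨h1, h2 | h2⟩ <;> simp_all
      · rintro (rfl | rfl) <;> simp [Ne.symm hab, Ne.symm hac]
    have e2 : ({a, b, c} : Finset V).erase b = {a, c} := by
      ext x; simp only [mem_erase, mem_insert, mem_singleton]
      constructor
      · rintro ⟨h1, h2 | h2 | h2⟩ <;> simp_all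
      · rintro (rfl | rfl) <;> simp [hab, Ne.symm hbc]
    have e3 : ({a, b, c} : Finset V).erase c = {a, b} := by
      ext x; simp only [mem_erase, mem_insert, mem_singleton]
      constructor
      · rintro ⟨h1, h2 | h2 | h2⟩ <;> simp_all
      · rintro (rfl | rfl) <;> simp [hac, hbc]
    have q1 : ({b, a} : Finset V) = {a, b} := Finset.pair_comm _ _
    have q2 : ({c, a} : Finset V) = {a, c} := Finset.pair_comm _ _
    have q3 : ({c, b} : Finset V) = {b, c} := Finset.pair_comm _ _
    simp only [h0, if_true, Finset.card_empty, k1, k2, k3, k4, k5, k6, hc] at hneg ⊢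
    by_cases pa : p {a} <;> by_cases pb : p {b} <;> by_cases pc : p {c} <;>
      by_cases pab : p {a, b} <;> by_cases pac : p {a, c} <;> by_cases pbc : p {b, c} <;>
      by_cases pabc : p {a, b, c} <;>
      simp only [pa, pb, pc, pab, pac, pbc, pabc, if_true, if_false] at hneg j1 j2 j3 ⊢ <;>
      first
        | (exfalso; revert hneg; norm_num; done)
        | (exfalso; simp at j1 j2 j3; done)
        | (refine ⟨by norm_num, a, by simp, trivial, ?_⟩
           rw [e1]
           simp only [pa, pb, pc, pab, pac, pbc, pabc, mem_insert, mem_singleton]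
           refine ⟨trivial, not_false, ?_⟩
           rintro x (rfl | rfl | rfl) hx <;> simp_all)
        | (refine ⟨by norm_num, b, by simp, trivial, ?_⟩
           rw [e2]
           simp only [pa, pb, pc, pab, pac, pbc, pabc, mem_insert, mem_singleton]
           refine ⟨trivial, not_false, ?_⟩
           rintro x (rfl | rfl | rfl) hx <;> simp_all)
        | (refine ⟨by norm_num, c, by simp, trivial, ?_⟩
           rw [e3]
           simp only [pa, pb, pc, pab, pac, pbc, pabc, mem_insert, mem_singleton]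
           refine ⟨trivial, not_false, ?_⟩
           rintro x (rfl | rfl | rfl) hx <;> simp_all)


/-- Numerical lemma: the sum is at least the number of elements avoided by all sets of `p`. -/
theorem local_pos (e : Finset V) (hcard : e.card ≤ 3) (p : Finset V → Prop) [DecidablePred p]
    (h0 : p ∅) (hI : ∀ S ⊆ e, ∀ T ⊆ e, p S → p T → p (S ∩ T)) (N : Finset V)
    (hN : ∀ a, a ∈ N ↔ a ∈ e ∧ ∀ S ⊆ e, p S → a ∉ S) (hne : N.Nonempty) :
    (N.card : ℤ) ≤ ∑ S ∈ e.powerset.filter p, ((e.card : ℤ) - 2 * (S.card : ℤ)) := by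
  classical
  -- all sets of `p` are subsets of `e \ N`
  have hNe : N ⊆ e := fun a ha => ((hN a).1 ha).1
  have hsub : ∀ S ⊆ e, p S → S ⊆ e \ N := by
    intro S hS hp x hx
    refine Finset.mem_sdiff.2 ⟨hS hx, fun hxN => ((hN x).1 hxN).2 S hS hp hx⟩
  have hcN : N.card ≤ e.card := Finset.card_le_card hNe
  have hN1 : 1 ≤ N.card := hne.card_pos
  have hcd : (e \ N).card = e.card - N.card := Finset.card_sdiff_of_subset hNe
  have hfil : e.powerset.filter p = (e \ N).powerset.filter p := by
    ext S
    simp only [mem_filter, mem_powerset]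
    constructor
    · rintro ⟨h1, h2⟩; exact ⟨hsub S h1 h2, h2⟩
    · rintro ⟨h1, h2⟩; exact ⟨h1.trans Finset.sdiff_subset, h2⟩
  rw [hfil, Finset.sum_filter]
  have hterm : ∀ f : Finset V → ℤ, f = f := fun _ => rfl
  -- split according to the size of `e \ N`
  rcases Nat.lt_or_ge (e \ N).card 1 with h | h
  · have : e \ N = ∅ := by
      rw [← Finset.card_eq_zero]; omega
    rw [this]
    simp only [Finset.powerset_empty, Finset.sum_singleton, h0, if_true, Finset.card_empty]
    push_cast
    omega
  · rcases Nat.lt_or_ge (e \ N).card 2 with h' | h'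
    · obtain ⟨b, hb⟩ := Finset.card_eq_one.mp (by omega : (e \ N).card = 1)
      have hb1 : ({b} : Finset V) = insert b ∅ := by simp
      rw [hb, hb1, Finset.sum_powerset_insert (by simp)]
      simp only [Finset.powerset_empty, Finset.sum_singleton, Finset.card_empty, h0, if_true]
      have c1 : (insert b (∅ : Finset V)).card = 1 := by simp
      rw [c1]
      split_ifs <;> push_cast <;> omega
    · have hc2 : (e \ N).card = 2 := by omega
      obtain ⟨b, c, hbc, hb⟩ := Finset.card_eq_two.mp hc2
      rw [hb, Finset.sum_powerset_insert (by simpa using hbc)]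
      have : ({c} : Finset V) = insert c ∅ := by simp
      rw [this, Finset.sum_powerset_insert (by simp), Finset.sum_powerset_insert (by simp)]
      simp only [Finset.powerset_empty, Finset.sum_singleton, Finset.card_empty, h0, if_true]
      have c1 : (insert b (∅ : Finset V)).card = 1 := by simp
      have c2 : (insert c (∅ : Finset V)).card = 1 := by simp
      have c3 : (insert b (insert c (∅ : Finset V))).card = 2 := by
        simpa using Finset.card_pair hbc
      rw [c1, c2, c3]
      have : e.card = 3 := by omega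
      rw [this]
      split_ifs <;> push_cast <;> omega

/-- Union-closed families generated by `H` on the set of elements covered by `H`. -/
structure Fam (H F : Finset (Finset V)) : Prop where
  union : ∀ X ∈ F, ∀ Y ∈ F, X ∪ Y ∈ F
  add : ∀ X ∈ F, ∀ e ∈ H, X ∪ e ∈ F
  cover : ∀ X ∈ F, ∀ e ∈ H, ∀ x ∈ e, x ∈ X → X \ {x} ∈ F → ∃ g ∈ H, x ∈ g ∧ g ⊆ X

/-- The contribution of a generator `e` below `Y`. -/
def dl (F : Finset (Finset V)) (Y e : Finset V) : ℤ :=
  ∑ S ∈ e.powerset.filter (fun S => Y \ S ∈ F), ((e.card : ℤ) - 2 * (S.card : ℤ))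

theorem inter_closed {H F : Finset (Finset V)} (h : Fam H F) {Y S T : Finset V}
    (hS : Y \ S ∈ F) (hT : Y \ T ∈ F) : Y \ (S ∩ T) ∈ F := by
  have := h.union _ hS _ hT
  rwa [← Finset.sdiff_inter_distrib_right] at this

/-- Witness data of a generator with negative contribution. -/
def Wit (F : Finset (Finset V)) (Y e : Finset V) (a : V) : Prop :=
  e.card = 3 ∧ a ∈ e ∧ Y \ e ∈ F ∧ Y \ (e.erase a) ∈ F ∧ ¬ Y \ {a} ∈ F ∧
    ∀ x ∈ e, x ≠ a → ¬ Y \ {x} ∈ F ∨ Y \ {a, x} ∈ F

/-- The elements of `g` that can never be removed. -/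
def crit (F : Finset (Finset V)) (Y g : Finset V) : Finset V :=
  g.filter (fun a => ∀ S ∈ g.powerset, Y \ S ∈ F → a ∉ S)

theorem wit_uniq {H F : Finset (Finset V)} (h : Fam H F) {Y e e' : Finset V} {a : V}
    (he : e ∈ H) (he' : e' ∈ H) (hY : e ⊆ Y) (hY' : e' ⊆ Y)
    (w : Wit F Y e a) (w' : Wit F Y e' a) : e = e' := by
  classical
  obtain ⟨w1, w2, w3, w4, w5, w6⟩ := w
  obtain ⟨v1, v2, v3, v4, v5, v6⟩ := w'
  by_contra hne
  have hi : Y \ (e ∩ e') ∈ F := inter_closed h w3 v3
  have hai : a ∈ e ∩ e' := Finset.mem_inter.2 ⟨w2, v2⟩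
  have hci : (e ∩ e').card ≤ 2 := by
    by_contra hc
    push Not at hc
    have h1 : e ∩ e' = e := Finset.eq_of_subset_of_card_le Finset.inter_subset_left (by omega)
    have h2 : e ∩ e' = e' := Finset.eq_of_subset_of_card_le Finset.inter_subset_right (by omega)
    exact hne (h1.symm.trans h2)
  -- the intersection is not the singleton
  have hc2 : (e ∩ e').card = 2 := by
    rcases Nat.lt_or_ge (e ∩ e').card 2 with hl | hl
    · exfalso
      have h1 : (e ∩ e').card = 1 := by
        have := Finset.card_pos.2 ⟨a, hai⟩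
        omega
      obtain ⟨b, hb⟩ := Finset.card_eq_one.mp h1
      rw [hb] at hai hi
      rw [Finset.mem_singleton] at hai
      subst hai
      exact w5 hi
    · omega
  obtain ⟨c, hc, hca⟩ : ∃ c ∈ e ∩ e', c ≠ a := Finset.exists_mem_ne (by omega) a
  have hac : e ∩ e' = {a, c} := by
    symm
    apply Finset.eq_of_subset_of_card_le
    · intro x hx
      simp only [Finset.mem_insert, Finset.mem_singleton] at hx
      rcases hx with rfl | rfl
      · exact hai
      · exact hc
    · rw [hc2, Finset.card_pair (Ne.symm hca)]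
  obtain ⟨hce, hce'⟩ := Finset.mem_inter.1 hc
  -- the third element `d` of `e`
  obtain ⟨d, hd, hdn⟩ : ∃ d ∈ e, d ∉ e ∩ e' := by
    by_contra hcon
    push Not at hcon
    have := Finset.card_le_card (fun x hx => hcon x hx : e ⊆ e ∩ e')
    omega
  have hda : d ≠ a := fun h' => hdn (h' ▸ hai)
  have hdc : d ≠ c := fun h' => hdn (h' ▸ hc)
  have hde' : d ∉ e' := fun h' => hdn (Finset.mem_inter.2 ⟨hd, h'⟩)
  have hee : e.erase a = {c, d} := by
    symm
    apply Finset.eq_of_subset_of_card_le
    · intro x hx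
      simp only [Finset.mem_insert, Finset.mem_singleton] at hx
      rcases hx with rfl | rfl
      · exact Finset.mem_erase.2 ⟨hca, hce⟩
      · exact Finset.mem_erase.2 ⟨hda, hd⟩
    · rw [Finset.card_erase_of_mem w2, Finset.card_pair (Ne.symm hdc)]
      omega
  -- `Y \ {d}` belongs to the family
  have hYd : Y \ {d} ∈ F := by
    have h1 := h.add _ w4 _ he'
    rw [hee] at h1
    have : Y \ {c, d} ∪ e' = Y \ {d} := by
      ext x
      simp only [Finset.mem_union, Finset.mem_sdiff, Finset.mem_insert, Finset.mem_singleton]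
      constructor
      · rintro (⟨h2, h3⟩ | h2)
        · exact ⟨h2, fun h4 => h3 (Or.inr h4)⟩
        · exact ⟨hY' h2, fun h4 => hde' (h4 ▸ h2)⟩
      · rintro ⟨h2, h3⟩
        by_cases hxc : x = c
        · right; rw [hxc]; exact hce'
        · left; exact ⟨h2, by rintro (h4 | h4); exacts [hxc h4, h3 h4]⟩
    rwa [this] at h1
  rcases w6 d hd hda with h1 | h1
  · exact h1 hYd
  · -- `{a, c}` and `{a, d}` give `{a}`
    rw [hac] at hi
    have h2 := inter_closed h hi h1
    have : ({a, c} : Finset V) ∩ {a, d} = {a} := by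
      ext x
      simp only [Finset.mem_inter, Finset.mem_insert, Finset.mem_singleton]
      constructor
      · rintro ⟨h3 | h3, h4 | h4⟩
        · exact h3
        · exact h3
        · exact h4
        · exact absurd (h4.symm.trans h3) hdc
      · rintro rfl; simp
    rw [this] at h2
    exact w5 h2

theorem wit_cover {H F : Finset (Finset V)} (h : Fam H F) {Y e : Finset V} {a : V}
    (he : e ∈ H) (hY : e ⊆ Y) (w : Wit F Y e a) : ∃ g ∈ H, g ⊆ Y ∧ a ∈ crit F Y g := by
  classical
  obtain ⟨w1, w2, w3, w4, w5, w6⟩ := w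
  have haY : a ∈ Y \ e.erase a := Finset.mem_sdiff.2 ⟨hY w2, Finset.notMem_erase a e⟩
  have hdel : (Y \ e.erase a) \ {a} ∈ F := by
    have : (Y \ e.erase a) \ {a} = Y \ e := by
      ext x
      simp only [Finset.mem_sdiff, Finset.mem_erase, Finset.mem_singleton]
      constructor
      · rintro ⟨⟨h1, h2⟩, h3⟩
        exact ⟨h1, fun h4 => h2 ⟨h3, h4⟩⟩
      · rintro ⟨h1, h2⟩
        exact ⟨⟨h1, fun h4 => h2 h4.2⟩, fun h4 => h2 (h4 ▸ w2)⟩
    rw [this]; exact w3
  obtain ⟨g, hg, hag, hgs⟩ := h.cover _ w4 e he a w2 haY hdel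
  refine ⟨g, hg, hgs.trans Finset.sdiff_subset, ?_⟩
  unfold crit
  refine Finset.mem_filter.2 ⟨hag, fun S hS hSF haS => ?_⟩
  rw [Finset.mem_powerset] at hS
  have h1 := inter_closed h hSF w3
  have : S ∩ e = {a} := by
    ext x
    simp only [Finset.mem_inter, Finset.mem_singleton]
    constructor
    · rintro ⟨h2, h3⟩
      by_contra hxa
      have h4 := hgs (hS h2)
      exact (Finset.mem_sdiff.1 h4).2 (Finset.mem_erase.2 ⟨hxa, h3⟩)
    · rintro rfl; exact ⟨haS, w2⟩
  rw [this] at h1
  exact w5 h1

/-- The local inequality below a member `Y`. -/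
theorem local_ineq {H F : Finset (Finset V)} (h : Fam H F) (hH : ∀ e ∈ H, e.card ≤ 3)
    {Y : Finset V} (hYF : Y ∈ F) : 0 ≤ ∑ e ∈ H.filter (· ⊆ Y), dl F Y e := by
  classical
  set HY := H.filter (· ⊆ Y) with hHY
  have hmem : ∀ e ∈ HY, e ∈ H ∧ e ⊆ Y := fun e he => by simpa [hHY] using he
  set B := HY.filter (fun e => dl F Y e < 0) with hB
  have hp0 : Y \ ∅ ∈ F := by simpa using hYF
  -- every bad generator has a witness
  have hbad : ∀ e ∈ B, dl F Y e = -1 ∧ ∃ a, Wit F Y e a := by
    intro e he
    obtain ⟨he1, he2⟩ := Finset.mem_filter.1 he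
    obtain ⟨heH, heY⟩ := hmem e he1
    obtain ⟨h3, h4, a, h5, h6, h7, h8, h9⟩ := local_neg e (hH e heH) (fun S => Y \ S ∈ F) hp0
      (fun S _ T _ hS hT => inter_closed h hS hT) he2
    exact ⟨h4, a, h3, h5, h6, h7, h8, h9⟩
  have hcrit : ∀ g ∈ HY, (crit F Y g).Nonempty → ((crit F Y g).card : ℤ) ≤ dl F Y g := by
    intro g hg hne
    obtain ⟨hgH, hgY⟩ := hmem g hg
    refine local_pos g (hH g hgH) (fun S => Y \ S ∈ F) hp0
      (fun S _ T _ hS hT => inter_closed h hS hT) _ ?_ hne
    intro a
    unfold crit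
    simp only [Finset.mem_filter, Finset.mem_powerset]
  -- choose witnesses
  have hch : ∀ e ∈ B, ∃ q : Finset V × V, Wit F Y e q.2 ∧ q.1 ∈ HY ∧ q.2 ∈ crit F Y q.1 := by
    intro e he
    obtain ⟨-, a, ha⟩ := hbad e he
    obtain ⟨he1, he2⟩ := Finset.mem_filter.1 he
    obtain ⟨g, hg, hgY, hga⟩ := wit_cover h (hmem e he1).1 (hmem e he1).2 ha
    exact ⟨(g, a), ha, Finset.mem_filter.2 ⟨hg, hgY⟩, hga⟩
  have hcardB : B.card ≤ ∑ g ∈ HY, (crit F Y g).card := by
    rcases B.eq_empty_or_nonempty with hBe | ⟨e0, he0⟩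
    · rw [hBe]; simp
    obtain ⟨q0, -⟩ := hch e0 he0
    have : Nonempty (Finset V × V) := ⟨q0⟩
    choose! q hq using hch
    rw [← Finset.card_sigma]
    refine Finset.card_le_card_of_injOn (fun e => ⟨(q e).1, (q e).2⟩) ?_ ?_
    · intro e he
      obtain ⟨-, h2, h3⟩ := hq e he
      exact Finset.mem_coe.2 (Finset.mem_sigma.2 ⟨h2, h3⟩)
    · intro e he e' he' heq
      obtain ⟨w, -, -⟩ := hq e he
      obtain ⟨w', -, -⟩ := hq e' he'
      simp only [Sigma.mk.injEq] at heq
      have h2 : (q e).2 = (q e').2 := eq_of_heq heq.2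
      rw [← h2] at w'
      have m1 := hmem e (Finset.mem_filter.1 he).1
      have m2 := hmem e' (Finset.mem_filter.1 he').1
      exact wit_uniq h m1.1 m2.1 m1.2 m2.2 w w'
  have hterm : ∀ e ∈ HY, ((crit F Y e).card : ℤ) - (if e ∈ B then 1 else 0) ≤ dl F Y e := by
    intro e he
    by_cases hne : (crit F Y e).Nonempty
    · have h1 := hcrit e he hne
      split_ifs
      · omega
      · omega
    · rw [Finset.not_nonempty_iff_eq_empty] at hne
      rw [hne]
      by_cases hb : e ∈ B
      · have := (hbad e hb).1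
        simp [hb, this]
      · have : 0 ≤ dl F Y e := by
          by_contra hneg
          push Not at hneg
          exact hb (Finset.mem_filter.2 ⟨he, hneg⟩)
        simpa [hb] using this
  calc (0 : ℤ) ≤ (∑ g ∈ HY, ((crit F Y g).card : ℤ)) - (B.card : ℤ) := by
        have : (B.card : ℤ) ≤ ((∑ g ∈ HY, (crit F Y g).card : ℕ) : ℤ) := by exact_mod_cast hcardB
        push_cast at this
        linarith
    _ = ∑ e ∈ HY, (((crit F Y e).card : ℤ) - (if e ∈ B then 1 else 0)) := by
        rw [Finset.sum_sub_distrib]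
        congr 1
        rw [Finset.sum_ite_mem]
        have : HY ∩ B = B := Finset.inter_eq_right.2 (Finset.filter_subset _ _)
        rw [this]
        simp
    _ ≤ ∑ e ∈ HY, dl F Y e := Finset.sum_le_sum hterm

/-- The global inequality: summed over all members `X` and all generators `e`, at least half of the
elements of the generators belong to the members. -/
theorem global_ineq {H F : Finset (Finset V)} (h : Fam H F) (hH : ∀ e ∈ H, e.card ≤ 3) :
    0 ≤ ∑ e ∈ H, ∑ X ∈ F, (2 * ((e ∩ X).card : ℤ) - (e.card : ℤ)) := by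
  classical
  have hfib : ∀ e ∈ H, ∑ X ∈ F, (2 * ((e ∩ X).card : ℤ) - (e.card : ℤ)) =
      ∑ Y ∈ F.filter (fun Y => e ⊆ Y), dl F Y e := by
    intro e he
    have hmap : ∀ X ∈ F, X ∪ e ∈ F.filter (fun Y => e ⊆ Y) := by
      intro X hX
      exact Finset.mem_filter.2 ⟨h.add X hX e he, Finset.subset_union_right⟩
    rw [← Finset.sum_fiberwise_of_maps_to hmap]
    refine Finset.sum_congr rfl fun Y hY => ?_
    obtain ⟨hYF, heY⟩ := Finset.mem_filter.1 hY
    unfold dl
    refine Finset.sum_bij' (fun X _ => e \ X) (fun S _ => Y \ S) ?_ ?_ ?_ ?_ ?_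
    · intro X hX
      obtain ⟨hXF, hXY⟩ := Finset.mem_filter.1 hX
      refine Finset.mem_filter.2 ⟨Finset.mem_powerset.2 Finset.sdiff_subset, ?_⟩
      have : Y \ (e \ X) = X := by
        rw [← hXY]
        ext x; simp only [Finset.mem_sdiff, Finset.mem_union]; tauto
      rw [this]; exact hXF
    · intro S hS
      obtain ⟨hSe, hSF⟩ := Finset.mem_filter.1 hS
      rw [Finset.mem_powerset] at hSe
      refine Finset.mem_filter.2 ⟨hSF, ?_⟩
      ext x; simp only [Finset.mem_sdiff, Finset.mem_union]
      constructor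
      · rintro (h1 | h1)
        · exact h1.1
        · exact heY h1
      · intro h1
        by_cases hx : x ∈ S
        · exact Or.inr (hSe hx)
        · exact Or.inl ⟨h1, hx⟩
    · intro X hX
      obtain ⟨hXF, hXY⟩ := Finset.mem_filter.1 hX
      rw [← hXY]
      ext x; simp only [Finset.mem_sdiff, Finset.mem_union]; tauto
    · intro S hS
      obtain ⟨hSe, hSF⟩ := Finset.mem_filter.1 hS
      rw [Finset.mem_powerset] at hSe
      ext x; simp only [Finset.mem_sdiff]
      constructor
      · rintro ⟨h1, h2⟩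
        by_contra h3
        exact h2 ⟨heY h1, h3⟩
      · intro h1
        exact ⟨hSe h1, fun h2 => h2.2 h1⟩
    · intro X hX
      have h1 : (e \ X).card + (e ∩ X).card = e.card := Finset.card_sdiff_add_card_inter e X
      have : (e.card : ℤ) = ((e \ X).card : ℤ) + ((e ∩ X).card : ℤ) := by exact_mod_cast h1.symm
      rw [this]; ring
  rw [Finset.sum_congr rfl hfib]
  have hswap : ∑ e ∈ H, ∑ Y ∈ F.filter (fun Y => e ⊆ Y), dl F Y e =
      ∑ Y ∈ F, ∑ e ∈ H.filter (· ⊆ Y), dl F Y e := by
    simp only [Finset.sum_filter]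
    exact Finset.sum_comm
  rw [hswap]
  exact Finset.sum_nonneg fun Y hY => local_ineq h hH hY

/-- Some generator `e` has its elements, on the average, in at least half of the members. -/
theorem exists_generator {H F : Finset (Finset V)} (h : Fam H F) (hH : ∀ e ∈ H, e.card ≤ 3)
    (hne : ∃ e ∈ H, e.Nonempty) : ∃ e ∈ H, e.Nonempty ∧
      0 ≤ ∑ X ∈ F, (2 * ((e ∩ X).card : ℤ) - (e.card : ℤ)) := by
  classical
  by_contra hcon
  push Not at hcon
  obtain ⟨e0, he0, hne0⟩ := hne
  have h1 := global_ineq h hH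
  have h2 : ∑ e ∈ H, ∑ X ∈ F, (2 * ((e ∩ X).card : ℤ) - (e.card : ℤ)) < 0 := by
    refine Finset.sum_neg' (fun e he => ?_) ⟨e0, he0, hcon e0 he0 hne0⟩
    rcases e.eq_empty_or_nonempty with rfl | hn
    · simp
    · exact (hcon e he hn).le
  omega

theorem exists_abundant {H F : Finset (Finset V)} (h : Fam H F) (hH : ∀ e ∈ H, e.card ≤ 3)
    (hne : ∃ e ∈ H, e.Nonempty) :
    ∃ e ∈ H, ∃ x ∈ e, F.card ≤ 2 * (F.filter (fun X => x ∈ X)).card := by
  classical
  obtain ⟨e, he, hen, hs⟩ := exists_generator h hH hne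
  by_contra hcon
  push Not at hcon
  have h1 : ∀ x ∈ e, 2 * ((F.filter (fun X => x ∈ X)).card : ℤ) - (F.card : ℤ) < 0 := by
    intro x hx
    have := hcon e he x hx
    have h2 : (2 * (F.filter (fun X => x ∈ X)).card : ℤ) < (F.card : ℤ) := by exact_mod_cast this
    linarith
  have h2 : ∑ x ∈ e, (2 * ((F.filter (fun X => x ∈ X)).card : ℤ) - (F.card : ℤ)) < 0 :=
    Finset.sum_neg h1 hen
  have h3 : ∑ x ∈ e, ((F.filter (fun X => x ∈ X)).card : ℤ) = ∑ X ∈ F, ((e ∩ X).card : ℤ) := by
    have : ∀ x ∈ e, ((F.filter (fun X => x ∈ X)).card : ℤ) = ∑ X ∈ F, if x ∈ X then (1 : ℤ) else 0 := by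
      intro x _
      rw [Finset.card_filter]
      push_cast
      rfl
    rw [Finset.sum_congr rfl this, Finset.sum_comm]
    refine Finset.sum_congr rfl fun X _ => ?_
    rw [Finset.sum_ite, Finset.sum_const_zero, add_zero, Finset.sum_const, nsmul_eq_mul, mul_one,
      Finset.filter_mem_eq_inter]
  rw [Finset.sum_sub_distrib, ← Finset.mul_sum, h3] at h2
  rw [Finset.sum_sub_distrib, ← Finset.mul_sum] at hs
  simp only [Finset.sum_const, nsmul_eq_mul] at h2 hs
  rw [mul_comm (F.card : ℤ)] at hs
  omega

end Pool.Agent.W616.UC3
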