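import Mathlib
import Pool.Agent.W616.UC3

/-!
# The case of equality for union-closed families generated by sets with at most three elements
-/

set_option linter.unusedSimpArgs false
set_option linter.unusedVariables false

namespace Pool.Agent.W616.UC3

open Finset

variable {V : Type*} [DecidableEq V]

theorem local_pos' (e : Finset V) (hcard : e.card ≤ 3) (p : Finset V → Prop) [DecidablePred p]
    (h0 : p ∅) (hI : ∀ S ⊆ e, ∀ T ⊆ e, p S → p T → p (S ∩ T)) (N : Finset V)
    (hN : ∀ a, a ∈ N ↔ a ∈ e ∧ ∀ S ⊆ e, p S → a ∉ S) (hne : N.Nonempty) (hNe' : N ≠ e) :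
    (N.card : ℤ) < ∑ S ∈ e.powerset.filter p, ((e.card : ℤ) - 2 * (S.card : ℤ)) := by
  classical
  have hNe : N ⊆ e := fun a ha => ((hN a).1 ha).1
  have hsub : ∀ S ⊆ e, p S → S ⊆ e \ N := by
    intro S hS hp x hx
    refine Finset.mem_sdiff.2 ⟨hS hx, fun hxN => ((hN x).1 hxN).2 S hS hp hx⟩
  have hcN : N.card < e.card := Finset.card_lt_card (Finset.ssubset_iff_subset_ne.2 ⟨hNe, hNe'⟩)
  have hN1 : 1 ≤ N.card := hne.card_pos
  have hcd : (e \ N).card = e.card - N.card := Finset.card_sdiff_of_subset hNe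
  have hfil : e.powerset.filter p = (e \ N).powerset.filter p := by
    ext S
    simp only [mem_filter, mem_powerset]
    constructor
    · rintro ⟨h1, h2⟩; exact ⟨hsub S h1 h2, h2⟩
    · rintro ⟨h1, h2⟩; exact ⟨h1.trans Finset.sdiff_subset, h2⟩
  rw [hfil, Finset.sum_filter]
  rcases Nat.lt_or_ge (e \ N).card 2 with h' | h'
  · obtain ⟨b, hb⟩ := Finset.card_eq_one.mp (by omega : (e \ N).card = 1)
    have hb1 : ({b} : Finset V) = insert b ∅ := by simp
    rw [hb, hb1, Finset.sum_powerset_insert (by simp)]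
    simp only [Finset.powerset_empty, Finset.sum_singleton, Finset.card_empty, h0, if_true]
    have c1 : (insert b (∅ : Finset V)).card = 1 := by simp
    rw [c1]
    split_ifs <;> push_cast <;> omega
  · have hc2 : (e \ N).card = 2 := by omega
    obtain ⟨b, c, hbc, hb⟩ := Finset.card_eq_two.mp hc2
    rw [hb, Finset.sum_powerset_insert (by simpa using hbc)]
    have : ({c} : Finset V) = insert c ∅ := by simp
    rw [this, Finset.sum_powerset_insert (by simp), Finset.sum_powerset_insert (by simp)]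
    simp only [Finset.powerset_empty, Finset.sum_singleton, Finset.card_empty, h0, if_true]
    have c1 : (insert b (∅ : Finset V)).card = 1 := by simp
    have c2 : (insert c (∅ : Finset V)).card = 1 := by simp
    have c3 : (insert b (insert c (∅ : Finset V))).card = 2 := by
      simpa using Finset.card_pair hbc
    rw [c1, c2, c3]
    have : e.card = 3 := by omega
    rw [this]
    split_ifs <;> push_cast <;> omega

/-- If the contribution of `e` vanishes, then `e` is removable. -/
theorem local_zero (e : Finset V) (hne : e.Nonempty) (hcard : e.card ≤ 3) (p : Finset V → Prop)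
    [DecidablePred p] (h0 : p ∅) (hI : ∀ S ⊆ e, ∀ T ⊆ e, p S → p T → p (S ∩ T))
    (hz : ∑ S ∈ e.powerset.filter p, ((e.card : ℤ) - 2 * (S.card : ℤ)) = 0) : p e := by
  classical
  by_contra hpe
  rw [Finset.sum_filter] at hz
  interval_cases hc : e.card
  · rw [Finset.card_eq_zero] at hc
    subst hc
    simp at hne
  · obtain ⟨a, rfl⟩ := Finset.card_eq_one.mp hc
    have : ({a} : Finset V) = insert a ∅ := by simp
    rw [this] at hpe
    rw [this, Finset.sum_powerset_insert (by simp)] at hz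
    simp only [Finset.powerset_empty, Finset.sum_singleton, Finset.card_empty, h0, if_true, hpe,
      if_false] at hz
    simp at hz
  · obtain ⟨a, b, hab, rfl⟩ := Finset.card_eq_two.mp hc
    have hb : ({b} : Finset V) = insert b ∅ := by simp
    rw [hb] at hpe
    rw [Finset.sum_powerset_insert (by simpa using hab), hb, Finset.sum_powerset_insert (by simp),
      Finset.sum_powerset_insert (by simp)] at hz
    simp only [Finset.powerset_empty, Finset.sum_singleton, Finset.card_empty, h0, if_true, hpe,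
      if_false] at hz
    have c1 : (insert b (∅ : Finset V)).card = 1 := by simp
    have c2 : (insert a (∅ : Finset V)).card = 1 := by simp
    rw [c1, c2] at hz
    split_ifs at hz <;> simp at hz
  · obtain ⟨a, b, c, hab, hac, hbc, rfl⟩ := Finset.card_eq_three.mp hc
    have key : ∀ f : Finset V → ℤ, ∑ S ∈ ({a, b, c} : Finset V).powerset, f S =
        f ∅ + f {a} + f {b} + f {c} + f {a, b} + f {a, c} + f {b, c} + f {a, b, c} := by
      intro f
      rw [Finset.sum_powerset_insert (by simp [hab, hac]),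
        Finset.sum_powerset_insert (by simp [hbc]), Finset.sum_powerset_insert (by simp [hbc])]
      have : ({c} : Finset V) = insert c ∅ := by simp
      rw [this]
      simp only [Finset.sum_powerset_insert (Finset.notMem_empty c), Finset.powerset_empty,
        Finset.sum_singleton]
      simp only [insert_empty_eq]
      ring
    rw [key] at hz
    have k1 : ({a} : Finset V).card = 1 := by simp
    have k2 : ({b} : Finset V).card = 1 := by simp
    have k3 : ({c} : Finset V).card = 1 := by simp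
    have k4 : ({a, b} : Finset V).card = 2 := Finset.card_pair hab
    have k5 : ({a, c} : Finset V).card = 2 := Finset.card_pair hac
    have k6 : ({b, c} : Finset V).card = 2 := Finset.card_pair hbc
    have i1 : ({a, b} : Finset V) ∩ {a, c} = {a} := by
      ext x; simp only [mem_inter, mem_insert, mem_singleton]; constructor
      · rintro ⟨h1 | h1, h2 | h2⟩ <;> simp_all
      · rintro rfl; simp
    have i2 : ({a, b} : Finset V) ∩ {b, c} = {b} := by
      ext x; simp only [mem_inter, mem_insert, mem_singleton]; constructor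
      · rintro ⟨h1 | h1, h2 | h2⟩ <;> simp_all
      · rintro rfl; simp
    have i3 : ({a, c} : Finset V) ∩ {b, c} = {c} := by
      ext x; simp only [mem_inter, mem_insert, mem_singleton]; constructor
      · rintro ⟨h1 | h1, h2 | h2⟩ <;> simp_all
      · rintro rfl; simp
    have s1 : ({a, b} : Finset V) ⊆ {a, b, c} := by intro x; simp; tauto
    have s2 : ({a, c} : Finset V) ⊆ {a, b, c} := by intro x; simp; tauto
    have s3 : ({b, c} : Finset V) ⊆ {a, b, c} := by intro x; simp; tauto
    have j1 : p {a, b} → p {a, c} → p {a} := fun h h' => i1 ▸ hI _ s1 _ s2 h h'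
    have j2 : p {a, b} → p {b, c} → p {b} := fun h h' => i2 ▸ hI _ s1 _ s3 h h'
    have j3 : p {a, c} → p {b, c} → p {c} := fun h h' => i3 ▸ hI _ s2 _ s3 h h'
    simp only [h0, if_true, Finset.card_empty, k1, k2, k3, k4, k5, k6, hc, hpe, if_false] at hz
    by_cases pa : p {a} <;> by_cases pb : p {b} <;> by_cases pc : p {c} <;>
      by_cases pab : p {a, b} <;> by_cases pac : p {a, c} <;> by_cases pbc : p {b, c} <;>
      simp only [pa, pb, pc, pab, pac, pbc, if_true, if_false] at hz j1 j2 j3 <;>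
      first
        | (revert hz; norm_num; done)
        | (simp at j1 j2 j3)

theorem wit_cover' {H F : Finset (Finset V)} (h : Fam H F) {Y e : Finset V} {a : V}
    (he : e ∈ H) (hY : e ⊆ Y) (w : Wit F Y e a) :
    ∃ g ∈ H, g ⊆ Y ∧ a ∈ crit F Y g ∧ g ∩ e = {a} := by
  classical
  obtain ⟨w1, w2, w3, w4, w5, w6⟩ := w
  have haY : a ∈ Y \ e.erase a := Finset.mem_sdiff.2 ⟨hY w2, Finset.notMem_erase a e⟩
  have hdel : (Y \ e.erase a) \ {a} ∈ F := by
    have : (Y \ e.erase a) \ {a} = Y \ e := by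
      ext x
      simp only [Finset.mem_sdiff, Finset.mem_erase, Finset.mem_singleton]
      constructor
      · rintro ⟨⟨h1, h2⟩, h3⟩
        exact ⟨h1, fun h4 => h2 ⟨h3, h4⟩⟩
      · rintro ⟨h1, h2⟩
        exact ⟨⟨h1, fun h4 => h2 h4.2⟩, fun h4 => h2 (h4 ▸ w2)⟩
    rw [this]; exact w3
  obtain ⟨g, hg, hag, hgs⟩ := h.cover _ w4 e he a w2 haY hdel
  have hge : ∀ x ∈ g, x ∈ e → x = a := by
    intro x hx hxe
    by_contra hxa
    exact (Finset.mem_sdiff.1 (hgs hx)).2 (Finset.mem_erase.2 ⟨hxa, hxe⟩)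
  refine ⟨g, hg, hgs.trans Finset.sdiff_subset, ?_, ?_⟩
  · unfold crit
    refine Finset.mem_filter.2 ⟨hag, fun S hS hSF haS => ?_⟩
    rw [Finset.mem_powerset] at hS
    have h1 := inter_closed h hSF w3
    have : S ∩ e = {a} := by
      ext x
      simp only [Finset.mem_inter, Finset.mem_singleton]
      constructor
      · rintro ⟨h2, h3⟩
        exact hge x (hS h2) h3
      · rintro rfl; exact ⟨haS, w2⟩
    rw [this] at h1
    exact w5 h1
  · ext x
    simp only [Finset.mem_inter, Finset.mem_singleton]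
    constructor
    · rintro ⟨h2, h3⟩
      exact hge x h2 h3
    · rintro rfl; exact ⟨hag, w2⟩

/-- Data in the case of equality. -/
theorem local_eq {H F : Finset (Finset V)} (h : Fam H F) (hH : ∀ e ∈ H, e.card ≤ 3)
    {Y : Finset V} (hYF : Y ∈ F) (hz : ∑ e ∈ H.filter (· ⊆ Y), dl F Y e = 0) :
    (∀ g ∈ H, g ⊆ Y → (crit F Y g).Nonempty → crit F Y g = g) ∧
    (∀ g ∈ H, g ⊆ Y → ∀ a ∈ crit F Y g, ∃ e ∈ H, e ⊆ Y ∧ Wit F Y e a ∧ g ∩ e = {a}) ∧
    ((∀ g ∈ H, g ⊆ Y → crit F Y g = ∅) → ∀ e ∈ H, e.Nonempty → e ⊆ Y → Y \ e ∈ F) := by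
  classical
  set HY := H.filter (· ⊆ Y) with hHY
  have hmem : ∀ e ∈ HY, e ∈ H ∧ e ⊆ Y := fun e he => by simpa [hHY] using he
  set B := HY.filter (fun e => dl F Y e < 0) with hB
  have hp0 : Y \ ∅ ∈ F := by simpa using hYF
  have hbad : ∀ e ∈ B, dl F Y e = -1 ∧ ∃ a, Wit F Y e a := by
    intro e he
    obtain ⟨he1, he2⟩ := Finset.mem_filter.1 he
    obtain ⟨heH, heY⟩ := hmem e he1
    obtain ⟨h3, h4, a, h5, h6, h7, h8, h9⟩ := local_neg e (hH e heH) (fun S => Y \ S ∈ F) hp0
      (fun S _ T _ hS hT => inter_closed h hS hT) he2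
    exact ⟨h4, a, h3, h5, h6, h7, h8, h9⟩
  have hcritspec : ∀ g a, a ∈ crit F Y g ↔ a ∈ g ∧ ∀ S ⊆ g, Y \ S ∈ F → a ∉ S := by
    intro g a
    unfold crit
    simp only [Finset.mem_filter, Finset.mem_powerset]
  have hcrit : ∀ g ∈ HY, (crit F Y g).Nonempty → ((crit F Y g).card : ℤ) ≤ dl F Y g := by
    intro g hg hne
    obtain ⟨hgH, hgY⟩ := hmem g hg
    exact local_pos g (hH g hgH) (fun S => Y \ S ∈ F) hp0
      (fun S _ T _ hS hT => inter_closed h hS hT) _ (hcritspec g) hne
  have hcrit' : ∀ g ∈ HY, (crit F Y g).Nonempty → crit F Y g ≠ g →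
      ((crit F Y g).card : ℤ) < dl F Y g := by
    intro g hg hne hne'
    obtain ⟨hgH, hgY⟩ := hmem g hg
    exact local_pos' g (hH g hgH) (fun S => Y \ S ∈ F) hp0
      (fun S _ T _ hS hT => inter_closed h hS hT) _ (hcritspec g) hne hne'
  have hch : ∀ e ∈ B, ∃ q : Finset V × V, Wit F Y e q.2 ∧ q.1 ∈ HY ∧ q.2 ∈ crit F Y q.1 ∧
      q.1 ∩ e = {q.2} := by
    intro e he
    obtain ⟨-, a, ha⟩ := hbad e he
    obtain ⟨he1, he2⟩ := Finset.mem_filter.1 he
    obtain ⟨g, hg, hgY, hga, hge⟩ := wit_cover' h (hmem e he1).1 (hmem e he1).2 ha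
    exact ⟨(g, a), ha, Finset.mem_filter.2 ⟨hg, hgY⟩, hga, hge⟩
  have hterm : ∀ e ∈ HY, ((crit F Y e).card : ℤ) - (if e ∈ B then 1 else 0) ≤ dl F Y e := by
    intro e he
    by_cases hne : (crit F Y e).Nonempty
    · have h1 := hcrit e he hne
      split_ifs
      · omega
      · omega
    · rw [Finset.not_nonempty_iff_eq_empty] at hne
      rw [hne]
      by_cases hb : e ∈ B
      · have := (hbad e hb).1
        simp [hb, this]
      · have : 0 ≤ dl F Y e := by
          by_contra hneg
          push Not at hneg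
          exact hb (Finset.mem_filter.2 ⟨he, hneg⟩)
        simpa [hb] using this
  have hsumB : ∑ e ∈ HY, (((crit F Y e).card : ℤ) - (if e ∈ B then 1 else 0)) =
      (∑ g ∈ HY, ((crit F Y g).card : ℤ)) - (B.card : ℤ) := by
    rw [Finset.sum_sub_distrib]
    congr 1
    rw [Finset.sum_ite_mem]
    have : HY ∩ B = B := Finset.inter_eq_right.2 (Finset.filter_subset _ _)
    rw [this]
    simp
  have hle := Finset.sum_le_sum hterm
  rw [hz, hsumB] at hle
  -- the surjectivity statement
  have hsurj : (∀ g ∈ HY, ∀ a ∈ crit F Y g, ∃ e ∈ B, Wit F Y e a ∧ g ∩ e = {a}) ∧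
      (∑ g ∈ HY, ((crit F Y g).card : ℤ)) = (B.card : ℤ) := by
    rcases B.eq_empty_or_nonempty with hBe | ⟨e0, he0⟩
    · rw [hBe] at hle ⊢
      have h0 : ∑ g ∈ HY, ((crit F Y g).card : ℤ) = 0 := by
        have : 0 ≤ ∑ g ∈ HY, ((crit F Y g).card : ℤ) := Finset.sum_nonneg fun _ _ => by positivity
        have h1 : ∑ g ∈ HY, ((crit F Y g).card : ℤ) ≤ 0 := by simpa using hle
        exact le_antisymm h1 this
      refine ⟨?_, by simpa using h0⟩
      intro g hg a ha
      exfalso
      have := (Finset.sum_eq_zero_iff_of_nonneg (fun _ _ => by positivity)).1 h0 g hg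
      have h2 : (crit F Y g).card = 0 := by exact_mod_cast this
      rw [Finset.card_eq_zero] at h2
      rw [h2] at ha
      simp at ha
    · obtain ⟨q0, -⟩ := hch e0 he0
      have : Nonempty (Finset V × V) := ⟨q0⟩
      choose! q hq using hch
      have hinj : Set.InjOn (fun e => (⟨(q e).1, (q e).2⟩ : Σ _ : Finset V, V)) B := by
        intro e he e' he' heq
        obtain ⟨w, -, -, -⟩ := hq e he
        obtain ⟨w', -, -, -⟩ := hq e' he'
        simp only [Sigma.mk.injEq] at heq
        have h2 : (q e).2 = (q e').2 := eq_of_heq heq.2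
        rw [← h2] at w'
        have m1 := hmem e (Finset.mem_filter.1 he).1
        have m2 := hmem e' (Finset.mem_filter.1 he').1
        exact wit_uniq h m1.1 m2.1 m1.2 m2.2 w w'
      have hsub : B.image (fun e => (⟨(q e).1, (q e).2⟩ : Σ _ : Finset V, V)) ⊆
          HY.sigma (fun g => crit F Y g) := by
        intro t ht
        obtain ⟨e, he, rfl⟩ := Finset.mem_image.1 ht
        obtain ⟨-, h2, h3, -⟩ := hq e he
        exact Finset.mem_sigma.2 ⟨h2, h3⟩
      have hcard1 : (B.image (fun e => (⟨(q e).1, (q e).2⟩ : Σ _ : Finset V, V))).card = B.card :=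
        Finset.card_image_of_injOn hinj
      have hcard2 : (HY.sigma (fun g => crit F Y g)).card = ∑ g ∈ HY, (crit F Y g).card :=
        Finset.card_sigma _ _
      have hle' : ∑ g ∈ HY, (crit F Y g).card ≤ B.card := by
        have : (∑ g ∈ HY, ((crit F Y g).card : ℤ)) ≤ (B.card : ℤ) := by linarith
        exact_mod_cast this
      have heq := Finset.eq_of_subset_of_card_le hsub (by rw [hcard1, hcard2]; exact hle')
      constructor
      · intro g hg a ha
        have hmem' : (⟨g, a⟩ : Σ _ : Finset V, V) ∈ HY.sigma (fun g => crit F Y g) :=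
          Finset.mem_sigma.2 ⟨hg, ha⟩
        rw [← heq] at hmem'
        obtain ⟨e, he, hee⟩ := Finset.mem_image.1 hmem'
        obtain ⟨w, -, -, h4⟩ := hq e he
        simp only [Sigma.mk.injEq] at hee
        have h1 : (q e).1 = g := hee.1
        have h2 : (q e).2 = a := eq_of_heq hee.2
        rw [h1, h2] at h4
        rw [h2] at w
        exact ⟨e, he, w, h4⟩
      · have : ∑ g ∈ HY, (crit F Y g).card = B.card := by
          rw [← hcard2, ← heq, hcard1]
        exact_mod_cast this
  obtain ⟨hs1, hs2⟩ := hsurj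
  have hteq : ∀ e ∈ HY, ((crit F Y e).card : ℤ) - (if e ∈ B then 1 else 0) = dl F Y e := by
    apply (Finset.sum_eq_sum_iff_of_le hterm).1
    rw [hsumB, hs2, hz, sub_self]
  refine ⟨?_, ?_, ?_⟩
  · intro g hg hgY hne
    by_contra hcon
    have hgm : g ∈ HY := Finset.mem_filter.2 ⟨hg, hgY⟩
    have h1 := hcrit' g hgm hne hcon
    have h2 := hteq g hgm
    split_ifs at h2 <;> omega
  · intro g hg hgY a ha
    obtain ⟨e, he, w, hge⟩ := hs1 g (Finset.mem_filter.2 ⟨hg, hgY⟩) a ha
    obtain ⟨m1, m2⟩ := hmem e (Finset.mem_filter.1 he).1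
    exact ⟨e, m1, m2, w, hge⟩
  · intro hemp e he hne heY
    have hem : e ∈ HY := Finset.mem_filter.2 ⟨he, heY⟩
    have h0 : ∑ g ∈ HY, ((crit F Y g).card : ℤ) = 0 := by
      refine Finset.sum_eq_zero fun g hg => ?_
      rw [hemp g (hmem g hg).1 (hmem g hg).2]
      simp
    have hB0 : B = ∅ := by
      rw [h0] at hs2
      rw [← Finset.card_eq_zero]
      exact_mod_cast hs2.symm
    have h1 := hteq e hem
    rw [hemp e he heY, hB0] at h1
    simp at h1
    exact local_zero e hne (hH e he) (fun S => Y \ S ∈ F) hp0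
      (fun S _ T _ hS hT => inter_closed h hS hT) h1.symm

/-- Grouping by `X ∪ e`. -/
theorem global_eq {H F : Finset (Finset V)} (h : Fam H F) :
    ∑ e ∈ H, ∑ X ∈ F, (2 * ((e ∩ X).card : ℤ) - (e.card : ℤ)) =
      ∑ Y ∈ F, ∑ e ∈ H.filter (· ⊆ Y), dl F Y e := by
  classical
  have hfib : ∀ e ∈ H, ∑ X ∈ F, (2 * ((e ∩ X).card : ℤ) - (e.card : ℤ)) =
      ∑ Y ∈ F.filter (fun Y => e ⊆ Y), dl F Y e := by
    intro e he
    have hmap : ∀ X ∈ F, X ∪ e ∈ F.filter (fun Y => e ⊆ Y) := by
      intro X hX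
      exact Finset.mem_filter.2 ⟨h.add X hX e he, Finset.subset_union_right⟩
    rw [← Finset.sum_fiberwise_of_maps_to hmap]
    refine Finset.sum_congr rfl fun Y hY => ?_
    obtain ⟨hYF, heY⟩ := Finset.mem_filter.1 hY
    unfold dl
    refine Finset.sum_bij' (fun X _ => e \ X) (fun S _ => Y \ S) ?_ ?_ ?_ ?_ ?_
    · intro X hX
      obtain ⟨hXF, hXY⟩ := Finset.mem_filter.1 hX
      refine Finset.mem_filter.2 ⟨Finset.mem_powerset.2 Finset.sdiff_subset, ?_⟩
      have : Y \ (e \ X) = X := by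
        rw [← hXY]
        ext x; simp only [Finset.mem_sdiff, Finset.mem_union]; tauto
      rw [this]; exact hXF
    · intro S hS
      obtain ⟨hSe, hSF⟩ := Finset.mem_filter.1 hS
      rw [Finset.mem_powerset] at hSe
      refine Finset.mem_filter.2 ⟨hSF, ?_⟩
      ext x; simp only [Finset.mem_sdiff, Finset.mem_union]
      constructor
      · rintro (h1 | h1)
        · exact h1.1
        · exact heY h1
      · intro h1
        by_cases hx : x ∈ S
        · exact Or.inr (hSe hx)
        · exact Or.inl ⟨h1, hx⟩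
    · intro X hX
      obtain ⟨hXF, hXY⟩ := Finset.mem_filter.1 hX
      rw [← hXY]
      ext x; simp only [Finset.mem_sdiff, Finset.mem_union]; tauto
    · intro S hS
      obtain ⟨hSe, hSF⟩ := Finset.mem_filter.1 hS
      rw [Finset.mem_powerset] at hSe
      ext x; simp only [Finset.mem_sdiff]
      constructor
      · rintro ⟨h1, h2⟩
        by_contra h3
        exact h2 ⟨heY h1, h3⟩
      · intro h1
        exact ⟨hSe h1, fun h2 => h2.2 h1⟩
    · intro X hX
      have h1 : (e \ X).card + (e ∩ X).card = e.card := Finset.card_sdiff_add_card_inter e X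
      have : (e.card : ℤ) = ((e \ X).card : ℤ) + ((e ∩ X).card : ℤ) := by exact_mod_cast h1.symm
      rw [this]; ring
  rw [Finset.sum_congr rfl hfib]
  simp only [Finset.sum_filter]
  exact Finset.sum_comm

theorem double_count (F : Finset (Finset V)) (e : Finset V) :
    ∑ X ∈ F, (2 * ((e ∩ X).card : ℤ) - (e.card : ℤ)) =
      ∑ x ∈ e, (2 * ((F.filter (fun X => x ∈ X)).card : ℤ) - (F.card : ℤ)) := by
  classical
  have h3 : ∑ x ∈ e, ((F.filter (fun X => x ∈ X)).card : ℤ) = ∑ X ∈ F, ((e ∩ X).card : ℤ) := by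
    have : ∀ x ∈ e, ((F.filter (fun X => x ∈ X)).card : ℤ) =
        ∑ X ∈ F, if x ∈ X then (1 : ℤ) else 0 := by
      intro x _
      rw [Finset.card_filter]
      push_cast
      rfl
    rw [Finset.sum_congr rfl this, Finset.sum_comm]
    refine Finset.sum_congr rfl fun X _ => ?_
    rw [Finset.sum_ite, Finset.sum_const_zero, add_zero, Finset.sum_const, nsmul_eq_mul, mul_one,
      Finset.filter_mem_eq_inter]
  rw [Finset.sum_sub_distrib, Finset.sum_sub_distrib, ← Finset.mul_sum, ← Finset.mul_sum, h3]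
  simp only [Finset.sum_const, nsmul_eq_mul]
  ring

/-- Irreducible members: some element of `g` lies in no smaller member inside `g`. -/
def Irr (F : Finset (Finset V)) (g : Finset V) : Prop :=
  ∃ x ∈ g, ∀ h ∈ F, x ∈ h → h ⊆ g → h = g

theorem exists_irr {F : Finset (Finset V)} {X : Finset V} (hX : X ∈ F) {x : V} (hx : x ∈ X) :
    ∃ g ∈ F, Irr F g ∧ x ∈ g ∧ g ⊆ X := by
  classical
  obtain ⟨g, hg, hmin⟩ := Finset.exists_min_image (F.filter (fun h => x ∈ h ∧ h ⊆ X)) Finset.card
    ⟨X, Finset.mem_filter.2 ⟨hX, hx, Finset.Subset.refl _⟩⟩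
  obtain ⟨hgF, hxg, hgX⟩ := Finset.mem_filter.1 hg
  refine ⟨g, hgF, ⟨x, hxg, fun h hh hxh hhg => ?_⟩, hxg, hgX⟩
  exact Finset.eq_of_subset_of_card_le hhg
    (hmin h (Finset.mem_filter.2 ⟨hh, hxh, hhg.trans hgX⟩))

/-- A singleton member of frequency at most one half can be removed from every member. -/
theorem erase_mem {F : Finset (Finset V)} (hunion : ∀ X ∈ F, ∀ Y ∈ F, X ∪ Y ∈ F) {b : V}
    (hb : {b} ∈ F) (hfreq : 2 * (F.filter (fun X => b ∈ X)).card ≤ F.card) {Y : Finset V}
    (hY : Y ∈ F) (hbY : b ∈ Y) : Y \ {b} ∈ F := by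
  classical
  have hsplit := Finset.card_filter_add_card_filter_not (s := F) (fun X => b ∈ X)
  have hinj : Set.InjOn (fun X : Finset V => insert b X) (F.filter (fun X => ¬ b ∈ X)) := by
    intro X hX X' hX' heq
    have h1 : b ∉ X := (Finset.mem_filter.1 (Finset.mem_coe.1 hX)).2
    have h2 : b ∉ X' := (Finset.mem_filter.1 (Finset.mem_coe.1 hX')).2
    have := congrArg (fun Z : Finset V => Z.erase b) heq
    simpa [Finset.erase_insert h1, Finset.erase_insert h2] using this
  have hsub : (F.filter (fun X => ¬ b ∈ X)).image (fun X : Finset V => insert b X) ⊆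
      F.filter (fun X => b ∈ X) := by
    intro Z hZ
    obtain ⟨X, hX, rfl⟩ := Finset.mem_image.1 hZ
    refine Finset.mem_filter.2 ⟨?_, Finset.mem_insert_self _ _⟩
    have := hunion _ hb _ (Finset.mem_filter.1 hX).1
    rwa [← Finset.insert_eq] at this
  have heq := Finset.eq_of_subset_of_card_le hsub (by
    rw [Finset.card_image_of_injOn hinj]; omega)
  have hmem : Y ∈ F.filter (fun X => b ∈ X) := Finset.mem_filter.2 ⟨hY, hbY⟩
  rw [← heq] at hmem
  obtain ⟨X, hX, hXY⟩ := Finset.mem_image.1 hmem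
  obtain ⟨hXF, hbX⟩ := Finset.mem_filter.1 hX
  have : Y \ {b} = X := by
    rw [← hXY]
    ext x
    simp only [Finset.mem_sdiff, Finset.mem_insert, Finset.mem_singleton]
    constructor
    · rintro ⟨h1 | h1, h2⟩
      · exact absurd h1 h2
      · exact h1
    · intro h1
      exact ⟨Or.inr h1, fun h2 => hbX (h2 ▸ h1)⟩
  rw [this]; exact hXF

/-- If no element lies in more than half of the members, the irreducible members are disjoint. -/
theorem irr_disjoint {F : Finset (Finset V)} (hunion : ∀ X ∈ F, ∀ Y ∈ F, X ∪ Y ∈ F)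
    (hgen : ∀ X ∈ F, ∀ x ∈ X, ∃ g ∈ F, g.card ≤ 3 ∧ x ∈ g ∧ g ⊆ X)
    (hfreq : ∀ x, 2 * (F.filter (fun X => x ∈ X)).card ≤ F.card) :
    ∀ e ∈ F, ∀ f ∈ F, Irr F e → Irr F f → e ≠ f → Disjoint e f := by
  classical
  set H := F.filter (fun g => Irr F g) with hHdef
  have hHF : ∀ g ∈ H, g ∈ F := fun g hg => (Finset.mem_filter.1 hg).1
  have hHi : ∀ g ∈ H, Irr F g := fun g hg => (Finset.mem_filter.1 hg).2
  have hHne : ∀ g ∈ H, g.Nonempty := fun g hg => by
    obtain ⟨x, hx, -⟩ := hHi g hg
    exact ⟨x, hx⟩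
  have hH3 : ∀ g ∈ H, g.card ≤ 3 := by
    intro g hg
    obtain ⟨x, hx, hirr⟩ := hHi g hg
    obtain ⟨g', hg', hc, hxg', hsub⟩ := hgen g (hHF g hg) x hx
    rw [← hirr g' hg' hxg' hsub]
    exact hc
  have hcov : ∀ X ∈ F, ∀ x ∈ X, ∃ g ∈ H, x ∈ g ∧ g ⊆ X := by
    intro X hX x hx
    obtain ⟨g, hg, hi, hxg, hgX⟩ := exists_irr hX hx
    exact ⟨g, Finset.mem_filter.2 ⟨hg, hi⟩, hxg, hgX⟩
  have hFam : Fam H F := ⟨hunion, fun X hX e he => hunion X hX e (hHF e he),
    fun X hX _ _ x _ hxX _ => hcov X hX x hxX⟩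
  -- all local sums vanish
  have hle : ∑ e ∈ H, ∑ X ∈ F, (2 * ((e ∩ X).card : ℤ) - (e.card : ℤ)) ≤ 0 := by
    refine Finset.sum_nonpos fun e _ => ?_
    rw [double_count]
    refine Finset.sum_nonpos fun x _ => ?_
    have := hfreq x
    have h2 : (2 * (F.filter (fun X => x ∈ X)).card : ℤ) ≤ (F.card : ℤ) := by exact_mod_cast this
    linarith
  rw [global_eq hFam] at hle
  have hnn : ∀ Y ∈ F, 0 ≤ ∑ e ∈ H.filter (· ⊆ Y), dl F Y e := fun Y hY =>
    local_ineq hFam hH3 hY
  have hz : ∀ Y ∈ F, ∑ e ∈ H.filter (· ⊆ Y), dl F Y e = 0 :=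
    (Finset.sum_eq_zero_iff_of_nonneg hnn).1 (le_antisymm hle (Finset.sum_nonneg hnn))
  -- a minimal counterexample
  by_contra hcon
  push Not at hcon
  obtain ⟨e1, he1, f1, hf1, hie, hif, hne1, hd1⟩ := hcon
  obtain ⟨Y, hY, hmin⟩ := Finset.exists_min_image
    (F.filter (fun Y => ∃ e ∈ H, ∃ f ∈ H, e ≠ f ∧ ¬ Disjoint e f ∧ e ⊆ Y ∧ f ⊆ Y)) Finset.card
    ⟨e1 ∪ f1, Finset.mem_filter.2 ⟨hunion _ he1 _ hf1, e1, Finset.mem_filter.2 ⟨he1, hie⟩, f1,
      Finset.mem_filter.2 ⟨hf1, hif⟩, hne1, hd1, Finset.subset_union_left,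
      Finset.subset_union_right⟩⟩
  obtain ⟨hYF, e, he, f, hf, hef, hdef, heY, hfY⟩ := Finset.mem_filter.1 hY
  have hun : ∀ a ∈ H, ∀ b ∈ H, a ≠ b → ¬ Disjoint a b → a ⊆ Y → b ⊆ Y → a ∪ b = Y := by
    intro a ha b hb hab hdab haY hbY
    refine Finset.eq_of_subset_of_card_le (Finset.union_subset haY hbY) (hmin _ ?_)
    exact Finset.mem_filter.2 ⟨hunion _ (hHF a ha) _ (hHF b hb), a, ha, b, hb, hab, hdab,
      Finset.subset_union_left, Finset.subset_union_right⟩
  obtain ⟨q1, q2, q3⟩ := local_eq hFam hH3 hYF (hz Y hYF)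
  by_cases hA : ∃ g ∈ H, g ⊆ Y ∧ (crit F Y g).Nonempty
  · obtain ⟨g, hg, hgY, hgc⟩ := hA
    have hgg := q1 g hg hgY hgc
    obtain ⟨a, ha⟩ := hHne g hg
    obtain ⟨ea, hea, heaY, wa, hga⟩ := q2 g hg hgY a (by rw [hgg]; exact ha)
    by_cases hb : ∃ b ∈ g, b ≠ a
    · obtain ⟨b, hb, hba⟩ := hb
      obtain ⟨eb, heb, hebY, wb, hgb⟩ := q2 g hg hgY b (by rw [hgg]; exact hb)
      have hea_b : b ∉ ea := fun h' => hba (by
        have : b ∈ g ∩ ea := Finset.mem_inter.2 ⟨hb, h'⟩
        rwa [hga, Finset.mem_singleton] at this)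
      have heb_a : a ∉ eb := fun h' => hba (by
        have : a ∈ g ∩ eb := Finset.mem_inter.2 ⟨ha, h'⟩
        rw [hgb, Finset.mem_singleton] at this
        exact this.symm)
      have haea : a ∈ ea := wa.2.1
      have hbeb : b ∈ eb := wb.2.1
      have hne : ea ≠ eb := fun h' => heb_a (h' ▸ haea)
      have hgne : ea ≠ g := fun h' => hea_b (h'.symm ▸ hb)
      have hgne' : eb ≠ g := fun h' => heb_a (h'.symm ▸ ha)
      have u1 : ea ∪ g = Y := hun ea hea g hg hgne
        (fun hd => Finset.disjoint_left.1 hd haea ha) heaY hgY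
      have u2 : eb ∪ g = Y := hun eb heb g hg hgne'
        (fun hd => Finset.disjoint_left.1 hd hbeb hb) hebY hgY
      obtain ⟨c, hc, hca⟩ : ∃ c ∈ ea, c ≠ a := Finset.exists_mem_ne (by rw [wa.1]; omega) a
      have hcg : c ∉ g := fun h' => hca (by
        have : c ∈ g ∩ ea := Finset.mem_inter.2 ⟨h', hc⟩
        rwa [hga, Finset.mem_singleton] at this)
      have hceb : c ∈ eb := by
        have : c ∈ eb ∪ g := by rw [u2]; exact heaY hc
        rcases Finset.mem_union.1 this with h' | h'
        · exact h'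
        · exact absurd h' hcg
      have u3 : ea ∪ eb = Y := hun ea hea eb heb hne
        (fun hd => Finset.disjoint_left.1 hd hc hceb) heaY hebY
      have hYea : Y \ ea = {b} := by
        ext y
        simp only [Finset.mem_sdiff, Finset.mem_singleton]
        constructor
        · rintro ⟨h1, h2⟩
          have h3 : y ∈ eb := by
            rw [← u3] at h1
            rcases Finset.mem_union.1 h1 with h' | h'
            · exact absurd h' h2
            · exact h'
          have h4 : y ∈ g := by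
            rw [← u1] at h1
            rcases Finset.mem_union.1 h1 with h' | h'
            · exact absurd h' h2
            · exact h'
          have : y ∈ g ∩ eb := Finset.mem_inter.2 ⟨h4, h3⟩
          rwa [hgb, Finset.mem_singleton] at this
        · rintro rfl
          exact ⟨hgY hb, hea_b⟩
      have hbF : {b} ∈ F := by rw [← hYea]; exact wa.2.2.1
      exact wb.2.2.2.2.1 (erase_mem hunion hbF (hfreq b) hYF (hgY hb))
    · push Not at hb
      have hga' : g = {a} := by
        ext x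
        simp only [Finset.mem_singleton]
        constructor
        · exact hb x
        · rintro rfl; exact ha
      have haF : {a} ∈ F := by rw [← hga']; exact hHF g hg
      exact wa.2.2.2.2.1 (erase_mem hunion haF (hfreq a) hYF (hgY ha))
  · push Not at hA
    have hempty : ∀ g ∈ H, g ⊆ Y → crit F Y g = ∅ := fun g hg hgY => by
      simpa [Finset.not_nonempty_iff_eq_empty] using hA g hg hgY
    have hrem := q3 hempty
    have hnest : ∀ a ∈ H, ∀ b ∈ H, a ≠ b → ¬ Disjoint a b → a ⊆ Y → b ⊆ Y → ¬ a ⊆ b := by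
      intro a ha b hb hab hdab haY hbY hsub
      have hbY' : b = Y := by
        rw [← hun a ha b hb hab hdab haY hbY]
        exact (Finset.union_eq_right.2 hsub).symm
      obtain ⟨x, hx, hirr⟩ := hHi b hb
      by_cases hxa : x ∈ a
      · exact hab (hirr a (hHF a ha) hxa hsub)
      · have h1 : Y \ a ∈ F := hrem a ha (hHne a ha) haY
        have h2 := hirr (Y \ a) h1 (Finset.mem_sdiff.2 ⟨hbY hx, hxa⟩)
          (by rw [hbY']; exact Finset.sdiff_subset)
        obtain ⟨z, hz'⟩ := hHne a ha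
        have h3 : z ∈ Y \ a := by rw [h2]; exact hsub hz'
        exact (Finset.mem_sdiff.1 h3).2 hz'
    have hfe : ¬ f ⊆ e := hnest f hf e he (Ne.symm hef) (fun hd => hdef hd.symm) hfY heY
    have hef' : ¬ e ⊆ f := hnest e he f hf hef hdef heY hfY
    obtain ⟨x, hxf, hxe⟩ := Finset.not_subset.1 hfe
    have h1 : Y \ e ∈ F := hrem e he (hHne e he) heY
    obtain ⟨k, hk, hxk, hkY⟩ := hcov _ h1 x (Finset.mem_sdiff.2 ⟨hfY hxf, hxe⟩)
    have hkf : k ⊆ f := by
      intro z hz'
      obtain ⟨h2, h3⟩ := Finset.mem_sdiff.1 (hkY hz')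
      rw [← hun e he f hf hef hdef heY hfY] at h2
      rcases Finset.mem_union.1 h2 with h' | h'
      · exact absurd h' h3
      · exact h'
    have hkne : k ≠ f := by
      rintro rfl
      obtain ⟨z, hz1, hz2⟩ := Finset.not_disjoint_iff.1 hdef
      exact (Finset.mem_sdiff.1 (hkY hz2)).2 hz1
    exact hnest k hk f hf hkne (fun hd => Finset.disjoint_left.1 hd hxk hxf)
      (hkf.trans hfY) hfY hkf

/-- Poonen's strict form for families generated by sets with at most three elements. -/
theorem strict {F : Finset (Finset V)} (hF : F.Nonempty)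
    (hunion : ∀ X ∈ F, ∀ Y ∈ F, X ∪ Y ∈ F)
    (hgen : ∀ X ∈ F, ∀ x ∈ X, ∃ g ∈ F, g.card ≤ 3 ∧ x ∈ g ∧ g ⊆ X)
    (hsep : ∀ x ∈ F.sup id, ∀ y ∈ F.sup id, x ≠ y →
      ∃ S ∈ F, (x ∈ S ∧ y ∉ S) ∨ (y ∈ S ∧ x ∉ S))
    (hpow : F ≠ (F.sup id).powerset) :
    ∃ x ∈ F.sup id, F.card < 2 * (F.filter (fun X => x ∈ X)).card := by
  classical
  by_contra hcon
  push Not at hcon
  have hmemU : ∀ x, x ∈ F.sup id ↔ ∃ X ∈ F, x ∈ X := by
    intro x
    simp [Finset.mem_sup]
  have hfreq : ∀ x, 2 * (F.filter (fun X => x ∈ X)).card ≤ F.card := by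
    intro x
    by_cases hx : x ∈ F.sup id
    · exact hcon x hx
    · have : F.filter (fun X => x ∈ X) = ∅ := by
        refine Finset.filter_eq_empty_iff.2 fun X hX hxX => hx ((hmemU x).2 ⟨X, hX, hxX⟩)
      rw [this]; simp
  have hdis := irr_disjoint hunion hgen hfreq
  have hsing : ∀ x ∈ F.sup id, {x} ∈ F := by
    intro x hx
    obtain ⟨X, hX, hxX⟩ := (hmemU x).1 hx
    obtain ⟨e, he, hie, hxe, heX⟩ := exists_irr hX hxX
    have : e = {x} := by
      ext y
      simp only [Finset.mem_singleton]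
      constructor
      · intro hy
        by_contra hyx
        have hyU : y ∈ F.sup id := (hmemU y).2 ⟨e, he, hy⟩
        obtain ⟨S, hS, hS' | hS'⟩ := hsep x hx y hyU (Ne.symm hyx)
        · obtain ⟨g, hg, hig, hxg, hgS⟩ := exists_irr hS hS'.1
          have hge : g = e := by
            by_contra hne
            exact Finset.disjoint_left.1 (hdis g hg e he hig hie hne) hxg hxe
          exact hS'.2 (hgS (hge ▸ hy))
        · obtain ⟨g, hg, hig, hyg, hgS⟩ := exists_irr hS hS'.1
          have hge : g = e := by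
            by_contra hne
            exact Finset.disjoint_left.1 (hdis g hg e he hig hie hne) hyg hy
          exact hS'.2 (hgS (hge ▸ hxe))
      · rintro rfl; exact hxe
    rw [← this]; exact he
  apply hpow
  apply Finset.Subset.antisymm
  · intro X hX
    rw [Finset.mem_powerset]
    intro x hx
    exact (hmemU x).2 ⟨X, hX, hx⟩
  · have hemp : ∅ ∈ F := by
      obtain ⟨X, hX⟩ := hF
      rcases X.eq_empty_or_nonempty with rfl | ⟨x, hx⟩
      · exact hX
      · have hxU : x ∈ F.sup id := (hmemU x).2 ⟨X, hX, hx⟩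
        have := erase_mem hunion (hsing x hxU) (hfreq x) (hsing x hxU) (Finset.mem_singleton_self x)
        simpa using this
    have hall : ∀ X : Finset V, X ⊆ F.sup id → X ∈ F := by
      intro X
      induction X using Finset.induction_on with
      | empty => intro _; exact hemp
      | insert x X hx ih =>
        intro hsub
        have h1 := ih ((Finset.subset_insert x X).trans hsub)
        have h2 := hsing x (hsub (Finset.mem_insert_self x X))
        have := hunion _ h2 _ h1
        rwa [← Finset.insert_eq] at this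
    intro X hX
    exact hall X (Finset.mem_powerset.1 hX)

end Pool.Agent.W616.UC3
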