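import Pool.Agent.W616.KGroup

/-!
# The first homology group of a surgery on a knot
-/

set_option autoImplicit false
set_option linter.unusedSectionVars false

namespace Pool.Agent.W616

theorem closed_comm {G : Type*} [CommGroup G] {m : ℕ} (w : Braid m) (x : Fin (m + 1) → G)
    (h : Closed w x) (t : ℕ) (p : Fin (m + 1)) : x ((perm w)^[t] p) = x p := by
  induction t with
  | zero => rfl
  | succ t ih =>
    rw [← ih, Function.iterate_succ_apply']
    have h1 := labs_conj w x ((perm w)^[t] p)
    rw [h] at h1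
    rw [h1, mul_comm _ (x _), mul_assoc, inv_mul_cancel, mul_one]

theorem finite_ab {m : ℕ} (w : Braid m) (b : Fin (m + 1)) (f : ℤ)
    (ht : ∀ p, ∃ t : ℕ, (perm w)^[t] p = b)
    (hn : f - writhe w + Multiplicative.toAdd
      (longAux w (fun _ => Multiplicative.ofAdd (1 : ℤ)) b (m + 1)) ≠ 0) :
    Finite (Abelianization (pi1 w b f)) := by
  let A := Abelianization (pi1 w b f)
  let ψ : pi1 w b f →* A := Abelianization.of
  let x : Fin (m + 1) → A := fun p => ψ (PresentedGroup.of p)
  obtain ⟨hc, hrel⟩ := (homEquiv w b f ψ).2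
  change Closed w x at hc
  change x b ^ (f - writhe w) * longAux w x b (m + 1) = 1 at hrel
  have hx : x = fun _ => x b := by
    funext p
    obtain ⟨t, h⟩ := ht p
    rw [← closed_comm w x hc t p, h]
  let g := x b
  let φ : Multiplicative ℤ →* A := zpowersHom A g
  have hφ : ∀ z, φ z = g ^ (Multiplicative.toAdd z) := fun z => by simp [φ]
  have h2 : longAux w x b (m + 1) =
      φ (longAux w (fun _ => Multiplicative.ofAdd (1 : ℤ)) b (m + 1)) := by
    rw [← longAux_map φ w (fun _ => Multiplicative.ofAdd (1 : ℤ)) b]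
    conv_lhs => rw [hx]
    congr 1
  rw [h2, hφ] at hrel
  change g ^ (f - writhe w) * g ^ (Multiplicative.toAdd
      (longAux w (fun _ => Multiplicative.ofAdd (1 : ℤ)) b (m + 1))) = 1 at hrel
  rw [← zpow_add] at hrel
  have hfin : IsOfFinOrder g := isOfFinOrder_iff_zpow_eq_one.2 ⟨_, hn, hrel⟩
  have htop : ∀ a : A, a ∈ Subgroup.zpowers g := by
    intro a
    obtain ⟨y, rfl⟩ := QuotientGroup.mk_surjective a
    have hy : y ∈ Subgroup.comap ψ (Subgroup.zpowers g) := by
      have : (⊤ : Subgroup (pi1 w b f)) ≤ Subgroup.comap ψ (Subgroup.zpowers g) := by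
        rw [← PresentedGroup.closure_range_of, Subgroup.closure_le]
        rintro _ ⟨p, rfl⟩
        change x p ∈ Subgroup.zpowers g
        rw [hx]
        exact Subgroup.mem_zpowers g
      exact this (Subgroup.mem_top y)
    exact hy
  have hf2 : Finite (Subgroup.zpowers g) := finite_zpowers.2 hfin
  exact Finite.of_surjective (fun z : Subgroup.zpowers g => (z : A)) (fun a => ⟨⟨a, htop a⟩, rfl⟩)

/-- the knots -/
theorem trans_KK : ∀ b p : Fin 5, ∃ t : Fin 5, (perm sumKK)^[t.1] p = b := by decide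
theorem trans_KrK : ∀ b p : Fin 5, ∃ t : Fin 5, (perm sumKrK)^[t.1] p = b := by decide

theorem isKnot_KK : IsKnot sumKK := fun p => ⟨_, (trans_KK p 0).choose_spec⟩
theorem isKnot_KrK : IsKnot sumKrK := fun p => ⟨_, (trans_KrK p 0).choose_spec⟩

theorem finite_KK : Finite (Abelianization (pi1 sumKK 2 3)) :=
  finite_ab sumKK 2 3 (fun p => ⟨_, (trans_KK 2 p).choose_spec⟩) (by decide)
theorem finite_KrK : Finite (Abelianization (pi1 sumKrK 2 3)) :=
  finite_ab sumKrK 2 3 (fun p => ⟨_, (trans_KrK 2 p).choose_spec⟩) (by decide)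

end Pool.Agent.W616
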