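import Pool.Agent.W979.TE.Defs3

set_option autoImplicit false

/-!
# Sequential counting, number of homs, degenerate homs
-/

open Classical

namespace Pool.Agent.W616.TE3

open Finset
open Pool.Agent.W715.BC Pool.Agent.W979.TE3

section Seq

variable {V W : Type} [Fintype V] [Fintype W] [DecidableEq V]

/-- the assignments satisfying the conditions in `S` and equal to `f0` outside -/
noncomputable def AS (ok : V → (V → W) → Prop) (f0 : V → W) (S : Finset V) : Finset (V → W) :=
  univ.filter (fun f => (∀ v ∈ S, ok v f) ∧ ∀ v, v ∉ S → f v = f0 v)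

theorem AS_step (rk : V → ℕ) (ok : V → (V → W) → Prop)
    (hloc : ∀ v f g, f v = g v → (∀ u, rk u < rk v → f u = g u) → ok v f → ok v g)
    (f0 : V → W) (S : Finset V) (v0 : V) (hv0 : v0 ∈ S) (hmax : ∀ v ∈ S, rk v ≤ rk v0) :
    (AS ok f0 S).card = ∑ g ∈ AS ok f0 (S.erase v0),
      (univ.filter (fun w : W => ok v0 (Function.update g v0 w))).card := by
  have hmap : ∀ f ∈ AS ok f0 S, Function.update f v0 (f0 v0) ∈ AS ok f0 (S.erase v0) := by
    intro f hf
    simp only [AS, mem_filter, mem_univ, true_and] at hf ⊢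
    refine ⟨fun v hv => ?_, fun v hv => ?_⟩
    · have hne : v ≠ v0 := ne_of_mem_erase hv
      have hvS : v ∈ S := mem_of_mem_erase hv
      refine hloc v f _ ?_ ?_ (hf.1 v hvS)
      · rw [Function.update_of_ne hne]
      · intro u hu
        have : u ≠ v0 := by
          rintro rfl
          exact absurd (hmax v hvS) (not_le.mpr hu)
        rw [Function.update_of_ne this]
    · by_cases hvv : v = v0
      · subst hvv; rw [Function.update_self]
      · rw [Function.update_of_ne hvv]
        exact hf.2 v (fun h => hv (mem_erase.mpr ⟨hvv, h⟩))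
  rw [card_eq_sum_card_fiberwise hmap]
  apply sum_congr rfl
  intro g hg
  simp only [AS, mem_filter, mem_univ, true_and] at hg
  refine card_bij' (fun f _ => f v0) (fun w _ => Function.update g v0 w) ?_ ?_ ?_ ?_
  · intro f hf
    simp only [AS, mem_filter, mem_univ, true_and] at hf ⊢
    rw [← hf.2, Function.update_idem, Function.update_eq_self]
    exact hf.1.1 v0 hv0
  · intro w hw
    simp only [AS, mem_filter, mem_univ, true_and] at hw ⊢
    refine ⟨⟨fun v hv => ?_, fun v hv => ?_⟩, ?_⟩
    · by_cases hvv : v = v0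
      · subst hvv; exact hw
      · refine hloc v g _ ?_ ?_ (hg.1 v (mem_erase.mpr ⟨hvv, hv⟩))
        · rw [Function.update_of_ne hvv]
        · intro u hu
          have : u ≠ v0 := by
            rintro rfl
            exact absurd (hmax v hv) (not_le.mpr hu)
          rw [Function.update_of_ne this]
    · have hvv : v ≠ v0 := fun h => hv (h ▸ hv0)
      rw [Function.update_of_ne hvv]
      exact hg.2 v (fun h => hv (mem_of_mem_erase h))
    · rw [Function.update_idem]
      have : g v0 = f0 v0 := hg.2 v0 (notMem_erase v0 S)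
      rw [← this, Function.update_eq_self]
  · intro f hf
    simp only [AS, mem_filter, mem_univ, true_and] at hf
    rw [← hf.2, Function.update_idem, Function.update_eq_self]
  · intro w hw
    simp

theorem AS_le (rk : V → ℕ) (ok : V → (V → W) → Prop)
    (hloc : ∀ v f g, f v = g v → (∀ u, rk u < rk v → f u = g u) → ok v f → ok v g)
    (hi : V → ℕ)
    (hhi : ∀ v f, (univ.filter (fun w : W => ok v (Function.update f v w))).card ≤ hi v)
    (f0 : V → W) : ∀ (n : ℕ) (S : Finset V), S.card = n → (AS ok f0 S).card ≤ ∏ v ∈ S, hi v := by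
  intro n
  induction n with
  | zero =>
    intro S hS
    rw [card_eq_zero] at hS
    subst hS
    simp only [prod_empty]
    rw [card_le_one]
    intro f hf g hg
    simp only [AS, mem_filter, mem_univ, true_and] at hf hg
    funext v
    rw [hf.2 v (notMem_empty v), hg.2 v (notMem_empty v)]
  | succ n ih =>
    intro S hS
    have hne : S.Nonempty := card_pos.mp (by omega)
    obtain ⟨v0, hv0, hmax⟩ := exists_max_image S rk hne
    rw [AS_step rk ok hloc f0 S v0 hv0 hmax]
    have h1 := ih (S.erase v0) (by rw [card_erase_of_mem hv0, hS]; rfl)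
    calc ∑ g ∈ AS ok f0 (S.erase v0), (univ.filter (fun w : W => ok v0 (Function.update g v0 w))).card
        ≤ ∑ g ∈ AS ok f0 (S.erase v0), hi v0 := sum_le_sum (fun g _ => hhi v0 g)
      _ = (AS ok f0 (S.erase v0)).card * hi v0 := by rw [sum_const, smul_eq_mul]
      _ ≤ (∏ v ∈ S.erase v0, hi v) * hi v0 := Nat.mul_le_mul_right _ h1
      _ = ∏ v ∈ S, hi v := prod_erase_mul S hi hv0

theorem le_AS (rk : V → ℕ) (ok : V → (V → W) → Prop)
    (hloc : ∀ v f g, f v = g v → (∀ u, rk u < rk v → f u = g u) → ok v f → ok v g)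
    (lo : V → ℕ)
    (hlo : ∀ v f, lo v ≤ (univ.filter (fun w : W => ok v (Function.update f v w))).card)
    (f0 : V → W) : ∀ (n : ℕ) (S : Finset V), S.card = n → ∏ v ∈ S, lo v ≤ (AS ok f0 S).card := by
  intro n
  induction n with
  | zero =>
    intro S hS
    rw [card_eq_zero] at hS
    subst hS
    simp only [prod_empty]
    rw [Nat.one_le_iff_ne_zero, ← Nat.pos_iff_ne_zero, card_pos]
    exact ⟨f0, by simp [AS]⟩
  | succ n ih =>
    intro S hS
    have hne : S.Nonempty := card_pos.mp (by omega)
    obtain ⟨v0, hv0, hmax⟩ := exists_max_image S rk hne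
    rw [AS_step rk ok hloc f0 S v0 hv0 hmax]
    have h1 := ih (S.erase v0) (by rw [card_erase_of_mem hv0, hS]; rfl)
    calc ∏ v ∈ S, lo v = (∏ v ∈ S.erase v0, lo v) * lo v0 := (prod_erase_mul S lo hv0).symm
      _ ≤ (AS ok f0 (S.erase v0)).card * lo v0 := Nat.mul_le_mul_right _ h1
      _ = ∑ g ∈ AS ok f0 (S.erase v0), lo v0 := by rw [sum_const, smul_eq_mul]
      _ ≤ _ := sum_le_sum (fun g _ => hlo v0 g)

/-- upper bound by sequential counting -/
theorem seq_le (rk : V → ℕ) (ok : V → (V → W) → Prop)
    (hloc : ∀ v f g, f v = g v → (∀ u, rk u < rk v → f u = g u) → ok v f → ok v g)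
    (hi : V → ℕ)
    (hhi : ∀ v f, (univ.filter (fun w : W => ok v (Function.update f v w))).card ≤ hi v) :
    (univ.filter (fun f : V → W => ∀ v, ok v f)).card ≤ ∏ v, hi v := by
  by_cases h : Nonempty (V → W)
  · obtain ⟨f0⟩ := h
    have := AS_le rk ok hloc hi hhi f0 _ univ rfl
    refine le_trans (card_le_card ?_) this
    intro f hf
    simpa [AS] using hf
  · rw [not_nonempty_iff] at h
    have : (univ.filter (fun f : V → W => ∀ v, ok v f)) = ∅ := by
      ext f; exact (h.false f).elim
    rw [this, card_empty]; exact Nat.zero_le _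

/-- lower bound by sequential counting -/
theorem le_seq [Nonempty W] (rk : V → ℕ) (ok : V → (V → W) → Prop)
    (hloc : ∀ v f g, f v = g v → (∀ u, rk u < rk v → f u = g u) → ok v f → ok v g)
    (lo : V → ℕ)
    (hlo : ∀ v f, lo v ≤ (univ.filter (fun w : W => ok v (Function.update f v w))).card) :
    ∏ v, lo v ≤ (univ.filter (fun f : V → W => ∀ v, ok v f)).card := by
  have := le_AS rk ok hloc lo hlo (fun _ => Classical.arbitrary W) _ univ rfl
  refine le_trans this (card_le_card ?_)
  intro f hf
  simpa [AS] using hf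

end Seq


/-! ### Positions of the subdivided tree -/

/-- positions: centres, roots, connectors between centres, connectors to roots -/
abbrev Pos (s q : ℕ) : Type :=
  Option (Fin s) ⊕ (Option (Fin s) × Fin q) ⊕ Fin s ⊕ (Option (Fin s) × Fin q)

/-- parent of a position -/
def par {s q : ℕ} : Pos s q → Pos s q
  | Sum.inl none => Sum.inl none
  | Sum.inl (some i) => Sum.inr (Sum.inr (Sum.inl i))
  | Sum.inr (Sum.inl p) => Sum.inr (Sum.inr (Sum.inr p))
  | Sum.inr (Sum.inr (Sum.inl _)) => Sum.inl none
  | Sum.inr (Sum.inr (Sum.inr p)) => Sum.inl p.1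

/-- level of a position -/
def lev {s q : ℕ} : Pos s q → ℕ
  | Sum.inl none => 0
  | Sum.inl (some _) => 2
  | Sum.inr (Sum.inl _) => 4
  | Sum.inr (Sum.inr (Sum.inl _)) => 1
  | Sum.inr (Sum.inr (Sum.inr _)) => 3

/-- the centre -/
abbrev cen {s q : ℕ} : Pos s q := Sum.inl none

theorem lev_par {s q : ℕ} (v : Pos s q) (hv : v ≠ cen) : lev (par v) < lev v := by
  match v with
  | Sum.inl none => exact absurd rfl hv
  | Sum.inl (some i) => simp [lev, par]
  | Sum.inr (Sum.inl p) => simp [lev, par]
  | Sum.inr (Sum.inr (Sum.inl _)) => simp [lev, par]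
  | Sum.inr (Sum.inr (Sum.inr (none, l))) => simp [lev, par]
  | Sum.inr (Sum.inr (Sum.inr (some i, l))) => simp [lev, par]

theorem lev_pos {s q : ℕ} (v : Pos s q) (hv : v ≠ cen) : 0 < lev v := by
  have := lev_par v hv; omega

theorem card_pos' (s q : ℕ) : Fintype.card (Pos s q) = 2 * hh s q + 1 := by
  simp only [Fintype.card_sum, Fintype.card_option, Fintype.card_prod, Fintype.card_fin, hh]
  ring

/-- the vertices at the positions -/
def asg {A B : Type} {s q : ℕ} (z : Cop A B s q) : Pos s q → A ⊕ B
  | Sum.inl x => Sum.inl (z.1 x)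
  | Sum.inr (Sum.inl p) => Sum.inl (z.2.1 p.1 p.2)
  | Sum.inr (Sum.inr (Sum.inl i)) => Sum.inr (z.2.2.1 i)
  | Sum.inr (Sum.inr (Sum.inr p)) => Sum.inr (z.2.2.2 p.1 p.2)

theorem asg_inj {A B : Type} {s q : ℕ} : Function.Injective (asg : Cop A B s q → _) := by
  rintro ⟨u, ρ, β, γ⟩ ⟨u', ρ', β', γ'⟩ h
  have h1 : u = u' := by
    funext x; exact Sum.inl.inj (congrFun h (Sum.inl x))
  have h2 : ρ = ρ' := by
    funext x l; exact Sum.inl.inj (congrFun h (Sum.inr (Sum.inl (x, l))))
  have h3 : β = β' := by
    funext x; exact Sum.inr.inj (congrFun h (Sum.inr (Sum.inr (Sum.inl x))))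
  have h4 : γ = γ' := by
    funext x l; exact Sum.inr.inj (congrFun h (Sum.inr (Sum.inr (Sum.inr (x, l)))))
  subst h1 h2 h3 h4; rfl

/-- adjacency on the disjoint union -/
def adj {A B : Type} (r : A → B → Prop) : A ⊕ B → A ⊕ B → Prop
  | Sum.inl a, Sum.inr b => r a b
  | Sum.inr b, Sum.inl a => r a b
  | _, _ => False

theorem adj_lr {A B : Type} (r : A → B → Prop) (a : A) (b : B) :
    adj r (Sum.inl a) (Sum.inr b) = r a b := rfl
theorem adj_rl {A B : Type} (r : A → B → Prop) (a : A) (b : B) :
    adj r (Sum.inr b) (Sum.inl a) = r a b := rfl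
theorem adj_ll {A B : Type} (r : A → B → Prop) (a a' : A) :
    adj r (Sum.inl a) (Sum.inl a') = False := rfl
theorem adj_rr {A B : Type} (r : A → B → Prop) (b b' : B) :
    adj r (Sum.inr b) (Sum.inr b') = False := rfl

theorem adj_card {A B : Type} [Fintype A] [Fintype B] {r : A → B → Prop} {D K : ℕ}
    (h : Reg r D K) (x : A ⊕ B) : D ≤ (univ.filter (fun w : A ⊕ B => adj r w x)).card ∧
      (univ.filter (fun w : A ⊕ B => adj r w x)).card ≤ K * D := by
  rcases x with a | b
  · have : (univ.filter (fun w : A ⊕ B => adj r w (Sum.inl a))).card = deg1 r a := by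
      unfold deg1
      symm
      apply card_bij (fun b _ => Sum.inr b)
      · intro b hb
        simp only [mem_filter, mem_univ, true_and, adj_rl] at hb ⊢
        exact hb
      · intro b _ b' _ hbb; exact Sum.inr.inj hbb
      · intro w hw
        rcases w with a' | b
        · simp only [mem_filter, mem_univ, true_and, adj_ll] at hw
        · simp only [mem_filter, mem_univ, true_and, adj_rl] at hw
          exact ⟨b, by simpa only [mem_filter, mem_univ, true_and] using hw, rfl⟩
    rw [this]; exact ⟨h.la a, h.ua a⟩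
  · have : (univ.filter (fun w : A ⊕ B => adj r w (Sum.inr b))).card = deg2 r b := by
      unfold deg2
      symm
      apply card_bij (fun b _ => Sum.inl b)
      · intro b hb
        simp only [mem_filter, mem_univ, true_and, adj_lr] at hb ⊢
        exact hb
      · intro b _ b' _ hbb; exact Sum.inl.inj hbb
      · intro w hw
        rcases w with a' | b
        · simp only [mem_filter, mem_univ, true_and, adj_lr] at hw
          exact ⟨a', by simpa only [mem_filter, mem_univ, true_and] using hw, rfl⟩
        · simp only [mem_filter, mem_univ, true_and, adj_rr] at hw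
    rw [this]; exact ⟨h.lb b, h.ub b⟩

/-- the condition at a position -/
def ok {A B : Type} {s q : ℕ} (r : A → B → Prop) (v : Pos s q) (f : Pos s q → A ⊕ B) : Prop :=
  if v = cen then (f v).isLeft = true else adj r (f v) (f (par v))

theorem ok_asg {A B : Type} {s q : ℕ} (r : A → B → Prop) (z : Cop A B s q) (h : Hm r z)
    (v : Pos s q) : ok r v (asg z) := by
  obtain ⟨h1, h2, h3, h4⟩ := h
  match v with
  | Sum.inl none => simp [ok, asg]
  | Sum.inl (some i) => simpa [ok, asg, par, adj] using h2 i
  | Sum.inr (Sum.inl p) => simpa [ok, asg, par, adj] using h4 p.1 p.2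
  | Sum.inr (Sum.inr (Sum.inl i)) => simpa [ok, asg, par, adj] using h1 i
  | Sum.inr (Sum.inr (Sum.inr p)) => simpa [ok, asg, par, adj] using h3 p.1 p.2

theorem exists_asg {A B : Type} {s q : ℕ} (r : A → B → Prop) (f : Pos s q → A ⊕ B)
    (h : ∀ v, ok r v f) : ∃ z : Cop A B s q, Hm r z ∧ asg z = f := by
  have hc : ∃ a, f cen = Sum.inl a := by
    have := h cen
    simp only [ok, if_true] at this
    exact Sum.isLeft_iff.mp this
  have hβ : ∀ i : Fin s, ∃ b, f (Sum.inr (Sum.inr (Sum.inl i))) = Sum.inr b := by
    intro i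
    obtain ⟨a, ha⟩ := hc
    have := h (Sum.inr (Sum.inr (Sum.inl i)))
    simp only [ok, reduceCtorEq, if_false, par] at this
    rw [ha] at this
    rcases hf : f (Sum.inr (Sum.inr (Sum.inl i))) with a' | b
    · rw [hf] at this; exact absurd this (by simp [adj])
    · exact ⟨b, rfl⟩
  have hu : ∀ x : Option (Fin s), ∃ a, f (Sum.inl x) = Sum.inl a := by
    intro x
    rcases x with _ | i
    · exact hc
    · obtain ⟨b, hb⟩ := hβ i
      have := h (Sum.inl (some i))
      simp only [ok, Sum.inl.injEq, reduceCtorEq, if_false, par] at this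
      rw [hb] at this
      rcases hf : f (Sum.inl (some i)) with a' | b'
      · exact ⟨a', rfl⟩
      · rw [hf] at this; exact absurd this (by simp [adj])
  have hγ : ∀ p : Option (Fin s) × Fin q, ∃ b, f (Sum.inr (Sum.inr (Sum.inr p))) = Sum.inr b := by
    intro p
    obtain ⟨a, ha⟩ := hu p.1
    have := h (Sum.inr (Sum.inr (Sum.inr p)))
    simp only [ok, reduceCtorEq, if_false, par] at this
    rw [ha] at this
    rcases hf : f (Sum.inr (Sum.inr (Sum.inr p))) with a' | b
    · rw [hf] at this; exact absurd this (by simp [adj])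
    · exact ⟨b, rfl⟩
  have hρ : ∀ p : Option (Fin s) × Fin q, ∃ a, f (Sum.inr (Sum.inl p)) = Sum.inl a := by
    intro p
    obtain ⟨b, hb⟩ := hγ p
    have := h (Sum.inr (Sum.inl p))
    simp only [ok, reduceCtorEq, if_false, par] at this
    rw [hb] at this
    rcases hf : f (Sum.inr (Sum.inl p)) with a' | b'
    · exact ⟨a', rfl⟩
    · rw [hf] at this; exact absurd this (by simp [adj])
  choose β hβ using hβ
  choose u hu using hu
  choose γ hγ using hγ
  choose ρ hρ using hρ
  refine ⟨(u, fun x l => ρ (x, l), β, fun x l => γ (x, l)), ⟨?_, ?_, ?_, ?_⟩, ?_⟩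
  · intro i
    have := h (Sum.inr (Sum.inr (Sum.inl i)))
    simp only [ok, reduceCtorEq, if_false, par] at this
    rw [hβ i, hu none] at this
    exact this
  · intro i
    have := h (Sum.inl (some i))
    simp only [ok, Sum.inl.injEq, reduceCtorEq, if_false, par] at this
    rw [hβ i, hu (some i)] at this
    exact this
  · intro x l
    have := h (Sum.inr (Sum.inr (Sum.inr (x, l))))
    simp only [ok, reduceCtorEq, if_false, par] at this
    rw [hγ (x, l), hu x] at this
    exact this
  · intro x l
    have := h (Sum.inr (Sum.inl (x, l)))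
    simp only [ok, reduceCtorEq, if_false, par] at this
    rw [hγ (x, l), hρ (x, l)] at this
    exact this
  · funext v
    match v with
    | Sum.inl x => simp [asg, hu]
    | Sum.inr (Sum.inl p) => simp [asg, hρ]
    | Sum.inr (Sum.inr (Sum.inl i)) => simp [asg, hβ]
    | Sum.inr (Sum.inr (Sum.inr p)) => simp [asg, hγ]

theorem ok_loc {A B : Type} {s q : ℕ} (r : A → B → Prop) (v : Pos s q) (f g : Pos s q → A ⊕ B)
    (h1 : f v = g v) (h2 : ∀ u, lev u < lev v → f u = g u) (h : ok r v f) : ok r v g := by
  unfold ok at h ⊢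
  split_ifs at h ⊢ with hv
  · rwa [← h1]
  · rwa [← h1, ← h2 _ (lev_par v hv)]

theorem par_ne {s q : ℕ} (v : Pos s q) (hv : v ≠ cen) : par v ≠ v := by
  intro h; have := lev_par v hv; rw [h] at this; exact lt_irrefl _ this

theorem ok_card {A B : Type} [Fintype A] [Fintype B] {s q : ℕ} {r : A → B → Prop} {D K : ℕ}
    (h : Reg r D K) (v : Pos s q) (f : Pos s q → A ⊕ B) :
    (if v = cen then Fintype.card A else D) ≤
      (univ.filter (fun w => ok r v (Function.update f v w))).card ∧
    (univ.filter (fun w => ok r v (Function.update f v w))).card ≤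
      (if v = cen then Fintype.card A else K * D) := by
  by_cases hv : v = cen
  · have : (univ.filter (fun w => ok r v (Function.update f v w))).card = Fintype.card A := by
      simp only [ok, hv, if_true, Function.update_self]
      rw [← card_univ]
      symm
      apply card_bij (fun a _ => Sum.inl a)
      · intro a _; simp
      · intro a _ b _ hab; exact Sum.inl.inj hab
      · intro w hw
        obtain ⟨a, ha⟩ := Sum.isLeft_iff.mp (mem_filter.mp hw).2
        exact ⟨a, mem_univ _, ha.symm⟩
    rw [this]; simp [hv]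
  · have : (univ.filter (fun w => ok r v (Function.update f v w))) =
        univ.filter (fun w : A ⊕ B => adj r w (f (par v))) := by
      ext w
      simp only [ok, hv, if_false, mem_filter, mem_univ, true_and, Function.update_self]
      rw [Function.update_of_ne (par_ne v hv)]
    rw [this]
    simp only [hv, if_false]
    exact adj_card h _

theorem prod_cen {s q : ℕ} (a d : ℕ) :
    ∏ v : Pos s q, (if v = cen then a else d) = a * d ^ (2 * hh s q) := by
  rw [← mul_prod_erase univ _ (mem_univ (cen : Pos s q))]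
  simp only [if_true]
  congr 1
  have : ∀ v ∈ univ.erase (cen : Pos s q), (if v = cen then a else d) = d := by
    intro v hv
    rw [if_neg (ne_of_mem_erase hv)]
  rw [prod_congr rfl this, prod_const, card_erase_of_mem (mem_univ _), card_univ, card_pos']
  rfl

theorem t_HC : S_HC := by
  intro s q K A B _ _ r D h
  have heq : (univ.filter (fun z : Cop A B s q => Hm r z)).card =
      (univ.filter (fun f : Pos s q → A ⊕ B => ∀ v, ok r v f)).card := by
    apply card_bij (fun z _ => asg z)
    · intro z hz
      simp only [mem_filter, mem_univ, true_and] at hz ⊢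
      exact fun v => ok_asg r z hz v
    · intro z _ z' _ hzz; exact asg_inj hzz
    · intro f hf
      simp only [mem_filter, mem_univ, true_and] at hf
      obtain ⟨z, hz, hzf⟩ := exists_asg r f hf
      exact ⟨z, by simpa using hz, hzf⟩
  rw [heq]
  constructor
  · by_cases hA : Nonempty (A ⊕ B)
    · have := le_seq (W := A ⊕ B) (lev : Pos s q → ℕ) (ok r) (ok_loc r)
        (fun v => if v = cen then Fintype.card A else D) (fun v f => (ok_card h v f).1)
      rw [prod_cen] at this
      convert this
    · have : Fintype.card A = 0 := by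
        rw [Fintype.card_eq_zero_iff]
        exact ⟨fun a => hA ⟨Sum.inl a⟩⟩
      rw [this, Nat.zero_mul]; exact Nat.zero_le _
  · have := seq_le (W := A ⊕ B) (lev : Pos s q → ℕ) (ok r) (ok_loc r)
      (fun v => if v = cen then Fintype.card A else K * D) (fun v f => (ok_card h v f).2)
    rw [prod_cen] at this
    convert this

/-- homs with a coincidence -/
theorem coin {A B : Type} [Fintype A] [Fintype B] {s q : ℕ} {r : A → B → Prop} {D K : ℕ}
    (h : Reg r D K) (v1 v2 : Pos s q) (hne : v1 ≠ v2) (hl : lev v1 ≤ lev v2) :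
    (univ.filter (fun z : Cop A B s q => Hm r z ∧ asg z v1 = asg z v2)).card ≤
      Fintype.card A * (K * D) ^ (2 * hh s q - 1) := by
  have hc : v2 ≠ cen := by
    intro h2
    have h0 : lev v2 = 0 := by rw [h2]; rfl
    have h1 : v1 = cen := by
      by_contra h1
      have := lev_pos v1 h1
      omega
    exact hne (by rw [h1, h2])
  have h1 : (univ.filter (fun z : Cop A B s q => Hm r z ∧ asg z v1 = asg z v2)).card ≤
      (univ.filter (fun f : Pos s q → A ⊕ B => ∀ v, ok r v f ∧ (v = v2 → f v1 = f v2))).card := by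
    apply card_le_card_of_injOn asg
    · intro z hz
      rw [mem_coe, mem_filter] at hz
      rw [mem_coe, mem_filter]
      exact ⟨mem_univ _, fun v => ⟨ok_asg r z hz.2.1 v, fun _ => hz.2.2⟩⟩
    · intro z _ z' _ hzz; exact asg_inj hzz
  refine h1.trans ?_
  have hloc : ∀ (v : Pos s q) (f g : Pos s q → A ⊕ B), f v = g v →
      (∀ u, (2 * lev u + if u = v2 then 1 else 0) < (2 * lev v + if v = v2 then 1 else 0) →
        f u = g u) → (ok r v f ∧ (v = v2 → f v1 = f v2)) →
      (ok r v g ∧ (v = v2 → g v1 = g v2)) := by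
    intro v f g hfg hu ⟨h3, h4⟩
    refine ⟨ok_loc r v f g hfg (fun u hu' => hu u ?_) h3, fun hv => ?_⟩
    · have : (if u = v2 then 1 else 0) ≤ 1 := by split_ifs <;> omega
      have h5 : (0 : ℕ) ≤ (if v = v2 then 1 else 0) := Nat.zero_le _
      omega
    · subst hv
      rw [← hfg, ← hu v1 ?_]
      · exact h4 rfl
      · simp only [if_true, if_neg hne]; omega
  have hcard : ∀ (v : Pos s q) (f : Pos s q → A ⊕ B),
      (univ.filter (fun w => ok r v (Function.update f v w) ∧
        (v = v2 → Function.update f v w v1 = Function.update f v w v2))).card ≤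
      (if v = cen then Fintype.card A else if v = v2 then 1 else K * D) := by
    intro v f
    by_cases hv : v = cen
    · rw [if_pos hv]
      have h5 := (ok_card h v f).2
      rw [if_pos hv] at h5
      refine (card_le_card ?_).trans h5
      intro w hw
      simp only [mem_filter, mem_univ, true_and] at hw ⊢
      exact hw.1
    · rw [if_neg hv]
      by_cases hv2 : v = v2
      · rw [if_pos hv2]
        rw [card_le_one]
        intro w hw w' hw'
        subst hv2
        simp only [mem_filter, mem_univ, true_and, forall_const, Function.update_self] at hw hw'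
        rw [Function.update_of_ne hne] at hw hw'
        rw [← hw.2, ← hw'.2]
      · rw [if_neg hv2]
        have h5 := (ok_card h v f).2
        rw [if_neg hv] at h5
        refine (card_le_card ?_).trans h5
        intro w hw
        simp only [mem_filter, mem_univ, true_and] at hw ⊢
        exact hw.1
  have hprod : ∏ v : Pos s q, (if v = cen then Fintype.card A else if v = v2 then 1 else K * D) =
      Fintype.card A * (K * D) ^ (2 * hh s q - 1) := by
    rw [← mul_prod_erase univ _ (mem_univ (cen : Pos s q))]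
    simp only [if_true]
    congr 1
    have hm2 : v2 ∈ univ.erase (cen : Pos s q) := mem_erase.mpr ⟨hc, mem_univ _⟩
    rw [← mul_prod_erase _ _ hm2]
    simp only [if_neg hc, if_true, one_mul]
    have : ∀ v ∈ (univ.erase (cen : Pos s q)).erase v2,
        (if v = cen then Fintype.card A else if v = v2 then 1 else K * D) = K * D := by
      intro v hv
      rw [if_neg (ne_of_mem_erase (mem_of_mem_erase hv)), if_neg (ne_of_mem_erase hv)]
    rw [prod_congr rfl this, prod_const, card_erase_of_mem hm2, card_erase_of_mem (mem_univ _),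
      card_univ, card_pos']
    rfl
  have h2 := seq_le (W := A ⊕ B) (fun v : Pos s q => 2 * lev v + if v = v2 then 1 else 0)
    (fun v f => ok r v f ∧ (v = v2 → f v1 = f v2)) hloc
    (fun v => if v = cen then Fintype.card A else if v = v2 then 1 else K * D)
    (by intro v f; convert hcard v f)
  rw [hprod] at h2
  refine le_trans (le_of_eq ?_) h2
  congr!

theorem inj_of_asg {A B : Type} {s q : ℕ} (z : Cop A B s q) (h : Function.Injective (asg z)) :
    Inj z := by
  refine ⟨?_, ?_, ?_, ?_⟩
  · intro x y hxy
    exact Sum.inl.inj (@h (Sum.inl x) (Sum.inl y) (by simp [asg, hxy]))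
  · intro x y hxy
    have := @h (Sum.inr (Sum.inl x)) (Sum.inr (Sum.inl y)) (by
      simp only [asg]; exact congrArg Sum.inl hxy)
    exact Sum.inl.inj (Sum.inr.inj this)
  · intro x x' l hxl
    have := @h (Sum.inl x) (Sum.inr (Sum.inl (x', l))) (by simp [asg, hxl])
    exact absurd this (by simp)
  · intro x y hxy
    have := @h (Sum.inr (Sum.inr x)) (Sum.inr (Sum.inr y)) (by
      rcases x with x | x <;> rcases y with y | y <;> simpa [asg] using hxy)
    exact Sum.inr.inj (Sum.inr.inj this)

theorem t_CO : S_CO := by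
  intro s q K hK
  refine ⟨((2 * hh s q + 1) ^ 2 : ℕ) * (K : ℝ) ^ (2 * hh s q - 1), ?_⟩
  intro A B _ _ r D h
  obtain ⟨P, hP⟩ : ∃ P : Finset (Pos s q × Pos s q), ∀ p, p ∈ P ↔
      p.1 ≠ p.2 ∧ lev p.1 ≤ lev p.2 := ⟨univ.filter (fun p => p.1 ≠ p.2 ∧ lev p.1 ≤ lev p.2),
        fun p => by simp⟩
  have hsub : (univ.filter (fun z : Cop A B s q => Hm r z ∧ ¬ Inj z)) ⊆
      P.biUnion
        (fun p => univ.filter (fun z : Cop A B s q => Hm r z ∧ asg z p.1 = asg z p.2)) := by
    intro z hz
    simp only [mem_filter, mem_univ, true_and, mem_biUnion, Prod.exists, hP] at hz ⊢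
    have hni : ¬ Function.Injective (asg z) := fun hi => hz.2 (inj_of_asg z hi)
    rw [Function.Injective] at hni
    push Not at hni
    obtain ⟨v1, v2, he, hne⟩ := hni
    rcases le_total (lev v1) (lev v2) with hl | hl
    · exact ⟨v1, v2, ⟨hne, hl⟩, hz.1, he⟩
    · exact ⟨v2, v1, ⟨hne.symm, hl⟩, hz.1, he.symm⟩
  have h1 := (card_le_card hsub).trans card_biUnion_le
  have h2 : ∑ p ∈ P,
        (univ.filter (fun z : Cop A B s q => Hm r z ∧ asg z p.1 = asg z p.2)).card ≤
      P.card * (Fintype.card A * (K * D) ^ (2 * hh s q - 1)) := by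
    rw [← smul_eq_mul, ← sum_const]
    apply sum_le_sum
    intro p hp
    rw [hP] at hp
    exact coin h p.1 p.2 hp.1 hp.2
  by_cases h0 : hh s q = 0
  · -- only one position
    have he : P = ∅ := by
      rw [eq_empty_iff_forall_notMem]
      rintro ⟨a, b⟩ hab
      rw [hP] at hab
      have hc : Fintype.card (Pos s q) ≤ 1 := by rw [card_pos', h0]
      exact hab.1 (Fintype.card_le_one_iff.mp hc a b)
    rw [he, card_empty, Nat.zero_mul] at h2
    rw [he] at h1
    have h3 : (univ.filter (fun z : Cop A B s q => Hm r z ∧ ¬ Inj z)).card = 0 :=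
      Nat.le_zero.mp (h1.trans h2)
    rw [h3]
    simp only [Nat.cast_zero, zero_mul]
    positivity
  · have h3 : P.card ≤ (2 * hh s q + 1) ^ 2 := by
      refine (card_le_univ _).trans (le_of_eq ?_)
      rw [Fintype.card_prod, card_pos']; ring
    have h4 : (univ.filter (fun z : Cop A B s q => Hm r z ∧ ¬ Inj z)).card * D ≤
        (2 * hh s q + 1) ^ 2 * K ^ (2 * hh s q - 1) * Fintype.card A * D ^ (2 * hh s q) := by
      calc (univ.filter (fun z : Cop A B s q => Hm r z ∧ ¬ Inj z)).card * D
          ≤ ((2 * hh s q + 1) ^ 2 * (Fintype.card A * (K * D) ^ (2 * hh s q - 1))) * D :=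
            Nat.mul_le_mul_right _ ((h1.trans h2).trans (Nat.mul_le_mul_right _ h3))
        _ = (2 * hh s q + 1) ^ 2 * K ^ (2 * hh s q - 1) * Fintype.card A *
              (D ^ (2 * hh s q - 1) * D) := by rw [mul_pow]; ring
        _ = _ := by
            rw [← pow_succ]
            congr 2
            omega
    have h5 : (((univ.filter (fun z : Cop A B s q => Hm r z ∧ ¬ Inj z)).card * D : ℕ) : ℝ) ≤
        (((2 * hh s q + 1) ^ 2 * K ^ (2 * hh s q - 1) * Fintype.card A * D ^ (2 * hh s q) : ℕ) : ℝ) :=
      by exact_mod_cast h4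
    push_cast at h5 ⊢
    exact h5

end Pool.Agent.W616.TE3
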