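import Pool.Agent.W217.BE.Stm

/-!
Project BE: descent of the lower bounds from the localisation at a prime.
-/

set_option autoImplicit false

namespace Pool.Agent.W616.BEDESC

open Pool.Agent.W217.BE

section

variable {A : Type} [CommRing A] (p : Ideal A) [p.IsPrime]

/-- the localised map -/
noncomputable def lm {M N : Type} [AddCommGroup M] [Module A M] [AddCommGroup N] [Module A N]
    (g : M →ₗ[A] N) :
    LocalizedModule p.primeCompl M →ₗ[Localization.AtPrime p] LocalizedModule p.primeCompl N :=
  LinearMap.extendScalarsOfIsLocalization p.primeCompl (Localization.AtPrime p)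
    (IsLocalizedModule.map p.primeCompl (LocalizedModule.mkLinearMap p.primeCompl M)
      (LocalizedModule.mkLinearMap p.primeCompl N) g)

lemma lm_mk {M N : Type} [AddCommGroup M] [Module A M] [AddCommGroup N] [Module A N]
    (g : M →ₗ[A] N) (x : M) (s : p.primeCompl) :
    lm p g (LocalizedModule.mk x s) = LocalizedModule.mk (g x) s :=
  IsLocalizedModule.map_LocalizedModules p.primeCompl g x s

lemma lm_exact {M N K : Type} [AddCommGroup M] [Module A M] [AddCommGroup N] [Module A N]
    [AddCommGroup K] [Module A K] (g : M →ₗ[A] N) (h : N →ₗ[A] K)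
    (e : LinearMap.range g = LinearMap.ker h) : LinearMap.range (lm p g) = LinearMap.ker (lm p h) := by
  have h1 : Function.Exact g h := by
    rw [LinearMap.exact_iff]
    exact e.symm
  have h2 := LocalizedModule.map_exact p.primeCompl g h h1
  ext y
  constructor
  · rintro ⟨x, rfl⟩
    exact (h2 _).2 ⟨x, rfl⟩
  · intro hy
    obtain ⟨x, hx⟩ := (h2 y).1 hy
    exact ⟨x, hx⟩

lemma lm_surj {M N : Type} [AddCommGroup M] [Module A M] [AddCommGroup N] [Module A N]
    (g : M →ₗ[A] N) (e : Function.Surjective g) : Function.Surjective (lm p g) := by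
  intro y
  induction y using LocalizedModule.induction_on with
  | _ m s =>
    obtain ⟨x, rfl⟩ := e m
    exact ⟨LocalizedModule.mk x s, lm_mk p g x s⟩

lemma chi_ne (s : p.primeCompl) : chi p (s : A) ≠ 0 := by
  have h : IsUnit (algebraMap A (Localization.AtPrime p) s) :=
    IsLocalization.map_units (Localization.AtPrime p) s
  exact (h.map (IsLocalRing.residue (Localization.AtPrime p))).ne_zero

/-- extension of a functional to the localised module -/
lemma ext_fun {M : Type} [AddCommGroup M] [Module A M]
    (L : M →+ IsLocalRing.ResidueField (Localization.AtPrime p)) (hL : IsF (chi p) L) :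
    ∃ L' : LocalizedModule p.primeCompl M →+ IsLocalRing.ResidueField (Localization.AtPrime p),
      IsF (IsLocalRing.residue (Localization.AtPrime p)) L' ∧
      ∀ x, L' (LocalizedModule.mk x 1) = L x := by
  let Ll : M →ₗ[A] IsLocalRing.ResidueField (Localization.AtPrime p) :=
    { toFun := L
      map_add' := L.map_add
      map_smul' := by
        intro s x
        rw [hL s x, RingHom.id_apply, Algebra.smul_def]
        rfl }
  have hu : ∀ x : p.primeCompl, IsUnit (algebraMap A
      (Module.End A (IsLocalRing.ResidueField (Localization.AtPrime p))) x) := by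
    intro x
    rw [Module.End.isUnit_iff]
    have hx : algebraMap A (IsLocalRing.ResidueField (Localization.AtPrime p)) x ≠ 0 :=
      chi_ne p x
    constructor
    · intro a b hab
      rw [Module.algebraMap_end_apply, Module.algebraMap_end_apply, Algebra.smul_def,
        Algebra.smul_def] at hab
      exact mul_left_cancel₀ hx hab
    · intro a
      refine ⟨(algebraMap A (IsLocalRing.ResidueField (Localization.AtPrime p)) x)⁻¹ * a, ?_⟩
      rw [Module.algebraMap_end_apply, Algebra.smul_def, ← mul_assoc, mul_inv_cancel₀ hx, one_mul]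
  let L1 : LocalizedModule p.primeCompl M →ₗ[A]
      IsLocalRing.ResidueField (Localization.AtPrime p) :=
    LocalizedModule.lift p.primeCompl Ll hu
  let L2 : LocalizedModule p.primeCompl M →ₗ[Localization.AtPrime p]
      IsLocalRing.ResidueField (Localization.AtPrime p) :=
    LinearMap.extendScalarsOfIsLocalization p.primeCompl (Localization.AtPrime p) L1
  refine ⟨L2.toAddMonoidHom, ?_, ?_⟩
  · intro s x
    have h := L2.map_smul s x
    rw [Algebra.smul_def] at h
    exact h
  · intro x
    exact LocalizedModule.lift_mk_one p.primeCompl Ll hu x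

end

theorem main : DESC := by
  intro A _ p _ N _ _ b hb P _ _ _ d ε hres i
  have hres' : IsRes (P := fun i => LocalizedModule p.primeCompl (P i))
      (fun i => lm p (d i)) (lm p ε) :=
    ⟨lm_surj p ε hres.1, lm_exact p _ _ hres.2.1, fun i => lm_exact p _ _ (hres.2.2 i)⟩
  obtain ⟨z, l, hz, hl, hld, hlz⟩ := hb (fun i => LocalizedModule p.primeCompl (P i))
    (fun i => lm p (d i)) (lm p ε) hres' i
  have hrep : ∀ j, ∃ (y : P i) (s : p.primeCompl), z j = LocalizedModule.mk y s := by
    intro j
    induction z j using LocalizedModule.induction_on with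
    | _ m s => exact ⟨m, s, rfl⟩
  choose y s hys using hrep
  have hmk : ∀ j, LocalizedModule.mk (y j) 1 =
      (algebraMap A (Localization.AtPrime p) (s j)) • z j := by
    intro j
    rw [hys j, algebraMap_smul, LocalizedModule.smul'_mk]
    exact (LocalizedModule.mk_cancel (s j) (y j)).symm
  -- the new functionals
  let l' : Fin (b i) → P i →+ IsLocalRing.ResidueField (Localization.AtPrime p) := fun j =>
    (AddMonoidHom.mulLeft (chi p (s j))⁻¹).comp
      ((l j).comp (LocalizedModule.mkLinearMap p.primeCompl (P i)).toAddMonoidHom)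
  have hl'v : ∀ j x, l' j x = (chi p (s j))⁻¹ * l j (LocalizedModule.mk x 1) := fun j x => rfl
  refine ⟨y, l', ?_, ?_, ?_, ?_⟩
  · intro j
    cases i with
    | zero => trivial
    | succ k =>
      intro L hL
      obtain ⟨L', hL', hLv⟩ := ext_fun p L hL
      have h0 : L' (lm p (d k) (z j)) = 0 := hz j L' hL'
      rw [← hLv, ← lm_mk, hmk j, map_smul, hL', h0, mul_zero]
  · intro j t x
    rw [hl'v, hl'v]
    have h1 : (LocalizedModule.mk (t • x) 1 : LocalizedModule p.primeCompl (P i)) =
        (algebraMap A (Localization.AtPrime p) t) • LocalizedModule.mk x 1 := by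
      rw [algebraMap_smul, LocalizedModule.smul'_mk]
    rw [h1, hl j]
    show _ = (IsLocalRing.residue (Localization.AtPrime p)
      (algebraMap A (Localization.AtPrime p) t)) * _
    ring
  · intro j x
    rw [hl'v, ← lm_mk]
    have := hld j (LocalizedModule.mk x 1)
    rw [this, mul_zero]
  · intro j k
    rw [hl'v, hmk k, hl j, hlz j k]
    by_cases hjk : j = k
    · subst hjk
      rw [if_pos rfl, mul_one]
      exact inv_mul_cancel₀ (chi_ne p (s j))
    · rw [if_neg hjk, mul_zero, mul_zero]

end Pool.Agent.W616.BEDESC
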