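import Pool.Agent.W792.GK.Stm

/-!
GK-LIP: the resolvent on `ℓ²(ℤ^ι)` is Lipschitz in the symbol, with bounds.
-/

namespace Pool.Agent.W616.GKLip

open Pool.Agent.W792.GK MeasureTheory

noncomputable section

section hopsub

local instance i1 : MeasureSpace UnitAddCircle := ⟨AddCircle.haarAddCircle⟩

local instance i2 : IsProbabilityMeasure (volume : Measure UnitAddCircle) :=
  inferInstanceAs (IsProbabilityMeasure AddCircle.haarAddCircle)

local instance i3 {ι : Type} [Fintype ι] :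
    IsProbabilityMeasure (volume : Measure (UnitAddTorus ι)) :=
  inferInstanceAs (IsProbabilityMeasure (Measure.pi fun _ : ι => (volume : Measure UnitAddCircle)))

theorem hop_sub {ι : Type} [Fintype ι] (K K' : C(UnitAddTorus ι, ℝ)) (x : ι → ℤ) :
    hop (K - K') x = hop K x - hop K' x := by
  unfold hop UnitAddTorus.mFourierCoeff
  rw [← integral_sub]
  · congr 1
    ext t
    simp [mul_sub]
  · apply Continuous.integrable_of_hasCompactSupport
    · fun_prop
    · exact HasCompactSupport.of_compactSpace _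
  · apply Continuous.integrable_of_hasCompactSupport
    · fun_prop
    · exact HasCompactSupport.of_compactSpace _

end hopsub

theorem tsum_single {ι : Type} [Fintype ι] [DecidableEq ι] (K : C(UnitAddTorus ι, ℝ))
    (T : l2 (ι → ℤ) →L[ℂ] l2 (ι → ℤ)) (hT : IsHop K T) (y : ι → ℤ) (c : ℂ) (x : ι → ℤ) :
    T (lp.single 2 y c) x = hop K (x - y) * c := by
  rw [hT.2.2, tsum_eq_single y]
  · simp
  · intro b hb
    simp [lp.single_apply, hb]

theorem ext_single {ι : Type} [Fintype ι] [DecidableEq ι]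
    (S T : l2 (ι → ℤ) →L[ℂ] l2 (ι → ℤ))
    (h : ∀ y c, S (lp.single 2 y c) = T (lp.single 2 y c)) : S = T := by
  ext1 f
  have hs := lp.hasSum_single (p := 2) (by norm_num) f
  have h1 := hs.mapL S
  have h2 := hs.mapL T
  have h3 : (fun i => S (lp.single 2 i (f i))) = fun i => T (lp.single 2 i (f i)) := by
    ext1 i
    exact h i (f i)
  rw [h3] at h1
  exact h1.unique h2

theorem hopOp_spec (h1 : S_T1) {ι : Type} [Fintype ι] (K : C(UnitAddTorus ι, ℝ)) :
    IsHop K (hopOp K) := by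
  unfold hopOp
  rw [dif_pos (h1 ι K)]
  exact Classical.choose_spec (h1 ι K)

theorem mulOp_spec (h2 : S_T2) {Γ : Type} (R : ℝ) (hR : 0 < R) (v : Γ → ℝ) :
    IsMul R v (mulOp R v) := by
  unfold mulOp
  rw [dif_pos (h2 Γ R hR v)]
  exact Classical.choose_spec (h2 Γ R hR v)

theorem hopOp_sub (h1 : S_T1) {ι : Type} [Fintype ι] [DecidableEq ι]
    (K K' : C(UnitAddTorus ι, ℝ)) : ‖hopOp K - hopOp K'‖ ≤ ‖K - K'‖ := by
  have hK := hopOp_spec h1 K
  have hK' := hopOp_spec h1 K'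
  have hD := hopOp_spec h1 (K - K')
  have : hopOp K - hopOp K' = hopOp (K - K') := by
    apply ext_single
    intro y c
    ext x
    rw [tsum_single _ _ hD, hop_sub]
    simp only [ContinuousLinearMap.sub_apply, lp.coeFn_sub, Pi.sub_apply]
    rw [tsum_single _ _ hK, tsum_single _ _ hK']
    ring
  rw [this]
  exact hD.2.1

section abstract

variable {H : Type*} [NormedAddCommGroup H] [InnerProductSpace ℂ H] [CompleteSpace H]

theorem isUnit_sub (A : H →L[ℂ] H) (hA : IsSelfAdjoint A) (z : ℂ) (hz : 0 < z.im) :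
    IsUnit (A - z • (1 : H →L[ℂ] H)) := by
  have h1 : z ∉ spectrum ℂ A := by
    intro h
    have := hA.im_eq_zero_of_mem_spectrum h
    linarith
  rw [spectrum.notMem_iff] at h1
  have : A - z • (1 : H →L[ℂ] H) = -(algebraMap ℂ (H →L[ℂ] H) z - A) := by
    rw [Algebra.algebraMap_eq_smul_one]; abel
  rw [this]
  exact h1.neg

theorem im_inner (A : H →L[ℂ] H) (hA : IsSelfAdjoint A) (z : ℂ) (w : H) :
    (inner ℂ ((A - z • (1 : H →L[ℂ] H)) w) w).im = z.im * ‖w‖ ^ 2 := by
  have h1 : (inner ℂ (A w) w).im = 0 := by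
    have hs : (inner ℂ (A w) w : ℂ) = inner ℂ w (A w) := by
      have := (ContinuousLinearMap.isSelfAdjoint_iff_isSymmetric.1 hA) w w
      simpa using this
    have h2 : (starRingEnd ℂ) (inner ℂ w (A w)) = inner ℂ (A w) w := inner_conj_symm _ _
    rw [← hs] at h2
    exact Complex.conj_eq_iff_im.1 h2
  have h3 : (inner ℂ ((A - z • (1 : H →L[ℂ] H)) w) w : ℂ)
      = inner ℂ (A w) w - (starRingEnd ℂ) z * inner ℂ w w := by
    rw [ContinuousLinearMap.sub_apply, inner_sub_left, ContinuousLinearMap.smul_apply,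
      ContinuousLinearMap.one_apply, inner_smul_left]
  have h4 : (inner ℂ w w : ℂ) = ((‖w‖ ^ 2 : ℝ) : ℂ) := by
    rw [inner_self_eq_norm_sq_to_K]; norm_cast
  rw [h3, Complex.sub_im, h1, h4]
  simp only [Complex.mul_im, Complex.conj_re, Complex.conj_im, Complex.ofReal_re,
    Complex.ofReal_im]
  ring

theorem norm_inv_apply (A : H →L[ℂ] H) (hA : IsSelfAdjoint A) (z : ℂ) (hz : 0 < z.im) (u : H) :
    (A - z • (1 : H →L[ℂ] H)) (Ring.inverse (A - z • (1 : H →L[ℂ] H)) u) = u := by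
  have := Ring.mul_inverse_cancel _ (isUnit_sub A hA z hz)
  have h2 := congrArg (fun T : H →L[ℂ] H => T u) this
  simpa using h2

theorem norm_inv_le (A : H →L[ℂ] H) (hA : IsSelfAdjoint A) (z : ℂ) (hz : 0 < z.im) :
    ‖Ring.inverse (A - z • (1 : H →L[ℂ] H))‖ ≤ 1 / z.im := by
  apply ContinuousLinearMap.opNorm_le_bound _ (by positivity)
  intro u
  set w := Ring.inverse (A - z • (1 : H →L[ℂ] H)) u with hw
  have h1 : (A - z • (1 : H →L[ℂ] H)) w = u := norm_inv_apply A hA z hz u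
  have h2 := im_inner A hA z w
  rw [h1] at h2
  have h3 : z.im * ‖w‖ ^ 2 ≤ ‖u‖ * ‖w‖ := by
    rw [← h2]
    calc (inner ℂ u w).im ≤ |(inner ℂ u w).im| := le_abs_self _
      _ ≤ ‖(inner ℂ u w : ℂ)‖ := Complex.abs_im_le_norm _
      _ ≤ ‖u‖ * ‖w‖ := norm_inner_le_norm _ _
  rcases (norm_nonneg w).eq_or_lt with h0 | h0
  · rw [← h0]; positivity
  · rw [div_mul_eq_mul_div, one_mul, le_div_iff₀ hz]
    have : (‖w‖ * z.im) * ‖w‖ ≤ ‖u‖ * ‖w‖ := by nlinarith
    exact le_of_mul_le_mul_right this h0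

theorem im_nonneg (A : H →L[ℂ] H) (hA : IsSelfAdjoint A) (z : ℂ) (hz : 0 < z.im) (u : H) :
    0 ≤ (inner ℂ u (Ring.inverse (A - z • (1 : H →L[ℂ] H)) u)).im := by
  have h2 := im_inner A hA z (Ring.inverse (A - z • (1 : H →L[ℂ] H)) u)
  rw [norm_inv_apply A hA z hz u] at h2
  rw [h2]
  positivity

theorem resolvent_diff (A B : H →L[ℂ] H) (hA : IsSelfAdjoint A) (hB : IsSelfAdjoint B)
    (z : ℂ) (hz : 0 < z.im) :
    ‖Ring.inverse (A - z • (1 : H →L[ℂ] H)) - Ring.inverse (B - z • (1 : H →L[ℂ] H))‖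
      ≤ ‖A - B‖ / z.im ^ 2 := by
  set G := Ring.inverse (A - z • (1 : H →L[ℂ] H)) with hG
  set G' := Ring.inverse (B - z • (1 : H →L[ℂ] H)) with hG'
  have e1 : G * (A - z • (1 : H →L[ℂ] H)) = 1 :=
    Ring.inverse_mul_cancel _ (isUnit_sub A hA z hz)
  have e2 : (B - z • (1 : H →L[ℂ] H)) * G' = 1 :=
    Ring.mul_inverse_cancel _ (isUnit_sub B hB z hz)
  have e3 : G - G' = G * (B - A) * G' := by
    have : B - A = (B - z • (1 : H →L[ℂ] H)) - (A - z • (1 : H →L[ℂ] H)) := by abel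
    rw [this, mul_sub, sub_mul, mul_assoc, e2, e1, mul_one, one_mul]
  rw [e3]
  calc ‖G * (B - A) * G'‖ ≤ ‖G * (B - A)‖ * ‖G'‖ := norm_mul_le _ _
    _ ≤ (‖G‖ * ‖B - A‖) * ‖G'‖ := by gcongr; exact norm_mul_le _ _
    _ ≤ ((1 / z.im) * ‖B - A‖) * (1 / z.im) := by
        gcongr
        · exact norm_inv_le A hA z hz
        · exact norm_inv_le B hB z hz
    _ = ‖A - B‖ / z.im ^ 2 := by
        rw [norm_sub_rev]
        field_simp

end abstract

theorem coord_zero {ι : Type} [Fintype ι] [DecidableEq ι] (u : l2 (ι → ℤ)) :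
    u 0 = inner ℂ (lp.single 2 (0 : ι → ℤ) (1 : ℂ)) u := by
  rw [lp.inner_single_left]
  simp

theorem main : S_T1 → S_T2 → S_LIP := by
  intro h1 h2 ι _ _ K K' R hR v z hz
  have hK := hopOp_spec h1 K
  have hK' := hopOp_spec h1 K'
  have hM := mulOp_spec h2 R hR v
  have sA : IsSelfAdjoint (hopOp K + mulOp R v) := hK.1.add hM.1
  have sB : IsSelfAdjoint (hopOp K' + mulOp R v) := hK'.1.add hM.1
  have hn : ‖lp.single (E := fun _ : (ι → ℤ) => ℂ) 2 (0 : ι → ℤ) (1 : ℂ)‖ = 1 := by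
    rw [lp.norm_single (by norm_num)]; simp
  refine ⟨?_, ?_, ?_⟩
  · unfold Jm
    rw [← Complex.sub_im, coord_zero, coord_zero, ← inner_sub_right,
      ← ContinuousLinearMap.sub_apply]
    refine (Complex.abs_im_le_norm _).trans ((norm_inner_le_norm _ _).trans ?_)
    rw [hn, one_mul]
    refine (ContinuousLinearMap.le_opNorm _ _).trans ?_
    rw [hn, mul_one]
    refine (resolvent_diff _ _ sA sB z hz).trans ?_
    gcongr
    have : hopOp K + mulOp R v - (hopOp K' + mulOp R v) = hopOp K - hopOp K' := by abel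
    rw [this]
    exact hopOp_sub h1 K K'
  · unfold Jm
    rw [coord_zero]
    exact im_nonneg _ sA z hz _
  · unfold Jm
    rw [coord_zero]
    refine (le_abs_self _).trans ((Complex.abs_im_le_norm _).trans
      ((norm_inner_le_norm _ _).trans ?_))
    rw [hn, one_mul]
    refine (ContinuousLinearMap.le_opNorm _ _).trans ?_
    rw [hn, mul_one]
    exact norm_inv_le _ sA z hz

end

end Pool.Agent.W616.GKLip
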