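import Pool.Agent.W616.QForm

/-!
# Partial traces, and the invariance of the quantum trace
-/

set_option autoImplicit false
set_option linter.unusedSectionVars false

open scoped Kronecker

namespace Pool.Agent.W616

section ptr

variable {k W ι : Type} [Field k] [Fintype W] [DecidableEq W] [Fintype ι] [DecidableEq ι]

/-- partial trace over the first factor -/
def ptr (M : Matrix (W × ι) (W × ι) k) : Matrix ι ι k := fun b' b => ∑ a, M (a, b') (a, b)

theorem ptr_add (M N : Matrix (W × ι) (W × ι) k) : ptr (M + N) = ptr M + ptr N := by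
  ext b' b
  simp [ptr, Finset.sum_add_distrib]

theorem ptr_cyc (X : Matrix W W k) (M : Matrix (W × ι) (W × ι) k) :
    ptr ((X ⊗ₖ (1 : Matrix ι ι k)) * M) = ptr (M * (X ⊗ₖ (1 : Matrix ι ι k))) := by
  ext b' b
  simp only [ptr, Matrix.mul_apply, Fintype.sum_prod_type, Matrix.kroneckerMap_apply,
    Matrix.one_apply, mul_ite, mul_one, mul_zero, ite_mul, zero_mul, Finset.sum_ite_eq,
    Finset.sum_ite_eq', Finset.mem_univ, if_true]
  rw [Finset.sum_comm]
  refine Finset.sum_congr rfl fun a _ => Finset.sum_congr rfl fun a' _ => ?_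
  ring

theorem one_kron_mul_apply (Y : Matrix ι ι k) (M : Matrix (W × ι) (W × ι) k) (a : W) (b' : ι)
    (q : W × ι) : (((1 : Matrix W W k) ⊗ₖ Y) * M) (a, b') q = ∑ y, Y b' y * M (a, y) q := by
  rw [Matrix.mul_apply, Fintype.sum_prod_type, Finset.sum_eq_single a]
  · simp [Matrix.kroneckerMap_apply]
  · intro x _ hx
    refine Finset.sum_eq_zero fun y _ => ?_
    simp [Matrix.kroneckerMap_apply, Ne.symm hx]
  · intro h
    exact absurd (Finset.mem_univ a) h

theorem mul_one_kron_apply (Y : Matrix ι ι k) (M : Matrix (W × ι) (W × ι) k) (a : W) (b : ι)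
    (q : W × ι) : (M * ((1 : Matrix W W k) ⊗ₖ Y)) q (a, b) = ∑ y, M q (a, y) * Y y b := by
  rw [Matrix.mul_apply, Fintype.sum_prod_type, Finset.sum_eq_single a]
  · simp [Matrix.kroneckerMap_apply]
  · intro x _ hx
    refine Finset.sum_eq_zero fun y _ => ?_
    simp [Matrix.kroneckerMap_apply, hx]
  · intro h
    exact absurd (Finset.mem_univ a) h

theorem ptr_left (Y : Matrix ι ι k) (M : Matrix (W × ι) (W × ι) k) :
    ptr (((1 : Matrix W W k) ⊗ₖ Y) * M) = Y * ptr M := by
  ext b' b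
  simp only [ptr, one_kron_mul_apply]
  rw [Finset.sum_comm, Matrix.mul_apply]
  simp only [ptr, Finset.mul_sum]

theorem ptr_right (Y : Matrix ι ι k) (M : Matrix (W × ι) (W × ι) k) :
    ptr (M * ((1 : Matrix W W k) ⊗ₖ Y)) = ptr M * Y := by
  ext b' b
  simp only [ptr, mul_one_kron_apply]
  rw [Finset.sum_comm, Matrix.mul_apply]
  simp only [ptr, Finset.sum_mul]

/-- The partial quantum trace of a linear map is linear. -/
theorem ptr_comm (T : Matrix (W × ι) (W × ι) k) (D Kw Kw' Ew : Matrix W W k) (E : Matrix ι ι k)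
    (h1 : Kw' * Kw = 1) (h2 : Kw * D = D * Kw) (h3 : Kw * Kw' = 1)
    (h4 : (D * Kw') * Ew = Ew * (D * Kw'))
    (h : T * (Ew ⊗ₖ 1 + Kw ⊗ₖ E) = (Ew ⊗ₖ 1 + Kw ⊗ₖ E) * T) :
    ptr ((D ⊗ₖ 1) * T) * E = E * ptr ((D ⊗ₖ 1) * T) := by
  have key := congrArg (fun M => ptr (((D * Kw') ⊗ₖ (1 : Matrix ι ι k)) * M)) h
  simp only [mul_add, add_mul, ptr_add] at key
  have hK1 : Kw ⊗ₖ E = ((1 : Matrix W W k) ⊗ₖ E) * (Kw ⊗ₖ (1 : Matrix ι ι k)) := by
    rw [← Matrix.mul_kronecker_mul, one_mul, mul_one]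
  have hK2 : Kw ⊗ₖ E = (Kw ⊗ₖ (1 : Matrix ι ι k)) * ((1 : Matrix W W k) ⊗ₖ E) := by
    rw [← Matrix.mul_kronecker_mul, one_mul, mul_one]
  have hD : (Kw * (D * Kw')) = D := by rw [← mul_assoc, h2, mul_assoc, h3, mul_one]
  have hD' : ((D * Kw') * Kw) = D := by rw [mul_assoc, h1, mul_one]
  have A1 : ptr (((D * Kw') ⊗ₖ (1 : Matrix ι ι k)) * (T * (Ew ⊗ₖ 1))) =
      ptr ((((D * Kw') * Ew) ⊗ₖ (1 : Matrix ι ι k)) * T) := by
    rw [← mul_assoc, ← ptr_cyc, ← mul_assoc, ← Matrix.mul_kronecker_mul, mul_one, h4]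
  have A3 : ptr (((D * Kw') ⊗ₖ (1 : Matrix ι ι k)) * ((Ew ⊗ₖ 1) * T)) =
      ptr ((((D * Kw') * Ew) ⊗ₖ (1 : Matrix ι ι k)) * T) := by
    rw [← mul_assoc, ← Matrix.mul_kronecker_mul, mul_one]
  have A2 : ptr (((D * Kw') ⊗ₖ (1 : Matrix ι ι k)) * (T * (Kw ⊗ₖ E))) =
      ptr ((D ⊗ₖ 1) * T) * E := by
    rw [hK1, ← mul_assoc, ← mul_assoc, ← ptr_cyc, ← mul_assoc, ← mul_assoc,
      ← Matrix.mul_kronecker_mul, mul_one, hD, ptr_right]
  have A4 : ptr (((D * Kw') ⊗ₖ (1 : Matrix ι ι k)) * ((Kw ⊗ₖ E) * T)) =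
      E * ptr ((D ⊗ₖ 1) * T) := by
    rw [← ptr_left, ← mul_assoc, ← mul_assoc, ← Matrix.mul_kronecker_mul,
      ← Matrix.mul_kronecker_mul, hD', one_mul, one_mul, mul_one]
  rw [A1, A2, A3, A4] at key
  exact add_left_cancel key

end ptr

section reindex

variable {k ι : Type} [Field k] [Fintype ι] [DecidableEq ι]

/-- triples, bracketed to the left -/
def eL : (ι × ι) × ι ≃ (Fin 3 → ι) where
  toFun p := ![p.1.1, p.1.2, p.2]
  invFun x := ((x 0, x 1), x 2)
  left_inv := by rintro ⟨⟨a, b⟩, c⟩; rfl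
  right_inv := by intro x; funext i; fin_cases i <;> rfl

/-- triples, bracketed to the right -/
def eR : ι × (ι × ι) ≃ (Fin 3 → ι) where
  toFun p := ![p.1, p.2.1, p.2.2]
  invFun x := (x 0, (x 1, x 2))
  left_inv := by rintro ⟨a, ⟨b, c⟩⟩; rfl
  right_inv := by intro x; funext i; fin_cases i <;> rfl

/-- quintuples -/
def e5 : (ι × ι) × (ι × (ι × ι)) ≃ (Fin 5 → ι) where
  toFun p := ![p.1.1, p.1.2, p.2.1, p.2.2.1, p.2.2.2]
  invFun x := ((x 0, x 1), (x 2, (x 3, x 4)))
  left_inv := by rintro ⟨⟨a, b⟩, ⟨c, ⟨d, e⟩⟩⟩; rfl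
  right_inv := by intro x; funext i; fin_cases i <;> rfl

theorem gen0_eq (c : Matrix (ι × ι) (ι × ι) k) :
    (genMat c (0 : Fin 2)).submatrix eL eL = c ⊗ₖ (1 : Matrix ι ι k) := by
  ext ⟨⟨a, b⟩, d⟩ ⟨⟨a', b'⟩, d'⟩
  simp only [Matrix.submatrix_apply, genMat, Matrix.kroneckerMap_apply, Matrix.one_apply, eL,
    Equiv.coe_fn_mk]
  by_cases h : d = d'
  · subst h
    rw [if_pos]
    · simp
    · intro j h1 h2
      fin_cases j
      · exact absurd rfl h1
      · exact absurd rfl h2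
      · rfl
  · rw [if_neg]
    · simp [h]
    · intro h'
      exact h (h' 2 (by decide) (by decide))

theorem gen1_eq (c : Matrix (ι × ι) (ι × ι) k) :
    (genMat c (1 : Fin 2)).submatrix eR eR = (1 : Matrix ι ι k) ⊗ₖ c := by
  ext ⟨a, ⟨b, d⟩⟩ ⟨a', ⟨b', d'⟩⟩
  simp only [Matrix.submatrix_apply, genMat, Matrix.kroneckerMap_apply, Matrix.one_apply, eR,
    Equiv.coe_fn_mk]
  by_cases h : a = a'
  · subst h
    rw [if_pos]
    · simp
    · intro j h1 h2
      fin_cases j
      · rfl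
      · exact absurd rfl h1
      · exact absurd rfl h2
  · rw [if_neg]
    · simp [h]
    · intro h'
      exact h (h' 0 (by decide) (by decide))

end reindex

theorem inv_comm {k ι : Type} [Field k] [Fintype ι] [DecidableEq ι] {c X : Matrix ι ι k}
    (h : c * X = X * c) : c⁻¹ * X = X * c⁻¹ := by
  by_cases hc : IsUnit c.det
  · calc c⁻¹ * X = c⁻¹ * (X * c) * c⁻¹ := by
          rw [mul_assoc, mul_assoc, Matrix.mul_nonsing_inv _ hc, mul_one]
      _ = c⁻¹ * (c * X) * c⁻¹ := by rw [h]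
      _ = X * c⁻¹ := by rw [← mul_assoc, Matrix.nonsing_inv_mul _ hc, one_mul]
  · rw [Matrix.nonsing_inv_apply_not_isUnit _ hc]
    simp

namespace QModule

variable {Δ : CartanDatum} {k : Type} [Field k] {s : k} (V : QModule Δ k s)

/-- a matrix on `V ⊗ V` commuting with the quantum group and preserving weights -/
structure Good (c : Matrix (Fin V.dim × Fin V.dim) (Fin V.dim × Fin V.dim) k) : Prop where
  E : ∀ i, c * V.E2 i = V.E2 i * c
  g : ∀ g : Δ.Wt → k, c * Matrix.diagonal (fun p => g (V.wt p.1 + V.wt p.2)) =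
    Matrix.diagonal (fun p => g (V.wt p.1 + V.wt p.2)) * c

theorem IsBraiding.good {c : Matrix (Fin V.dim × Fin V.dim) (Fin V.dim × Fin V.dim) k}
    (hc : V.IsBraiding c) : V.Good c := by
  refine ⟨hc.1, fun g => ?_⟩
  ext ⟨a', b'⟩ ⟨a, b⟩
  rw [Matrix.mul_diagonal, Matrix.diagonal_mul]
  by_cases h : c (a', b') (a, b) = 0
  · simp [h]
  · simp only [V.braiding_wt hc h]
    ring

theorem Good.inv {c : Matrix (Fin V.dim × Fin V.dim) (Fin V.dim × Fin V.dim) k}
    (hc : V.Good c) : V.Good c⁻¹ :=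
  ⟨fun i => inv_comm (hc.E i), fun g => inv_comm (hc.g g)⟩

theorem Good.wt_eq {c : Matrix (Fin V.dim × Fin V.dim) (Fin V.dim × Fin V.dim) k}
    (hc : V.Good c) {p q : Fin V.dim × Fin V.dim} (h : c p q ≠ 0) :
    V.wt p.1 + V.wt p.2 = V.wt q.1 + V.wt q.2 := by
  classical
  have h1 := congrFun (congrFun (hc.g fun μ => if μ = V.wt p.1 + V.wt p.2 then 1 else 0) p) q
  rw [Matrix.mul_diagonal, Matrix.diagonal_mul] at h1
  by_contra hne
  simp only [if_true, one_mul] at h1
  rw [if_neg (Ne.symm hne), mul_zero] at h1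
  exact h h1.symm

/-- `K ⊗ K` -/
theorem kk_eq (hs : s ≠ 0) (z : Δ.Wt) : V.Kd z ⊗ₖ V.Kd z =
    Matrix.diagonal (fun p : Fin V.dim × Fin V.dim => s ^ Δ.ip z (V.wt p.1 + V.wt p.2)) := by
  rw [Kd, Matrix.diagonal_kronecker_diagonal]
  congr 1
  funext p
  rw [Δ.ip_add_right, zpow_add₀ hs]

/-- `E_i` on the triple tensor product -/
def E3 (i : Fin Δ.n) : Matrix ((Fin V.dim × Fin V.dim) × Fin V.dim)
    ((Fin V.dim × Fin V.dim) × Fin V.dim) k :=
  V.E2 i ⊗ₖ 1 + (V.K i ⊗ₖ V.K i) ⊗ₖ V.E i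

theorem E3_eq (i : Fin Δ.n) : (V.E3 i).submatrix eL.symm eL.symm =
    (V.E i ⊗ₖ (1 : Matrix (Fin V.dim × Fin V.dim) (Fin V.dim × Fin V.dim) k) +
      V.K i ⊗ₖ V.E2 i).submatrix eR.symm eR.symm := by
  ext x y
  simp only [E3, E2, Matrix.submatrix_apply, Matrix.add_apply, Matrix.kroneckerMap_apply, eL, eR,
    Equiv.coe_fn_symm_mk, Matrix.one_apply, Prod.mk.injEq]
  by_cases h1 : x 1 = y 1 <;> by_cases h2 : x 2 = y 2 <;> simp [h1, h2] <;> ring

theorem gen_E3 (hs : s ≠ 0) {c : Matrix (Fin V.dim × Fin V.dim) (Fin V.dim × Fin V.dim) k}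
    (hc : V.Good c) (j : Fin 2) (i : Fin Δ.n) :
    genMat c j * (V.E3 i).submatrix eL.symm eL.symm =
      (V.E3 i).submatrix eL.symm eL.symm * genMat c j := by
  fin_cases j
  · have h1 : genMat c (0 : Fin 2) = (c ⊗ₖ (1 : Matrix _ _ k)).submatrix eL.symm eL.symm := by
      rw [← gen0_eq]; simp
    change genMat c (0 : Fin 2) * _ = _ * genMat c (0 : Fin 2)
    rw [h1, Matrix.submatrix_mul_equiv, Matrix.submatrix_mul_equiv]
    congr 1
    rw [E3, mul_add, add_mul, ← Matrix.mul_kronecker_mul, ← Matrix.mul_kronecker_mul,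
      ← Matrix.mul_kronecker_mul, ← Matrix.mul_kronecker_mul, hc.E]
    have : c * (V.K i ⊗ₖ V.K i) = (V.K i ⊗ₖ V.K i) * c := by
      rw [K, V.kk_eq hs]
      exact hc.g (fun μ => s ^ Δ.ip (Δ.root i) μ)
    simp only [this, one_mul, mul_one]
  · have h1 : genMat c (1 : Fin 2) =
        ((1 : Matrix (Fin V.dim) (Fin V.dim) k) ⊗ₖ c).submatrix eR.symm eR.symm := by
      rw [← gen1_eq]; simp
    change genMat c (1 : Fin 2) * _ = _ * genMat c (1 : Fin 2)
    rw [h1, E3_eq, Matrix.submatrix_mul_equiv, Matrix.submatrix_mul_equiv]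
    congr 1
    rw [mul_add, add_mul, ← Matrix.mul_kronecker_mul, ← Matrix.mul_kronecker_mul,
      ← Matrix.mul_kronecker_mul, ← Matrix.mul_kronecker_mul, hc.E, one_mul, mul_one, one_mul,
      mul_one, one_mul, mul_one]

theorem braid_E3 (hs : s ≠ 0) {c : Matrix (Fin V.dim × Fin V.dim) (Fin V.dim × Fin V.dim) k}
    (hc : V.Good c) (w : Braid 2) (i : Fin Δ.n) :
    braidMat c w * (V.E3 i).submatrix eL.symm eL.symm =
      (V.E3 i).submatrix eL.symm eL.symm * braidMat c w := by
  induction w with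
  | nil => rw [braidMat_nil, one_mul, mul_one]
  | cons g w ih =>
    have hg : V.Good (if g.2 then c else c⁻¹) := by
      split_ifs
      · exact hc
      · exact hc.inv
    rw [braidMat_cons, mul_assoc, V.gen_E3 hs hg, ← mul_assoc, ih, mul_assoc]

theorem braid_wt {c : Matrix (Fin V.dim × Fin V.dim) (Fin V.dim × Fin V.dim) k}
    (hc : V.Good c) (w : Braid 2) (x y : Fin 3 → Fin V.dim) (h : braidMat c w x y ≠ 0) :
    V.wt (x 0) + V.wt (x 1) + V.wt (x 2) = V.wt (y 0) + V.wt (y 1) + V.wt (y 2) := by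
  induction w generalizing y with
  | nil =>
    rw [braidMat_nil, Matrix.one_apply] at h
    split_ifs at h with hxy
    · rw [hxy]
    · exact absurd rfl h
  | cons g w ih =>
    have hg : V.Good (if g.2 then c else c⁻¹) := by
      split_ifs
      · exact hc
      · exact hc.inv
    rw [braidMat_cons, Matrix.mul_apply] at h
    generalize (if g.2 = true then c else c⁻¹) = d at h hg
    obtain ⟨z, _, hz⟩ := Finset.exists_ne_zero_of_sum_ne_zero h
    rw [ih z (left_ne_zero_of_mul hz)]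
    have h2 := right_ne_zero_of_mul hz
    rw [genMat] at h2
    split_ifs at h2 with h3
    · have h4 := hg.wt_eq V h2
      rcases g with ⟨j, b⟩
      fin_cases j
      · have h5 := h3 2 (show (2 : Fin 3) ≠ (0 : Fin 2).castSucc by decide)
          (show (2 : Fin 3) ≠ (0 : Fin 2).succ by decide)
        change V.wt (z 0) + V.wt (z 1) = V.wt (y 0) + V.wt (y 1) at h4
        rw [h4, h5]
      · have h5 := h3 0 (show (0 : Fin 3) ≠ (1 : Fin 2).castSucc by decide)
          (show (0 : Fin 3) ≠ (1 : Fin 2).succ by decide)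
        change V.wt (z 1) + V.wt (z 2) = V.wt (y 1) + V.wt (y 2) at h4
        rw [add_assoc, h4, h5, add_assoc]
    · exact absurd rfl h2

/-- `K_2ρ` on a pair -/
def D2 : Matrix (Fin V.dim × Fin V.dim) (Fin V.dim × Fin V.dim) k :=
  V.Kd Δ.twoRho ⊗ₖ V.Kd Δ.twoRho

/-- The partial quantum trace over the first two strands is a scalar. -/
theorem ptr_scalar (hs : s ≠ 0) (hV : V.Irr) {a₀ : Fin V.dim}
    {c : Matrix (Fin V.dim × Fin V.dim) (Fin V.dim × Fin V.dim) k}
    (hc : V.Good c) (w : Braid 2) :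
    ∃ t : k, ptr ((V.D2 ⊗ₖ 1) * (braidMat c w).submatrix eL eL) = t • 1 := by
  obtain ⟨b₀, h₁⟩ := V.exists_lowest hV a₀
  set T := (braidMat c w).submatrix eL eL with hT
  set L := ptr ((V.D2 ⊗ₖ 1) * T) with hL
  have hTE : ∀ i, T * V.E3 i = V.E3 i * T := by
    intro i
    have h := congrArg (fun M => M.submatrix eL eL) (V.braid_E3 hs hc w i)
    simp only [← Matrix.submatrix_mul_equiv _ _ _ eL _] at h
    simpa [hT, Matrix.submatrix_submatrix] using h
  have hLE : ∀ i, L * V.E i = V.E i * L := by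
    intro i
    refine ptr_comm T V.D2 (V.K i ⊗ₖ V.K i) (V.Kinv i ⊗ₖ V.Kinv i) (V.E2 i) (V.E i) ?_ ?_ ?_ ?_
      (hTE i)
    · rw [← Matrix.mul_kronecker_mul, V.Kinv_mul_K hs, Matrix.one_kronecker_one]
    · rw [D2, ← Matrix.mul_kronecker_mul, ← Matrix.mul_kronecker_mul, K, V.kd_mul hs, V.kd_mul hs,
        add_comm]
    · rw [← Matrix.mul_kronecker_mul, V.K_mul_Kinv hs, Matrix.one_kronecker_one]
    · have e0 : Δ.ip (Δ.twoRho + -Δ.root i) (Δ.root i) = 0 := by
        rw [Δ.ip_add_left, Δ.ip_neg_left, Δ.ip_root_right, Δ.ip_root_right]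
        simp [CartanDatum.twoRho, CartanDatum.root, Δ.diag]
      have e1 : V.Kd (Δ.twoRho + -Δ.root i) * V.E i = V.E i * V.Kd (Δ.twoRho + -Δ.root i) := by
        rw [(V.E_shifts i).kd hs, e0, zpow_zero, one_smul]
      have e2 : V.Kd (Δ.twoRho + -Δ.root i) * V.K i = V.K i * V.Kd (Δ.twoRho + -Δ.root i) := by
        rw [K, V.kd_mul hs, V.kd_mul hs, add_comm]
      rw [D2, ← Matrix.mul_kronecker_mul, Kinv, V.kd_mul hs, E2, mul_add, add_mul,
        ← Matrix.mul_kronecker_mul, ← Matrix.mul_kronecker_mul, ← Matrix.mul_kronecker_mul,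
        ← Matrix.mul_kronecker_mul, e1, e2, mul_one, one_mul]
  have hLwt : ∀ a b, L a b ≠ 0 → V.wt a = V.wt b := by
    intro a b h
    rw [hL, ptr] at h
    obtain ⟨p, _, hp⟩ := Finset.exists_ne_zero_of_sum_ne_zero h
    have hD : V.D2 ⊗ₖ (1 : Matrix (Fin V.dim) (Fin V.dim) k) = Matrix.diagonal
        (fun q : (Fin V.dim × Fin V.dim) × Fin V.dim =>
          s ^ Δ.ip Δ.twoRho (V.wt q.1.1 + V.wt q.1.2) * 1) := by
      rw [D2, V.kk_eq hs, ← Matrix.diagonal_one, Matrix.diagonal_kronecker_diagonal]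
    rw [hD, Matrix.diagonal_mul] at hp
    have h2 := right_ne_zero_of_mul hp
    have h3 := V.braid_wt hc w _ _ h2
    simp only [eL, Equiv.coe_fn_mk, Matrix.cons_val_zero, Matrix.cons_val_one,
      Matrix.cons_val_two, Matrix.tail_cons, Matrix.head_cons] at h3
    exact add_left_cancel h3
  refine ⟨L b₀ b₀, ?_⟩
  have hb : L.mulVec (Pi.single b₀ 1) = L b₀ b₀ • Pi.single b₀ (1 : k) := by
    rw [Matrix.mulVec_single_one]
    funext a
    simp only [Matrix.col_apply, Pi.smul_apply, smul_eq_mul]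
    by_cases h : L a b₀ = 0
    · by_cases ha : a = b₀
      · subst ha; simp
      · simp [h, ha]
    · have := h₁.uniq a (hLwt _ _ h)
      subst this
      simp
  have hall : ∀ v, v ∈ LinearMap.ker (L.mulVecLin - (L b₀ b₀) • LinearMap.id) := by
    have h2 : wspan (fun i => (V.E i).mulVecLin) (Pi.single b₀ (1 : k)) ≤
        LinearMap.ker (L.mulVecLin - (L b₀ b₀) • LinearMap.id) := by
      rw [wspan, Submodule.span_le]
      rintro _ ⟨l, rfl⟩
      simp only [SetLike.mem_coe, LinearMap.mem_ker, LinearMap.sub_apply, LinearMap.smul_apply,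
        LinearMap.id_apply, Matrix.mulVecLin_apply, sub_eq_zero]
      induction l with
      | nil => exact hb
      | cons i l ih =>
        rw [word_cons, Matrix.mulVecLin_apply, Matrix.mulVec_mulVec, hLE, ← Matrix.mulVec_mulVec,
          ih, Matrix.mulVec_smul]
    rw [h₁.gen] at h2
    intro v
    exact h2 trivial
  refine mat_ext fun v => ?_
  have := hall v
  simp only [LinearMap.mem_ker, LinearMap.sub_apply, LinearMap.smul_apply,
        LinearMap.id_apply, Matrix.mulVecLin_apply, sub_eq_zero] at this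
  rw [this, Matrix.smul_mulVec, Matrix.one_mulVec]

/-- the first three of five positions -/
def l3 : Fin 3 → Fin 5 := Fin.castLE (by norm_num)

/-- the last three of five positions -/
def r3 : Fin 3 → Fin 5 := ![2, 3, 4]

theorem l3_inj : Function.Injective l3 := Fin.castLE_injective _

theorem r3_inj : Function.Injective r3 := by decide

theorem left3_eq (c : Matrix (Fin V.dim × Fin V.dim) (Fin V.dim × Fin V.dim) k)
    (w : Braid 2) : braidMat c (left3 w) =
      embMat l3 (braidMat c w) :=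
  braidMat_map c (Fin.castLE (by norm_num) : Fin 2 → Fin 4) l3 l3_inj
    (fun i => by fin_cases i <;> rfl) (fun i => by fin_cases i <;> rfl) w

theorem right3_eq (c : Matrix (Fin V.dim × Fin V.dim) (Fin V.dim × Fin V.dim) k)
    (w : Braid 2) : braidMat c (right3 w) =
      embMat r3 (braidMat c w) :=
  braidMat_map c (Fin.natAdd 2 : Fin 2 → Fin 4) r3 r3_inj
    (fun i => by fin_cases i <;> rfl) (fun i => by fin_cases i <;> rfl) w

theorem extend_eq {α β ι : Type} (e : α → β) (he : Function.Injective e) (u : α → ι)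
    (z f : β → ι) (h1 : f ∘ e = u) (h2 : ∀ j, j ∉ Set.range e → f j = z j) :
    Function.extend e u z = f := by
  funext j
  by_cases hj : j ∈ Set.range e
  · obtain ⟨i, rfl⟩ := hj
    rw [he.extend_apply, ← h1]
    rfl
  · rw [Function.extend_apply' _ _ _ (by simpa using hj), h2 j hj]

/-- The quantum trace of a sum of two closed braids. -/
theorem qtrace_sum (hs : s ≠ 0)
    {c : Matrix (Fin V.dim × Fin V.dim) (Fin V.dim × Fin V.dim) k}
    (w₁ w₂ : Braid 2) (t : k)
    (ht : ptr ((V.D2 ⊗ₖ 1) * (braidMat c w₁).submatrix eL eL) = t • 1) :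
    qtrace V c (left3 w₁ ++ right3 w₂) = t * qtrace V c w₂ := by
  classical
  have hentry : ∀ p : Fin V.dim × Fin V.dim, ∀ q : Fin V.dim × (Fin V.dim × Fin V.dim),
      (braidMat c (left3 w₁ ++ right3 w₂)) (e5 (p, q)) (e5 (p, q)) =
        ∑ u, braidMat c w₂ (eR q) (eR (u, q.2)) * braidMat c w₁ (eL (p, u)) (eL (p, q.1)) := by
    intro p q
    rw [braidMat_append, left3_eq, right3_eq, Matrix.mul_apply]
    have h2 : (e5 (p, q)) ∘ l3 = eL (p, q.1) := by
      funext j
      fin_cases j <;> rfl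
    have h1 : ∀ y, embMat r3 (braidMat c w₂) (e5 (p, q)) y *
        embMat l3 (braidMat c w₁) y (e5 (p, q)) =
        if ∀ j, j ∉ Set.range l3 → y j = (e5 (p, q)) j then
          embMat r3 (braidMat c w₂) (e5 (p, q)) y *
          braidMat c w₁ (y ∘ l3) (eL (p, q.1)) else 0 := by
      intro y
      rw [embMat.eq_def l3, h2]
      by_cases h : ∀ j, j ∉ Set.range l3 → y j = (e5 (p, q)) j
      · rw [if_pos h, if_pos h]
      · rw [if_neg h, if_neg h, mul_zero]
    rw [Finset.sum_congr rfl fun y _ => h1 y,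
      sum_restrict' l3 l3_inj (e5 (p, q)) _ (fun y => Iff.rfl), ← eL.sum_comp,
      Fintype.sum_prod_type, Finset.sum_comm]
    refine Finset.sum_congr rfl fun u _ => ?_
    rw [Finset.sum_eq_single p]
    · rw [extend_comp _ l3_inj]
      congr 1
      rw [extend_eq _ l3_inj _ _ (e5 (p, (u, q.2)))]
      · simp only [embMat]
        rw [if_pos]
        · congr 1
          · funext j
            fin_cases j <;> rfl
          · funext j
            fin_cases j <;> rfl
        · intro j hj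
          fin_cases j
          · rfl
          · rfl
          · exact absurd ⟨0, rfl⟩ hj
          · rfl
          · rfl
      · funext j
        fin_cases j <;> rfl
      · intro j hj
        fin_cases j
        · rfl
        · rfl
        · exact absurd ⟨2, rfl⟩ hj
        · rfl
        · rfl
    · intro p' _ hp'
      rw [extend_eq _ l3_inj _ _ (e5 (p', (u, q.2)))]
      · simp only [embMat]
        rw [if_neg, zero_mul]
        intro h
        apply hp'
        have h0 := h 0 (by simp only [Set.mem_range, not_exists]; decide)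
        have h1 := h 1 (by simp only [Set.mem_range, not_exists]; decide)
        exact Prod.ext h0.symm h1.symm
      · funext j
        fin_cases j <;> rfl
      · intro j hj
        fin_cases j
        · exact absurd ⟨0, rfl⟩ hj
        · exact absurd ⟨1, rfl⟩ hj
        · exact absurd ⟨2, rfl⟩ hj
        · rfl
        · rfl
    · intro h
      exact absurd (Finset.mem_univ p) h
  have hL : ∀ u b, ∑ p : Fin V.dim × Fin V.dim, s ^ Δ.ip Δ.twoRho (V.wt p.1 + V.wt p.2) *
      braidMat c w₁ (eL (p, u)) (eL (p, b)) = if u = b then t else 0 := by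
    intro u b
    have h := congrFun (congrFun ht u) b
    have hD : V.D2 ⊗ₖ (1 : Matrix (Fin V.dim) (Fin V.dim) k) = Matrix.diagonal
        (fun q : (Fin V.dim × Fin V.dim) × Fin V.dim =>
          s ^ Δ.ip Δ.twoRho (V.wt q.1.1 + V.wt q.1.2) * 1) := by
      rw [D2, V.kk_eq hs, ← Matrix.diagonal_one, Matrix.diagonal_kronecker_diagonal]
    simp only [ptr, hD, Matrix.diagonal_mul, mul_one, Matrix.submatrix_apply, Matrix.smul_apply,
      Matrix.one_apply, smul_eq_mul, mul_ite, mul_zero] at h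
    exact h
  have hκ : ∀ p : Fin V.dim × Fin V.dim, ∀ q : Fin V.dim × (Fin V.dim × Fin V.dim),
      ∏ j, s ^ Δ.ip Δ.twoRho (V.wt (e5 (p, q) j)) =
        s ^ Δ.ip Δ.twoRho (V.wt p.1 + V.wt p.2) * ∏ j, s ^ Δ.ip Δ.twoRho (V.wt (eR q j)) := by
    intro p q
    rw [Fin.prod_univ_five, Fin.prod_univ_three, Δ.ip_add_right, zpow_add₀ hs]
    simp only [e5, eR, Equiv.coe_fn_mk]
    change _ = s ^ _ * s ^ _ * (s ^ _ * s ^ _ * s ^ _)
    simp only [Matrix.cons_val]
    ring
  simp only [qtrace, Matrix.trace, Matrix.diag_apply, Matrix.diagonal_mul]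
  rw [← e5.sum_comp, ← eR.sum_comp, Fintype.sum_prod_type, Finset.sum_comm, Finset.mul_sum]
  refine Finset.sum_congr rfl fun q _ => ?_
  have h3 : ∀ p, (∏ j, s ^ Δ.ip Δ.twoRho (V.wt (e5 (p, q) j))) *
      braidMat c (left3 w₁ ++ right3 w₂) (e5 (p, q)) (e5 (p, q)) =
      ∑ u, ((∏ j, s ^ Δ.ip Δ.twoRho (V.wt (eR q j))) * braidMat c w₂ (eR q) (eR (u, q.2))) *
        (s ^ Δ.ip Δ.twoRho (V.wt p.1 + V.wt p.2) * braidMat c w₁ (eL (p, u)) (eL (p, q.1))) := by
    intro p
    rw [hentry, hκ, Finset.mul_sum]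
    refine Finset.sum_congr rfl fun u _ => ?_
    ring
  rw [Finset.sum_congr rfl fun p _ => h3 p, Finset.sum_comm]
  simp only [← Finset.mul_sum, hL]
  simp only [mul_ite, mul_zero, Finset.sum_ite_eq', Finset.mem_univ, if_true]
  ring

/-- Reversing a word does not change the quantum trace of its closure. -/
theorem qtrace_reverse (hs : s ≠ 0) (hV : V.Irr) {a₀ : Fin V.dim} (h₀ : V.Highest a₀)
    {c : Matrix (Fin V.dim × Fin V.dim) (Fin V.dim × Fin V.dim) k}
    (hc : V.IsBraiding c) {m : ℕ} (w : Braid m) : qtrace V c w.reverse = qtrace V c w := by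
  obtain ⟨b₀, h₁⟩ := V.exists_lowest hV a₀
  obtain ⟨B, C, hBE, hBF, hBwt, hBC, hCB⟩ := V.exists_form hs hV a₀ h₀
  have hsym := V.braiding_symm hs h₀ h₁ hc B C hBE hBF hBwt hBC hCB
  have hsym' := V.braiding_symm_inv B C hBC hCB hsym
  have key := braidMat_reverse c B hsym hsym' w
  set BB := tens (Fin (m + 1)) B with hBB
  set CC := tens (Fin (m + 1)) C with hCC
  have h1 : BB * CC = 1 := by rw [hBB, hCC, tens_mul, hBC, tens_one]
  have h2 : CC * BB = 1 := by rw [hBB, hCC, tens_mul, hCB, tens_one]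
  have h3 : braidMat c w.reverse = CC * (braidMat c w).transpose * BB := by
    rw [mul_assoc, ← key, ← mul_assoc, h2, one_mul]
  set D := Matrix.diagonal
    (fun x : Fin (m + 1) → Fin V.dim => ∏ j, s ^ Δ.ip Δ.twoRho (V.wt (x j))) with hD
  have h4 : BB * D = D * BB := by
    ext x y
    rw [hD, Matrix.mul_diagonal, Matrix.diagonal_mul, hBB]
    simp only [tens]
    by_cases h : ∏ j, B (x j) (y j) = 0
    · rw [h]; simp
    · rw [mul_comm]
      congr 1
      refine Finset.prod_congr rfl fun j _ => ?_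
      rw [hBwt _ _ (Finset.prod_ne_zero_iff.1 h j (Finset.mem_univ j))]
  rw [qtrace, qtrace, h3, ← hD]
  calc (D * (CC * (braidMat c w).transpose * BB)).trace
      = (D * CC * (braidMat c w).transpose * BB).trace := by simp only [mul_assoc]
    _ = (BB * (D * CC * (braidMat c w).transpose)).trace := Matrix.trace_mul_comm _ _
    _ = ((BB * D) * CC * (braidMat c w).transpose).trace := by simp only [mul_assoc]
    _ = (D * (braidMat c w).transpose).trace := by
        rw [h4, mul_assoc D, h1, mul_one]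
    _ = ((braidMat c w * D).transpose).trace := by
        rw [Matrix.transpose_mul, hD, Matrix.diagonal_transpose]
    _ = (D * braidMat c w).trace := by rw [Matrix.trace_transpose, Matrix.trace_mul_comm]

/-- The quantum trace of a sum of closed braids does not change when the second one is reversed. -/
theorem qtrace_mutation (hs : s ≠ 0) {lam : Fin Δ.n → ℕ} (hV : V.IsSimple lam)
    {c : Matrix (Fin V.dim × Fin V.dim) (Fin V.dim × Fin V.dim) k}
    (hc : V.IsBraiding c) (w₁ w₂ : Braid 2) :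
    qtrace V c (left3 w₁ ++ right3 w₂.reverse) = qtrace V c (left3 w₁ ++ right3 w₂) := by
  obtain ⟨⟨a₀, _, ha₀⟩, hirr⟩ := hV
  have h₀ := V.highest_of hirr a₀ ha₀
  obtain ⟨t, ht⟩ := V.ptr_scalar hs hirr (a₀ := a₀) (IsBraiding.good V hc) w₁
  rw [V.qtrace_sum hs w₁ w₂ t ht, V.qtrace_sum hs w₁ w₂.reverse t ht,
    V.qtrace_reverse hs hirr h₀ hc]

end QModule

theorem genericS_ne_zero : genericS ≠ 0 := RatFunc.X_ne_zero

theorem writhe_append {m : ℕ} (w w' : Braid m) : writhe (w ++ w') = writhe w + writhe w' := by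
  simp [writhe]

theorem writhe_reverse {m : ℕ} (w : Braid m) : writhe w.reverse = writhe w := by
  simp [writhe, List.map_reverse, List.sum_reverse]

theorem writhe_right3 (w : Braid 2) : writhe (right3 w) = writhe w := by
  simp [writhe, right3, Function.comp_def]

/-- The coloured invariants of the two sums of knots agree. -/
theorem knotInv_mutation (Δ : CartanDatum) (lam : Fin Δ.n → ℕ) (w₁ w₂ : Braid 2) (f : ℤ) :
    knotInv Δ lam (left3 w₁ ++ right3 w₂.reverse) f = knotInv Δ lam (left3 w₁ ++ right3 w₂) f := by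
  unfold knotInv
  split_ifs with h
  · have hw : writhe (left3 w₁ ++ right3 w₂.reverse) = writhe (left3 w₁ ++ right3 w₂) := by
      rw [writhe_append, writhe_append, writhe_right3, writhe_right3, writhe_reverse]
    rw [hw, QModule.qtrace_mutation _ genericS_ne_zero h.choose_spec.choose_spec.1
      h.choose_spec.choose_spec.2]
  · rfl

theorem surgerySum_mutation (Δ : CartanDatum) (C : Finset (Fin Δ.n → ℕ)) (r : ℕ)
    (w₁ w₂ : Braid 2) (f : ℤ) :
    surgerySum Δ C r (left3 w₁ ++ right3 w₂.reverse) f =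
      surgerySum Δ C r (left3 w₁ ++ right3 w₂) f := by
  unfold surgerySum
  simp only [knotInv_mutation]

end Pool.Agent.W616
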