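import Pool.Agent.W616.KGroup
import Pool.Agent.W616.QTrace

/-!
# The fundamental group of a surgery on a sum of two closed three-strand braids
-/

set_option autoImplicit false
set_option linter.unusedSectionVars false

namespace Pool.Agent.W616

section sum

open QModule (l3 r3 l3_inj r3_inj)

variable {G : Type*} [Group G]

theorem prod_inv (w : Braid 2) (x : Fin 3 → G) :
    labs w x 2 * labs w x 1 * labs w x 0 = x 2 * x 1 * x 0 := by
  have key : ∀ (w : Braid 2) (y : Fin 3 → Strand G (Fin 3)),
      (run w y 2).lab * (run w y 1).lab * (run w y 0).lab = (y 2).lab * (y 1).lab * (y 0).lab := by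
    intro w
    induction w with
    | nil => intro y; rfl
    | cons g w ih =>
      intro y
      rw [run_cons, ih]
      rcases g with ⟨j, b⟩
      fin_cases j <;> cases b
      · have h0 : crossing ((0 : Fin 2), false) y 0 = y 1 := rfl
        have h1 : crossing ((0 : Fin 2), false) y 1 =
          ⟨(y 1).lab * (y 0).lab * (y 1).lab⁻¹, (y 0).acc * (y 1).lab⁻¹, (y 0).org⟩ := rfl
        have h2 : crossing ((0 : Fin 2), false) y 2 = y 2 := rfl
        change (crossing ((0 : Fin 2), false) y 2).lab * (crossing ((0 : Fin 2), false) y 1).lab *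
          (crossing ((0 : Fin 2), false) y 0).lab = _
        rw [h0, h1, h2]
        group
      · have h0 : crossing ((0 : Fin 2), true) y 0 =
          ⟨(y 0).lab⁻¹ * (y 1).lab * (y 0).lab, (y 1).acc * (y 0).lab, (y 1).org⟩ := rfl
        have h1 : crossing ((0 : Fin 2), true) y 1 = y 0 := rfl
        have h2 : crossing ((0 : Fin 2), true) y 2 = y 2 := rfl
        change (crossing ((0 : Fin 2), true) y 2).lab * (crossing ((0 : Fin 2), true) y 1).lab *
          (crossing ((0 : Fin 2), true) y 0).lab = _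
        rw [h0, h1, h2]
        group
      · have h0 : crossing ((1 : Fin 2), false) y 0 = y 0 := rfl
        have h2 : crossing ((1 : Fin 2), false) y 2 =
          ⟨(y 2).lab * (y 1).lab * (y 2).lab⁻¹, (y 1).acc * (y 2).lab⁻¹, (y 1).org⟩ := rfl
        have h1 : crossing ((1 : Fin 2), false) y 1 = y 2 := rfl
        change (crossing ((1 : Fin 2), false) y 2).lab * (crossing ((1 : Fin 2), false) y 1).lab *
          (crossing ((1 : Fin 2), false) y 0).lab = _
        rw [h0, h1, h2]
        group
      · have h0 : crossing ((1 : Fin 2), true) y 0 = y 0 := rfl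
        have h1 : crossing ((1 : Fin 2), true) y 1 =
          ⟨(y 1).lab⁻¹ * (y 2).lab * (y 1).lab, (y 2).acc * (y 1).lab, (y 2).org⟩ := rfl
        have h2 : crossing ((1 : Fin 2), true) y 2 = y 1 := rfl
        change (crossing ((1 : Fin 2), true) y 2).lab * (crossing ((1 : Fin 2), true) y 1).lab *
          (crossing ((1 : Fin 2), true) y 0).lab = _
        rw [h0, h1, h2]
        group
  exact key w (fresh x)

/-- the labels between the two words -/
def mid (w₁ : Braid 2) (x : Fin 5 → G) : Fin 3 → G := ![labs w₁ (fun q => x (l3 q)) 2, x 3, x 4]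

/-- the accumulated elements between the two words -/
def midA (w₁ : Braid 2) (x : Fin 5 → G) : Fin 3 → G := ![accs w₁ (fun q => x (l3 q)) 2, 1, 1]

/-- the origins between the two words -/
def midR (w₁ : Braid 2) : Fin 3 → Fin 5 := ![l3 (perm w₁ 2), 3, 4]

theorem run_left (w₁ : Braid 2) (x : Fin 5 → G) (p : Fin 3) :
    run (left3 w₁) (fresh x) (l3 p) =
      ⟨labs w₁ (fun q => x (l3 q)) p, accs w₁ (fun q => x (l3 q)) p, l3 (perm w₁ p)⟩ := by
  have h := (run_emb (Fin.castLE (by norm_num) : Fin 2 → Fin 4) l3 l3_inj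
    (fun i => by fin_cases i <;> rfl) (fun i => by fin_cases i <;> rfl) w₁ (fresh x)).1 p
  have h2 : (fun q => fresh x (l3 q)) =
      fun q => (fresh (fun q => x (l3 q)) q).shift (fun _ => 1) l3 := by
    funext q
    simp [fresh, Strand.shift]
  rw [h2, run_shift] at h
  rw [left3, h]
  beta_reduce
  rw [run_eq]
  simp [Strand.shift]

theorem run_left' (w₁ : Braid 2) (x : Fin 5 → G) (j : Fin 5) (hj : j ∉ Set.range l3) :
    run (left3 w₁) (fresh x) j = ⟨x j, 1, j⟩ :=
  (run_emb (Fin.castLE (by norm_num) : Fin 2 → Fin 4) l3 l3_inj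
    (fun i => by fin_cases i <;> rfl) (fun i => by fin_cases i <;> rfl) w₁ (fresh x)).2 j hj

theorem run_mid (w₁ : Braid 2) (x : Fin 5 → G) :
    (fun q => run (left3 w₁) (fresh x) (r3 q)) =
      fun q => (fresh (mid w₁ x) q).shift (midA w₁ x) (midR w₁) := by
  funext q
  fin_cases q
  · change run (left3 w₁) (fresh x) (l3 2) = _
    rw [run_left]
    simp [fresh, Strand.shift, mid, midA, midR]
  · change run (left3 w₁) (fresh x) 3 = _
    rw [run_left' w₁ x 3 (by simp only [Set.mem_range, not_exists]; decide)]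
    simp [fresh, Strand.shift, mid, midA, midR]
  · change run (left3 w₁) (fresh x) 4 = _
    rw [run_left' w₁ x 4 (by simp only [Set.mem_range, not_exists]; decide)]
    simp [fresh, Strand.shift, mid, midA, midR]

theorem run_sum_right (w₁ w₂ : Braid 2) (x : Fin 5 → G) (p : Fin 3) :
    run (left3 w₁ ++ right3 w₂) (fresh x) (r3 p) =
      ⟨labs w₂ (mid w₁ x) p, midA w₁ x (perm w₂ p) * accs w₂ (mid w₁ x) p,
        midR w₁ (perm w₂ p)⟩ := by
  rw [run_append]
  have h := (run_emb (Fin.natAdd 2 : Fin 2 → Fin 4) r3 r3_inj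
    (fun i => by fin_cases i <;> rfl) (fun i => by fin_cases i <;> rfl) w₂
    (run (left3 w₁) (fresh x))).1 p
  rw [run_mid, run_shift] at h
  rw [right3, h]
  beta_reduce
  rw [run_eq]
  simp [Strand.shift]

theorem run_sum_left (w₁ w₂ : Braid 2) (x : Fin 5 → G) (p : Fin 3) (hp : l3 p ∉ Set.range r3) :
    run (left3 w₁ ++ right3 w₂) (fresh x) (l3 p) =
      ⟨labs w₁ (fun q => x (l3 q)) p, accs w₁ (fun q => x (l3 q)) p, l3 (perm w₁ p)⟩ := by
  rw [run_append]
  have h := (run_emb (Fin.natAdd 2 : Fin 2 → Fin 4) r3 r3_inj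
    (fun i => by fin_cases i <;> rfl) (fun i => by fin_cases i <;> rfl) w₂
    (run (left3 w₁) (fresh x))).2 (l3 p) hp
  rw [right3, h, run_left]

theorem l3_0_notMem : l3 0 ∉ Set.range r3 := by simp only [Set.mem_range, not_exists]; decide
theorem l3_1_notMem : l3 1 ∉ Set.range r3 := by simp only [Set.mem_range, not_exists]; decide

theorem mid_eq (w₁ : Braid 2) (x : Fin 5 → G) (h : Closed w₁ (fun q => x (l3 q))) :
    mid w₁ x = fun q => x (r3 q) := by
  funext q
  fin_cases q
  · exact h 2
  · rfl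
  · rfl

theorem closed_sum (w₁ w₂ : Braid 2) (x : Fin 5 → G) :
    Closed (left3 w₁ ++ right3 w₂) x ↔
      Closed w₁ (fun q => x (l3 q)) ∧ Closed w₂ (fun q => x (r3 q)) := by
  have hR : ∀ p, labs (left3 w₁ ++ right3 w₂) x (r3 p) = labs w₂ (mid w₁ x) p := by
    intro p
    rw [labs, run_sum_right]
  have hL0 : labs (left3 w₁ ++ right3 w₂) x (l3 0) = labs w₁ (fun q => x (l3 q)) 0 := by
    rw [labs, run_sum_left w₁ w₂ x 0 l3_0_notMem]
  have hL1 : labs (left3 w₁ ++ right3 w₂) x (l3 1) = labs w₁ (fun q => x (l3 q)) 1 := by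
    rw [labs, run_sum_left w₁ w₂ x 1 l3_1_notMem]
  constructor
  · intro h
    have h0 : labs w₁ (fun q => x (l3 q)) 0 = x (l3 0) := by rw [← hL0, h]
    have h1 : labs w₁ (fun q => x (l3 q)) 1 = x (l3 1) := by rw [← hL1, h]
    have h2 : labs w₁ (fun q => x (l3 q)) 2 = x (l3 2) := by
      have := prod_inv w₁ (fun q => x (l3 q))
      rw [h0, h1] at this
      simpa using this
    have hc : Closed w₁ (fun q => x (l3 q)) := by
      intro p
      fin_cases p
      · exact h0
      · exact h1
      · exact h2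
    refine ⟨hc, fun p => ?_⟩
    rw [← mid_eq w₁ x hc, ← hR, h, mid_eq w₁ x hc]
  · rintro ⟨h1, h2⟩ p
    have hp : p = l3 0 ∨ p = l3 1 ∨ p = r3 0 ∨ p = r3 1 ∨ p = r3 2 := by
      revert p; decide
    rw [← mid_eq w₁ x h1] at h2
    rcases hp with rfl | rfl | rfl | rfl | rfl
    · rw [hL0, h1]
    · rw [hL1, h1]
    · rw [hR, h2, mid_eq w₁ x h1]
    · rw [hR, h2, mid_eq w₁ x h1]
    · rw [hR, h2, mid_eq w₁ x h1]

theorem accs_right (w₁ w₂ : Braid 2) (x : Fin 5 → G) (h : Closed w₁ (fun q => x (l3 q)))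
    (p : Fin 3) : accs (left3 w₁ ++ right3 w₂) x (r3 p) =
      midA w₁ x (perm w₂ p) * accs w₂ (fun q => x (r3 q)) p := by
  rw [accs, run_sum_right, mid_eq w₁ x h]

theorem accs_left0 (w₁ w₂ : Braid 2) (x : Fin 5 → G) :
    accs (left3 w₁ ++ right3 w₂) x 0 = accs w₁ (fun q => x (l3 q)) 0 := by
  change accs (left3 w₁ ++ right3 w₂) x (l3 0) = _
  rw [accs, run_sum_left w₁ w₂ x 0 l3_0_notMem]

theorem accs_left1 (w₁ w₂ : Braid 2) (x : Fin 5 → G) :
    accs (left3 w₁ ++ right3 w₂) x 1 = accs w₁ (fun q => x (l3 q)) 1 := by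
  change accs (left3 w₁ ++ right3 w₂) x (l3 1) = _
  rw [accs, run_sum_left w₁ w₂ x 1 l3_1_notMem]

theorem long_KK (x : Fin 5 → G) (h : Closed wordK (fun q => x (l3 q))) :
    longAux sumKK x 2 5 = longAux wordK (fun q => x (l3 q)) 2 3 *
      longAux wordK (fun q => x (r3 q)) 0 3 := by
  have e0 : (perm sumKK)^[0] 2 = 2 := rfl
  have e1 : (perm sumKK)^[1] 2 = 4 := by decide
  have e2 : (perm sumKK)^[2] 2 = 3 := by decide
  have e3 : (perm sumKK)^[3] 2 = 1 := by decide
  have e4 : (perm sumKK)^[4] 2 = 0 := by decide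
  have f0 : (perm wordK)^[0] 2 = 2 := rfl
  have f1 : (perm wordK)^[1] 2 = 1 := by decide
  have f2 : (perm wordK)^[2] 2 = 0 := by decide
  have g0 : (perm wordK)^[0] 0 = 0 := rfl
  have g1 : (perm wordK)^[1] 0 = 2 := by decide
  have g2 : (perm wordK)^[2] 0 = 1 := by decide
  have k2 : accs sumKK x 2 = accs wordK (fun q => x (r3 q)) 0 := by
    have := accs_right wordK wordK x h 0
    have e : perm wordK 0 = 2 := by decide
    rw [e] at this
    exact this.trans (by simp [midA])
  have k3 : accs sumKK x 3 = accs wordK (fun q => x (l3 q)) 2 *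
      accs wordK (fun q => x (r3 q)) 1 := by
    have := accs_right wordK wordK x h 1
    have e : perm wordK 1 = 0 := by decide
    rw [e] at this
    exact this.trans (by simp [midA])
  have k4 : accs sumKK x 4 = accs wordK (fun q => x (r3 q)) 2 := by
    have := accs_right wordK wordK x h 2
    have e : perm wordK 2 = 1 := by decide
    rw [e] at this
    exact this.trans (by simp [midA])
  have k0 : accs sumKK x 0 = accs wordK (fun q => x (l3 q)) 0 := accs_left0 wordK wordK x
  have k1 : accs sumKK x 1 = accs wordK (fun q => x (l3 q)) 1 := accs_left1 wordK wordK x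
  simp only [longAux_succ, longAux_zero, e0, e1, e2, e3, e4, f0, f1, f2, g0, g1, g2, k0, k1, k2, k3,
    k4, mul_assoc, mul_one]

theorem long_KrK (x : Fin 5 → G) (h : Closed wordK (fun q => x (l3 q))) :
    longAux sumKrK x 2 5 = longAux wordK (fun q => x (l3 q)) 2 3 *
      longAux wordK.reverse (fun q => x (r3 q)) 0 3 := by
  have e0 : (perm sumKrK)^[0] 2 = 2 := rfl
  have e1 : (perm sumKrK)^[1] 2 = 3 := by decide
  have e2 : (perm sumKrK)^[2] 2 = 4 := by decide
  have e3 : (perm sumKrK)^[3] 2 = 1 := by decide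
  have e4 : (perm sumKrK)^[4] 2 = 0 := by decide
  have f0 : (perm wordK)^[0] 2 = 2 := rfl
  have f1 : (perm wordK)^[1] 2 = 1 := by decide
  have f2 : (perm wordK)^[2] 2 = 0 := by decide
  have g0 : (perm wordK.reverse)^[0] 0 = 0 := rfl
  have g1 : (perm wordK.reverse)^[1] 0 = 1 := by decide
  have g2 : (perm wordK.reverse)^[2] 0 = 2 := by decide
  have k2 : accs sumKrK x 2 = accs wordK.reverse (fun q => x (r3 q)) 0 := by
    have := accs_right wordK wordK.reverse x h 0
    have e : perm wordK.reverse 0 = 1 := by decide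
    rw [e] at this
    exact this.trans (by simp [midA])
  have k3 : accs sumKrK x 3 = accs wordK.reverse (fun q => x (r3 q)) 1 := by
    have := accs_right wordK wordK.reverse x h 1
    have e : perm wordK.reverse 1 = 2 := by decide
    rw [e] at this
    exact this.trans (by simp [midA])
  have k4 : accs sumKrK x 4 = accs wordK (fun q => x (l3 q)) 2 *
      accs wordK.reverse (fun q => x (r3 q)) 2 := by
    have := accs_right wordK wordK.reverse x h 2
    have e : perm wordK.reverse 2 = 0 := by decide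
    rw [e] at this
    exact this.trans (by simp [midA])
  have k0 : accs sumKrK x 0 = accs wordK (fun q => x (l3 q)) 0 := accs_left0 wordK wordK.reverse x
  have k1 : accs sumKrK x 1 = accs wordK (fun q => x (l3 q)) 1 := accs_left1 wordK wordK.reverse x
  simp only [longAux_succ, longAux_zero, e0, e1, e2, e3, e4, f0, f1, f2, g0, g1, g2, k0, k1, k2, k3,
    k4, mul_assoc, mul_one]

end sum

end Pool.Agent.W616
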