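import Pool.Agent.W616.HGroup
import Pool.Agent.W616.KSum

/-!
# Counting homomorphisms to the group of order 168
-/

set_option autoImplicit false
set_option linter.unusedSectionVars false

namespace Pool.Agent.W616

/-- evaluate the argument first -/
def force {α : Type} (x : ℕ) (f : ℕ → α) : α :=
  match x with
  | 0 => f 0
  | n + 1 => f (n + 1)

theorem force_eq {α : Type} (x : ℕ) (f : ℕ → α) : force x f = f x := by
  cases x <;> rfl

/-- one crossing, on codes -/
def stepN {α : Type} (g : Fin 2 × Bool) (l0 l1 l2 a0 a1 a2 : ℕ)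
    (k : ℕ → ℕ → ℕ → ℕ → ℕ → ℕ → α) : α :=
  match g.1.val, g.2 with
  | 0, true => force (hm (hm (hi l0) l1) l0) fun x => force (hm a1 l0) fun y => k x l0 l2 y a0 a2
  | 0, false => force (hm (hm l1 l0) (hi l1)) fun x => force (hm a0 (hi l1)) fun y =>
      k l1 x l2 a1 y a2
  | _ + 1, true => force (hm (hm (hi l1) l2) l1) fun x => force (hm a2 l1) fun y =>
      k l0 x l1 a0 y a1
  | _ + 1, false => force (hm (hm l2 l1) (hi l2)) fun x => force (hm a1 (hi l2)) fun y =>
      k l0 l2 x a0 a2 y

/-- a braid word, on codes -/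
def runN {α : Type} (w : List (Fin 2 × Bool)) (l0 l1 l2 a0 a1 a2 : ℕ)
    (k : ℕ → ℕ → ℕ → ℕ → ℕ → ℕ → α) : α :=
  match w with
  | [] => k l0 l1 l2 a0 a1 a2
  | g :: w => stepN g l0 l1 l2 a0 a1 a2 fun l0 l1 l2 a0 a1 a2 => runN w l0 l1 l2 a0 a1 a2 k

theorem runN_eq {α O : Type} (w : Braid 2) (s : Fin 3 → Strand H O)
    (k : ℕ → ℕ → ℕ → ℕ → ℕ → ℕ → α) :
    runN w (s 0).lab.code (s 1).lab.code (s 2).lab.code (s 0).acc.code (s 1).acc.code
      (s 2).acc.code k =
    k (run w s 0).lab.code (run w s 1).lab.code (run w s 2).lab.code (run w s 0).acc.code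
      (run w s 1).acc.code (run w s 2).acc.code := by
  induction w generalizing s with
  | nil => rfl
  | cons g w ih =>
    rw [run_cons, runN, ← ih (crossing g s)]
    rcases g with ⟨j, b⟩
    fin_cases j <;> cases b <;> simp only [stepN, force_eq] <;> rfl

/-- the three patterns: the word, whether the distinguished strand is the last one, and the order in
which the accumulated elements are multiplied -/
def resN (w : List (Fin 2 × Bool)) (L : ℕ → ℕ → ℕ → ℕ) (x y z a : ℕ) : ℕ :=
  runN w x y z 0 0 0 fun l0 l1 l2 a0 a1 a2 =>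
    if l0 = x ∧ l1 = y ∧ l2 = z then
      (if hm (L a0 a1 a2) (hm a a) = 0 then 1 else 2) else 0

/-- sum over `i < n` -/
def sumTo (n : ℕ) (f : ℕ → ℕ) : ℕ :=
  match n with
  | 0 => 0
  | n + 1 => f n + sumTo n f

theorem sumTo_eq (n : ℕ) (f : ℕ → ℕ) : sumTo n f = ∑ i ∈ Finset.range n, f i := by
  induction n with
  | zero => rfl
  | succ n ih => rw [sumTo, Finset.sum_range_succ, ih, add_comm]

/-- all `i < n` -/
def allTo (n : ℕ) (f : ℕ → Bool) : Bool :=
  match n with
  | 0 => true
  | n + 1 => f n && allTo n f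

theorem allTo_eq (n : ℕ) (f : ℕ → Bool) : allTo n f = true ↔ ∀ i < n, f i = true := by
  induction n with
  | zero => simp [allTo]
  | succ n ih =>
    rw [allTo, Bool.and_eq_true, ih]
    constructor
    · rintro ⟨h1, h2⟩ i hi
      rcases Nat.lt_succ_iff_lt_or_eq.1 hi with h | h
      · exact h2 i h
      · rw [h]; exact h1
    · intro h
      exact ⟨h n (Nat.lt_succ_self n), fun i hi => h i (Nat.lt_succ_of_lt hi)⟩

/-- the representatives of the conjugacy classes, with the classes as bit masks -/
def reps : List (ℕ × ℕ) := [(0, 1), (1, 254), (8, 1095233437440), (24, 72056498804490240),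
  (56, 3111588175713502245696417493417984), (57, 2080708682821325310776484797874176),
  (112, 75653250081172962524102982287415383005890623832064),
  (113, 298491169075538179343743476353125441495531777949696)]

theorem reps_conj : ∀ a < 168, ∃ g < 168, hm (hm g a) (hi g) ∈ reps.map Prod.fst := by
  decide +kernel

theorem reps_mask : ∀ r ∈ reps, ∀ g < 168, r.2.testBit (hm (hm g r.1) (hi g)) = true := by
  decide +kernel

/-- one value: `0` if the closure condition fails, `1` if moreover the longitude is as it should be -/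
def wtN (n : ℕ) : ℕ := if n = 0 then 0 else if n = 1 then 1 else 1000000

/-- the number of solutions with the given distinguished meridian, a solution with the wrong longitude
being counted `1000000` times; `t` tells the position of the distinguished meridian: first (`true`) or
last (`false`) -/
def valN (w : List (Fin 2 × Bool)) (t : Bool) (L : ℕ → ℕ → ℕ → ℕ) (a mask : ℕ) : ℕ :=
  sumTo 168 fun i => if mask.testBit i then (sumTo 168 fun j => if mask.testBit j then
    wtN (if t then resN w L a i j a else resN w L i j a a) else 0) else 0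

/-- `acc_0 (acc_1 acc_2)` -/
def L0 (a0 a1 a2 : ℕ) : ℕ := hm a0 (hm a1 a2)
/-- `acc_1 (acc_2 acc_0)` -/
def L1 (a0 a1 a2 : ℕ) : ℕ := hm a1 (hm a2 a0)
/-- `acc_2 (acc_1 acc_0)` -/
def L2 (a0 a1 a2 : ℕ) : ℕ := hm a2 (hm a1 a0)

end Pool.Agent.W616
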