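import Mathlib

/-!
# The group of order 168 of the affine semilinear maps of the field with 8 elements

An element is coded by the natural number `8 q + v < 168`: here `q < 21` codes a semilinear bijection of
the field and `v < 8` a translation.
-/

set_option autoImplicit false

namespace Pool.Agent.W616

/-- multiplication table of the group of order 21 -/
def qtab : ℕ := 1731168573243069384787267430686477454286707162526476608762482197517725179811733705607106978423527431638180978836167076448367530197991659046032615010225144976370943796169549410610073554147396554893745996071638639092211038716534317093010661396143167595205200138702491502209501235235976963445604390628868579911936557784847671931200884169214053023352106568466344917398890283615898932852569415238581963345360555572953304084625646139657138711811283616148281446677204419629996348016108898954869444590245067457672549711158235527792684573019314392687432768611702404176316136693125343376639557838931718401310242952263977827303698603323471286501236242047634308338956879628320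

/-- table of inverses in the group of order 21 -/
def qitab : ℕ := 11861025552954649499302636950720

/-- table of the action of the group of order 21 on the field with 8 elements -/
def atab : ℕ := 47896440986191149210418907055594686631758453137099537867056761127874750688348373646667385598571661623998218336905313160419690848967805346295990638528136

/-- multiplication in the group of order 21 -/
def qm (a b : ℕ) : ℕ := (qtab >>> (5 * (21 * a + b))) % 32

/-- inverses in the group of order 21 -/
def qi (a : ℕ) : ℕ := (qitab >>> (5 * a)) % 32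

/-- the action -/
def qa (q v : ℕ) : ℕ := (atab >>> (3 * (8 * q + v))) % 8

/-- multiplication of codes -/
def hm (a b : ℕ) : ℕ := 8 * qm (a / 8) (b / 8) + (a % 8 ^^^ qa (a / 8) (b % 8))

/-- inversion of codes -/
def hi (a : ℕ) : ℕ := 8 * qi (a / 8) + qa (qi (a / 8)) (a % 8)

theorem qm_lt : ∀ a < 21, ∀ b < 21, qm a b < 21 := by decide +kernel
theorem qi_lt : ∀ a < 21, qi a < 21 := by decide +kernel
theorem qm_assoc : ∀ a < 21, ∀ b < 21, ∀ c < 21, qm (qm a b) c = qm a (qm b c) := by decide +kernel
theorem qa_mul : ∀ a < 21, ∀ b < 21, ∀ v < 8, qa (qm a b) v = qa a (qa b v) := by decide +kernel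
theorem qa_xor : ∀ a < 21, ∀ v < 8, ∀ w < 8, qa a (v ^^^ w) = qa a v ^^^ qa a w := by decide +kernel
theorem qa_lt (a v : ℕ) : qa a v < 8 := Nat.mod_lt _ (by norm_num)
theorem xor_lt8 {v w : ℕ} (h : v < 8) (h' : w < 8) : v ^^^ w < 8 :=
  Nat.xor_lt_two_pow (n := 3) h h'

theorem hm_lt {a b : ℕ} (ha : a < 168) (hb : b < 168) : hm a b < 168 := by
  have h1 := qm_lt (a / 8) (by omega) (b / 8) (by omega)
  have h2 : a % 8 ^^^ qa (a / 8) (b % 8) < 8 := xor_lt8 (by omega) (qa_lt _ _)
  simp only [hm]
  omega

theorem hi_lt {a : ℕ} (ha : a < 168) : hi a < 168 := by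
  have h1 := qi_lt (a / 8) (by omega)
  have h2 := qa_lt (qi (a / 8)) (a % 8)
  simp only [hi]
  omega

theorem hm_div (a b : ℕ) : hm a b / 8 = qm (a / 8) (b / 8) := by
  have h2 : a % 8 ^^^ qa (a / 8) (b % 8) < 8 := xor_lt8 (by omega) (qa_lt _ _)
  simp only [hm]
  omega

theorem hm_mod (a b : ℕ) : hm a b % 8 = a % 8 ^^^ qa (a / 8) (b % 8) := by
  have h2 : a % 8 ^^^ qa (a / 8) (b % 8) < 8 := xor_lt8 (by omega) (qa_lt _ _)
  simp only [hm]
  omega

theorem hm_assoc {a b c : ℕ} (ha : a < 168) (hb : b < 168) (hc : c < 168) :
    hm (hm a b) c = hm a (hm b c) := by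
  have h1 : hm (hm a b) c / 8 = hm a (hm b c) / 8 := by
    rw [hm_div, hm_div, hm_div, hm_div]
    exact qm_assoc _ (by omega) _ (by omega) _ (by omega)
  have h2 : hm (hm a b) c % 8 = hm a (hm b c) % 8 := by
    rw [hm_mod, hm_mod, hm_mod, hm_mod, hm_div,
      qa_mul _ (by omega) _ (by omega) _ (by omega),
      qa_xor _ (by omega) _ (by omega) _ (qa_lt _ _), Nat.xor_assoc]
  omega

/-- The group of order 168. -/
structure H where
  /-- the code -/
  code : ℕ
  lt : code < 168

theorem H.ext' {a b : H} (h : a.code = b.code) : a = b := by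
  cases a; cases b; cases h; rfl

instance : DecidableEq H := fun a b =>
  decidable_of_iff (a.code = b.code) ⟨H.ext', fun h => by rw [h]⟩

theorem hm_one : ∀ a < 168, hm a 0 = a := by decide +kernel
theorem one_hm : ∀ a < 168, hm 0 a = a := by decide +kernel
theorem hi_hm : ∀ a < 168, hm (hi a) a = 0 := by decide +kernel

instance : Mul H := ⟨fun a b => ⟨hm a.code b.code, hm_lt a.lt b.lt⟩⟩
instance : One H := ⟨⟨0, by norm_num⟩⟩
instance : Inv H := ⟨fun a => ⟨hi a.code, hi_lt a.lt⟩⟩

instance : Group H :=
  Group.ofLeftAxioms (fun a b c => H.ext' (hm_assoc a.lt b.lt c.lt))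
    (fun a => H.ext' (one_hm _ a.lt)) (fun a => H.ext' (hi_hm _ a.lt))

theorem code_mul (a b : H) : (a * b).code = hm a.code b.code := rfl
theorem code_inv (a : H) : (a⁻¹).code = hi a.code := rfl
theorem code_one : (1 : H).code = 0 := rfl

/-- codes -/
def codeEquiv : H ≃ Fin 168 where
  toFun a := ⟨a.code, a.lt⟩
  invFun i := ⟨i.1, i.2⟩
  left_inv _ := rfl
  right_inv _ := rfl

instance : Fintype H := Fintype.ofEquiv _ codeEquiv.symm

end Pool.Agent.W616
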