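import Pool.Agent.W616.HCount

/-!
# From the counts on codes to counts of solutions
-/

set_option autoImplicit false
set_option linter.unusedSectionVars false

namespace Pool.Agent.W616

open QModule (l3 r3 l3_inj r3_inj)

/-! ### Conjugacy -/

theorem closed_conj {G : Type*} [Group G] {m : ℕ} (w : Braid m) (x : Fin (m + 1) → G)
    (h : Closed w x) (t : ℕ) (p : Fin (m + 1)) : IsConj (x ((perm w)^[t] p)) (x p) := by
  induction t with
  | zero => exact IsConj.refl _
  | succ t ih =>
    refine IsConj.trans ?_ ih
    rw [Function.iterate_succ_apply']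
    have h1 := labs_conj w x ((perm w)^[t] p)
    rw [h] at h1
    exact isConj_iff.2 ⟨(accs w x ((perm w)^[t] p))⁻¹, by rw [inv_inv]; exact h1.symm⟩

/-- the permutation of `w` is transitive -/
def Trans3 (w : Braid 2) : Prop := ∀ b p : Fin 3, ∃ t : Fin 3, (perm w)^[t.1] p = b

instance (w : Braid 2) : Decidable (Trans3 w) := by unfold Trans3; infer_instance

theorem trans_wordK : Trans3 wordK := by decide
theorem trans_reverse : Trans3 wordK.reverse := by decide

theorem closed_isConj {G : Type*} [Group G] (w : Braid 2) (hw : Trans3 w) (x : Fin 3 → G)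
    (h : Closed w x) (b p : Fin 3) : ∃ g : G, x p = g * x b * g⁻¹ := by
  obtain ⟨t, ht⟩ := hw b p
  have := closed_conj w x h t p
  rw [ht] at this
  obtain ⟨g, hg⟩ := isConj_iff.1 this
  exact ⟨g, hg.symm⟩

/-! ### The number of solutions with a given meridian -/

/-- solutions with a given distinguished meridian -/
abbrev Sol (w : Braid 2) (b : Fin 3) (a : H) : Type := {x : Fin 3 → H // Closed w x ∧ x b = a}

theorem card_Sol_conj (w : Braid 2) (b : Fin 3) (a g : H) :
    Nat.card (Sol w b (g * a * g⁻¹)) = Nat.card (Sol w b a) := by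
  refine Nat.card_congr
    { toFun := fun x => ⟨fun p => g⁻¹ * x.1 p * g⁻¹⁻¹, ?_, ?_⟩
      invFun := fun x => ⟨fun p => g * x.1 p * g⁻¹, ?_, ?_⟩
      left_inv := ?_
      right_inv := ?_ }
  · exact (closed_map_conj g⁻¹ w x.1).2 x.2.1
  · change g⁻¹ * x.1 b * g⁻¹⁻¹ = a
    rw [x.2.2]; group
  · exact (closed_map_conj g w x.1).2 x.2.1
  · change g * x.1 b * g⁻¹ = g * a * g⁻¹
    rw [x.2.2]
  · intro x
    apply Subtype.ext
    funext p
    simp only
    group
  · intro x
    apply Subtype.ext
    funext p
    simp only
    group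

/-- the position of the distinguished strand -/
def base (t : Bool) : Fin 3 := if t then 0 else 2

/-- a triple from the distinguished element and the two others -/
def pt (t : Bool) (a i j : H) : Fin 3 → H := if t then ![a, i, j] else ![i, j, a]

/-- solutions as pairs -/
def solEquiv (w : Braid 2) (t : Bool) (a : H) :
    Sol w (base t) a ≃ {p : H × H // Closed w (pt t a p.1 p.2)} where
  toFun x := ⟨if t then (x.1 1, x.1 2) else (x.1 0, x.1 1), by
    have h : pt t a (if t then (x.1 1, x.1 2) else (x.1 0, x.1 1)).1
        (if t then (x.1 1, x.1 2) else (x.1 0, x.1 1)).2 = x.1 := by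
      have h2 := x.2.2
      funext p
      cases t
      · have h3 : x.1 2 = a := h2
        fin_cases p
        · rfl
        · rfl
        · exact h3.symm
      · have h3 : x.1 0 = a := h2
        fin_cases p
        · exact h3.symm
        · rfl
        · rfl
    rw [h]
    exact x.2.1⟩
  invFun p := ⟨pt t a p.1.1 p.1.2, p.2, by cases t <;> rfl⟩
  left_inv x := by
    apply Subtype.ext
    have h2 := x.2.2
    funext p
    cases t
    · have h3 : x.1 2 = a := h2
      fin_cases p
      · rfl
      · rfl
      · exact h3.symm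
    · have h3 : x.1 0 = a := h2
      fin_cases p
      · exact h3.symm
      · rfl
      · rfl
  right_inv p := by
    apply Subtype.ext
    cases t <;> rfl

theorem code_eq_zero (a : H) : a.code = 0 ↔ a = 1 := by
  constructor
  · intro h; exact H.ext' h
  · rintro rfl; rfl

theorem resN_eq (w : Braid 2) (L : ℕ → ℕ → ℕ → ℕ) (x : Fin 3 → H) (a : H) :
    resN w L (x 0).code (x 1).code (x 2).code a.code =
      open Classical in if Closed w x then
        (if hm (L (accs w x 0).code (accs w x 1).code (accs w x 2).code) (hm a.code a.code) = 0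
          then 1 else 2) else 0 := by
  have h := runN_eq w (fresh x) (fun l0 l1 l2 a0 a1 a2 =>
    if l0 = (x 0).code ∧ l1 = (x 1).code ∧ l2 = (x 2).code then
      (if hm (L a0 a1 a2) (hm a.code a.code) = 0 then 1 else 2) else 0)
  rw [resN]
  refine Eq.trans h ?_
  have hc : ((run w (fresh x) 0).lab.code = (x 0).code ∧ (run w (fresh x) 1).lab.code = (x 1).code ∧
      (run w (fresh x) 2).lab.code = (x 2).code) ↔ Closed w x := by
    constructor
    · rintro ⟨h0, h1, h2⟩ p
      fin_cases p
      · exact H.ext' h0
      · exact H.ext' h1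
      · exact H.ext' h2
    · intro h
      exact ⟨congrArg H.code (h 0), congrArg H.code (h 1), congrArg H.code (h 2)⟩
  by_cases h1 : Closed w x
  · rw [if_pos (hc.2 h1), if_pos h1]
    rfl
  · rw [if_neg (fun h2 => h1 (hc.1 h2)), if_neg h1]

theorem sum_H (F : ℕ → ℕ) : sumTo 168 F = ∑ i : H, F i.code := by
  rw [sumTo_eq, Finset.sum_range]
  exact (codeEquiv.sum_comp (fun i : Fin 168 => F i)).symm

theorem valN_eq (w : Braid 2) (t : Bool) (L : ℕ → ℕ → ℕ → ℕ) (a : H) (mask : ℕ) :
    valN w t L a.code mask = ∑ i : H, ∑ j : H,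
      if mask.testBit i.code ∧ mask.testBit j.code then
        wtN (resN w L (pt t a i j 0).code (pt t a i j 1).code (pt t a i j 2).code a.code) else 0 := by
  rw [valN, sum_H]
  refine Finset.sum_congr rfl fun i _ => ?_
  by_cases hi : mask.testBit i.code = true
  · rw [if_pos hi, sum_H]
    refine Finset.sum_congr rfl fun j _ => ?_
    by_cases hj : mask.testBit j.code = true
    · rw [if_pos hj]
      refine Eq.trans ?_ (if_pos (And.intro hi hj)).symm
      cases t <;> rfl
    · rw [if_neg hj, if_neg (fun h => hj h.2)]
  · rw [if_neg hi]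
    symm
    apply Finset.sum_eq_zero
    intro j _
    rw [if_neg (fun h => hi h.1)]

/-- What a value below `1000000` says. -/
theorem val_spec (w : Braid 2) (t : Bool) (L : ℕ → ℕ → ℕ → ℕ) (a : H) (mask : ℕ)
    (hmask : ∀ x, Closed w x → x (base t) = a → ∀ p, mask.testBit (x p).code = true)
    (hv : valN w t L a.code mask < 1000000) :
    (∀ x, Closed w x → x (base t) = a →
      hm (L (accs w x 0).code (accs w x 1).code (accs w x 2).code) (hm a.code a.code) = 0) ∧
    Nat.card (Sol w (base t) a) = valN w t L a.code mask := by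
  classical
  have hb : ∀ i j, Closed w (pt t a i j) → mask.testBit i.code ∧ mask.testBit j.code := by
    intro i j h
    have := hmask _ h (by cases t <;> rfl)
    cases t
    · exact ⟨this 0, this 1⟩
    · exact ⟨this 1, this 2⟩
  have hterm : ∀ i j : H, (if mask.testBit i.code ∧ mask.testBit j.code then
        wtN (resN w L (pt t a i j 0).code (pt t a i j 1).code (pt t a i j 2).code a.code) else 0)
      ≤ valN w t L a.code mask := by
    intro i j
    rw [valN_eq]
    refine le_trans ?_ (Finset.single_le_sum (f := fun i : H => ∑ j : H,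
      if mask.testBit i.code ∧ mask.testBit j.code then
        wtN (resN w L (pt t a i j 0).code (pt t a i j 1).code (pt t a i j 2).code a.code) else 0)
      (fun _ _ => Nat.zero_le _) (Finset.mem_univ i))
    exact Finset.single_le_sum (f := fun j : H =>
      if mask.testBit i.code ∧ mask.testBit j.code then
        wtN (resN w L (pt t a i j 0).code (pt t a i j 1).code (pt t a i j 2).code a.code) else 0)
      (fun _ _ => Nat.zero_le _) (Finset.mem_univ j)
  have hgood : ∀ i j, Closed w (pt t a i j) →
      hm (L (accs w (pt t a i j) 0).code (accs w (pt t a i j) 1).code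
        (accs w (pt t a i j) 2).code) (hm a.code a.code) = 0 := by
    intro i j h
    by_contra hne
    have h1 := hterm i j
    rw [if_pos (hb i j h), resN_eq, if_pos h, if_neg hne] at h1
    have : wtN 2 = 1000000 := rfl
    omega
  constructor
  · intro x hx hxa
    have hx2 : pt t a ((solEquiv w t a ⟨x, hx, hxa⟩).1.1) ((solEquiv w t a ⟨x, hx, hxa⟩).1.2) = x :=
      congrArg Subtype.val ((solEquiv w t a).left_inv ⟨x, hx, hxa⟩)
    have := hgood _ _ (by rw [hx2]; exact hx)
    rw [hx2] at this
    exact this
  · rw [Nat.card_congr (solEquiv w t a), Nat.card_eq_fintype_card, Fintype.card_subtype,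
      Finset.card_filter, Fintype.sum_prod_type, valN_eq]
    refine Finset.sum_congr rfl fun i _ => Finset.sum_congr rfl fun j _ => ?_
    by_cases h : Closed w (pt t a i j)
    · rw [if_pos h, if_pos (hb i j h), resN_eq, if_pos h, if_pos (hgood i j h)]
      rfl
    · rw [if_neg h]
      symm
      split_ifs with h2
      · rw [resN_eq, if_neg h]
        rfl
      · rfl

/-! ### All elements, from the representatives -/

/-- the index of the conjugacy class of an element -/
def cls (a : ℕ) : ℕ := (reps.findIdx fun r => r.2.testBit a)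

theorem cls_conj : ∀ a < 168, ∃ g < 168, (reps.getD (cls a) (0, 0)).1 = hm (hm g a) (hi g) := by
  decide +kernel

theorem cls_lt : ∀ a < 168, cls a < 8 := by decide +kernel

theorem repsD_mask : ∀ k < 8, ∀ g < 168,
    (reps.getD k (0, 0)).2.testBit (hm (hm g (reps.getD k (0, 0)).1) (hi g)) = true := by
  decide +kernel

theorem repsD_lt : ∀ k < 8, (reps.getD k (0, 0)).1 < 168 := by decide +kernel

/-- the solutions, when the values on the representatives are known -/
theorem all_spec (w : Braid 2) (hw : Trans3 w) (t : Bool) (L : ℕ → ℕ → ℕ → ℕ) (vs : List ℕ)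
    (hL : ∀ x : Fin 3 → H, L (accs w x 0).code (accs w x 1).code (accs w x 2).code =
      (longAux w x (base t) 3).code)
    (hvs : ∀ k < 8, vs.getD k 0 < 1000000)
    (hval : reps.map (fun r => valN w t L r.1 r.2) = vs) (a : H) :
    (∀ x, Closed w x → x (base t) = a → longAux w x (base t) 3 * (a * a) = 1) ∧
    Nat.card (Sol w (base t) a) = vs.getD (cls a.code) 0 := by
  obtain ⟨g, hg, hga⟩ := cls_conj a.code a.lt
  have hk := cls_lt a.code a.lt
  let k := cls a.code
  let r : H := ⟨(reps.getD k (0, 0)).1, repsD_lt k hk⟩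
  let gg : H := ⟨g, hg⟩
  have hr : r = gg * a * gg⁻¹ := H.ext' hga
  have hvk : valN w t L r.code (reps.getD k (0, 0)).2 = vs.getD k 0 := by
    have hlen : k < reps.length := hk
    change valN w t L (reps.getD k (0, 0)).1 (reps.getD k (0, 0)).2 = _
    rw [← hval, List.getD_eq_getElem (List.map _ _) _ (by simpa using hlen), List.getElem_map,
      List.getD_eq_getElem _ _ hlen]
  have hmask : ∀ x, Closed w x → x (base t) = r →
      ∀ p, (reps.getD k (0, 0)).2.testBit (x p).code = true := by
    intro x hx hxr p
    obtain ⟨h, hh⟩ := closed_isConj w hw x hx (base t) p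
    rw [hh, hxr]
    exact repsD_mask k hk h.code h.lt
  obtain ⟨h1, h2⟩ := val_spec w t L r _ hmask (by rw [hvk]; exact hvs k hk)
  constructor
  · intro x hx hxa
    have hx' : Closed w (fun p => gg * x p * gg⁻¹) := (closed_map_conj gg w x).2 hx
    have h3 := h1 _ hx' (by rw [hxa, hr])
    rw [hL] at h3
    have h4 : longAux w (fun p => gg * x p * gg⁻¹) (base t) 3 * (r * r) = 1 :=
      (code_eq_zero _).1 h3
    have h5 : longAux w (fun p => gg * x p * gg⁻¹) (base t) 3 =
        gg * longAux w x (base t) 3 * gg⁻¹ :=
      longAux_map (MulAut.conj gg).toMonoidHom w x (base t) 3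
    rw [h5, hr] at h4
    have h6 : gg * (longAux w x (base t) 3 * (a * a)) * gg⁻¹ = 1 := by
      rw [← h4]; group
    have h7 := congrArg (fun z => gg⁻¹ * z * gg) h6
    have h8 : gg⁻¹ * (gg * (longAux w x (base t) 3 * (a * a)) * gg⁻¹) * gg =
      longAux w x (base t) 3 * (a * a) := by group
    refine h8.symm.trans (h7.trans ?_)
    group
  · rw [← hvk, ← h2, hr, card_Sol_conj]

end Pool.Agent.W616
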