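import Pool.Agent.W616.HCount

/-!
# Counting, part 0
-/

set_option autoImplicit false

namespace Pool.Agent.W616

set_option maxRecDepth 100000 in
theorem val0 : reps.map (fun r => valN wordK false L0 r.1 r.2) = [1, 1, 8, 8, 28, 28, 16, 16] := by decide +kernel

end Pool.Agent.W616
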