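import Pool.Agent.W616.HCount

/-!
# Counting, part 2
-/

set_option autoImplicit false

namespace Pool.Agent.W616

set_option maxRecDepth 100000 in
theorem val2 : reps.map (fun r => valN (List.reverse wordK) true L2 r.1 r.2) = [1, 1, 8, 8, 16, 16, 28, 28] := by decide +kernel

end Pool.Agent.W616
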