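import Pool.Agent.W616.HSpec
import Pool.Agent.W616.HVal0
import Pool.Agent.W616.HVal1
import Pool.Agent.W616.HVal2

/-!
# The number of homomorphisms to the group of order 168
-/

set_option autoImplicit false
set_option linter.unusedSectionVars false

namespace Pool.Agent.W616

open QModule (l3 r3 l3_inj r3_inj)

theorem long0 (x : Fin 3 → H) : L0 (accs wordK x 0).code (accs wordK x 1).code
    (accs wordK x 2).code = (longAux wordK x (base false) 3).code := by
  have f0 : (perm wordK)^[0] (base false) = 2 := rfl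
  have f1 : (perm wordK)^[1] (base false) = 1 := by decide
  have f2 : (perm wordK)^[2] (base false) = 0 := by decide
  rw [longAux_succ, longAux_succ, longAux_succ, longAux_zero, f0, f1, f2, mul_one]
  rfl

theorem long1 (x : Fin 3 → H) : L1 (accs wordK x 0).code (accs wordK x 1).code
    (accs wordK x 2).code = (longAux wordK x (base true) 3).code := by
  have f0 : (perm wordK)^[0] (base true) = 0 := rfl
  have f1 : (perm wordK)^[1] (base true) = 2 := by decide
  have f2 : (perm wordK)^[2] (base true) = 1 := by decide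
  rw [longAux_succ, longAux_succ, longAux_succ, longAux_zero, f0, f1, f2, mul_one]
  rfl

theorem long2 (x : Fin 3 → H) : L2 (accs wordK.reverse x 0).code (accs wordK.reverse x 1).code
    (accs wordK.reverse x 2).code = (longAux wordK.reverse x (base true) 3).code := by
  have f0 : (perm wordK.reverse)^[0] (base true) = 0 := rfl
  have f1 : (perm wordK.reverse)^[1] (base true) = 1 := by decide
  have f2 : (perm wordK.reverse)^[2] (base true) = 2 := by decide
  rw [longAux_succ, longAux_succ, longAux_succ, longAux_zero, f0, f1, f2, mul_one]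
  rfl

/-- the numbers of solutions for `K` -/
def vK : List ℕ := [1, 1, 8, 8, 28, 28, 16, 16]
/-- the numbers of solutions for the reverse of `K` -/
def vR : List ℕ := [1, 1, 8, 8, 16, 16, 28, 28]

theorem spec0 (a : H) : (∀ x, Closed wordK x → x 2 = a → longAux wordK x 2 3 * (a * a) = 1) ∧
    Nat.card (Sol wordK 2 a) = vK.getD (cls a.code) 0 :=
  all_spec wordK trans_wordK false L0 vK long0 (by decide) val0 a

theorem spec1 (a : H) : (∀ x, Closed wordK x → x 0 = a → longAux wordK x 0 3 * (a * a) = 1) ∧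
    Nat.card (Sol wordK 0 a) = vK.getD (cls a.code) 0 :=
  all_spec wordK trans_wordK true L1 vK long1 (by decide) val1 a

theorem spec2 (a : H) : (∀ x, Closed wordK.reverse x → x 0 = a →
      longAux wordK.reverse x 0 3 * (a * a) = 1) ∧
    Nat.card (Sol wordK.reverse 0 a) = vR.getD (cls a.code) 0 :=
  all_spec wordK.reverse trans_reverse true L2 vR long2 (by decide) val2 a

/-- solutions for the sum, from solutions for the summands -/
def glue (a : H) (y z : Fin 3 → H) : Fin 5 → H := ![y 0, y 1, a, z 1, z 2]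

theorem glue_l (a : H) (y z : Fin 3 → H) (h : y 2 = a) : (fun q => glue a y z (l3 q)) = y := by
  funext q
  fin_cases q
  · rfl
  · rfl
  · exact h.symm

theorem glue_r (a : H) (y z : Fin 3 → H) (h : z 0 = a) : (fun q => glue a y z (r3 q)) = z := by
  funext q
  fin_cases q
  · exact h.symm
  · rfl
  · rfl

theorem cube_eq (a l1 l2 : H) (h1 : l1 * (a * a) = 1) (h2 : l2 * (a * a) = 1) :
    a ^ (7 : ℤ) * (l1 * l2) = a * a * a := by
  have e1 : l1 = (a * a)⁻¹ := eq_inv_of_mul_eq_one_left h1
  have e2 : l2 = (a * a)⁻¹ := eq_inv_of_mul_eq_one_left h2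
  rw [e1, e2]
  group
  exact pow_succ' a 2 |>.trans (by rw [pow_two]; group)

/-- what we need to know about the second summand -/
structure Good (w : Braid 2) : Prop where
  hw : writhe (left3 wordK ++ right3 w) = -4
  hlong : ∀ x : Fin 5 → H, Closed wordK (fun q => x (l3 q)) →
      longAux (left3 wordK ++ right3 w) x 2 5 = longAux wordK (fun q => x (l3 q)) 2 3 *
        longAux w (fun q => x (r3 q)) 0 3
  h1 : ∀ (x : Fin 3 → H) (a : H), Closed wordK x → x 2 = a → longAux wordK x 2 3 * (a * a) = 1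
  h2 : ∀ (x : Fin 3 → H) (a : H), Closed w x → x 0 = a → longAux w x 0 3 * (a * a) = 1

theorem rel_iff (w : Braid 2) (hg : Good w) (x : Fin 5 → H) (a : H) (ha : x 2 = a)
    (hc1 : Closed wordK (fun q => x (l3 q))) (hc2 : Closed w (fun q => x (r3 q))) :
    x 2 ^ (3 - writhe (left3 wordK ++ right3 w)) *
      longAux (left3 wordK ++ right3 w) x 2 (4 + 1) = a * a * a := by
  have e1 : (fun q => x (l3 q)) 2 = a := ha
  have e2 : (fun q => x (r3 q)) 0 = a := ha
  have h1 := hg.h1 _ a hc1 e1
  have h2 := hg.h2 _ a hc2 e2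
  have h3 : longAux (left3 wordK ++ right3 w) x 2 (4 + 1) =
    longAux wordK (fun q => x (l3 q)) 2 3 * longAux w (fun q => x (r3 q)) 0 3 := hg.hlong x hc1
  rw [h3, hg.hw, ha]
  exact cube_eq a _ _ h1 h2

/-- the solutions for the surgery on the sum -/
abbrev SolSum (w : Braid 2) : Type := {x : Fin 5 → H // Closed (left3 wordK ++ right3 w) x ∧
  x 2 ^ (3 - writhe (left3 wordK ++ right3 w)) *
    longAux (left3 wordK ++ right3 w) x 2 (4 + 1) = 1}

/-- the solutions for the surgery on the sum, from those for the summands -/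
def sumEquiv (w : Braid 2) (hg : Good w) :
    SolSum w ≃ Σ a : {a : H // a * a * a = 1}, Sol wordK 2 a.1 × Sol w 0 a.1 where
  toFun x :=
    ⟨⟨x.1 2, (rel_iff w hg x.1 (x.1 2) rfl ((closed_sum wordK w x.1).1 x.2.1).1
        ((closed_sum wordK w x.1).1 x.2.1).2).symm.trans x.2.2⟩,
      ⟨fun q => x.1 (l3 q), ((closed_sum wordK w x.1).1 x.2.1).1, rfl⟩,
      ⟨fun q => x.1 (r3 q), ((closed_sum wordK w x.1).1 x.2.1).2, rfl⟩⟩
  invFun s :=
    have hl := glue_l s.1.1 s.2.1.1 s.2.2.1 s.2.1.2.2
    have hr := glue_r s.1.1 s.2.1.1 s.2.2.1 s.2.2.2.2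
    have hc1 : Closed wordK (fun q => glue s.1.1 s.2.1.1 s.2.2.1 (l3 q)) := by
      rw [hl]; exact s.2.1.2.1
    have hc2 : Closed w (fun q => glue s.1.1 s.2.1.1 s.2.2.1 (r3 q)) := by
      rw [hr]; exact s.2.2.2.1
    ⟨glue s.1.1 s.2.1.1 s.2.2.1, (closed_sum wordK w _).2 ⟨hc1, hc2⟩,
      (rel_iff w hg _ s.1.1 rfl hc1 hc2).trans s.1.2⟩
  left_inv x := by
    apply Subtype.ext
    funext p
    fin_cases p <;> rfl
  right_inv s := by
    have el : (fun q => glue s.1.1 s.2.1.1 s.2.2.1 (l3 q)) = s.2.1.1 := glue_l _ _ _ s.2.1.2.2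
    have er : (fun q => glue s.1.1 s.2.1.1 s.2.2.1 (r3 q)) = s.2.2.1 := glue_r _ _ _ s.2.2.2.2
    exact Sigma.ext rfl (heq_of_eq (Prod.ext (Subtype.ext el) (Subtype.ext er)))

theorem card_sum (w : Braid 2) (hg : Good w)
    (v1 v2 : List ℕ) (c1 : ∀ a : H, Nat.card (Sol wordK 2 a) = v1.getD (cls a.code) 0)
    (c2 : ∀ a : H, Nat.card (Sol w 0 a) = v2.getD (cls a.code) 0) :
    Nat.card (pi1 (left3 wordK ++ right3 w) 2 3 →* H) = sumTo 168 fun a =>
      if hm (hm a a) a = 0 then v1.getD (cls a) 0 * v2.getD (cls a) 0 else 0 := by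
  classical
  rw [Nat.card_congr (homEquiv (left3 wordK ++ right3 w) 2 3),
    Nat.card_congr (sumEquiv w hg), Nat.card_sigma]
  simp only [Nat.card_prod, c1, c2]
  rw [sum_H]
  have e : ∀ a : H, hm (hm a.code a.code) a.code = 0 ↔ a * a * a = 1 := fun a =>
    (code_eq_zero (a * a * a))
  simp only [e]
  rw [← Finset.sum_filter]
  exact (Finset.sum_subtype _ (fun x => by simp)
    (fun a : H => v1.getD (cls a.code) 0 * v2.getD (cls a.code) 0)).symm

theorem good_K : Good wordK where
  hw := by decide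
  hlong := fun x h => long_KK x h
  h1 := fun x a h ha => (spec0 a).1 x h ha
  h2 := fun x a h ha => (spec1 a).1 x h ha

theorem good_R : Good wordK.reverse where
  hw := by decide
  hlong := fun x h => long_KrK x h
  h1 := fun x a h ha => (spec0 a).1 x h ha
  h2 := fun x a h ha => (spec2 a).1 x h ha

theorem card_KK : Nat.card (pi1 sumKK 2 3 →* H) = 29121 := by
  rw [sumKK, card_sum wordK good_K vK vK (fun a => (spec0 a).2) (fun a => (spec1 a).2)]
  decide +kernel

theorem card_KrK : Nat.card (pi1 sumKrK 2 3 →* H) = 25089 := by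
  rw [sumKrK, card_sum wordK.reverse good_R vK vR (fun a => (spec0 a).2) (fun a => (spec2 a).2)]
  decide +kernel

/-- The two fundamental groups are not isomorphic. -/
theorem pi1_not_iso : IsEmpty (pi1 sumKK 2 3 ≃* pi1 sumKrK 2 3) := by
  constructor
  intro e
  have h : Nat.card (pi1 sumKK 2 3 →* H) = Nat.card (pi1 sumKrK 2 3 →* H) :=
    Nat.card_congr e.monoidHomCongrLeftEquiv
  rw [card_KK, card_KrK] at h
  norm_num at h

end Pool.Agent.W616
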