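import Pool.Agent.W616.QDefs

/-!
# Homomorphisms from the fundamental group of a surgery to a finite group
-/

set_option autoImplicit false
set_option linter.unusedSectionVars false

namespace Pool.Agent.W616

section basic

variable {G G' O O' : Type*} [Group G] [Group G'] {m n : ℕ}

/-- functoriality of strands -/
def Strand.map (φ : G → G') (o : O → O') (s : Strand G O) : Strand G' O' :=
  ⟨φ s.lab, φ s.acc, o s.org⟩

theorem crossing_map (φ : G →* G') (o : O → O') (g : Fin m × Bool)
    (x : Fin (m + 1) → Strand G O) (p : Fin (m + 1)) :
    crossing g (fun q => (x q).map φ o) p = (crossing g x p).map φ o := by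
  simp only [crossing, Strand.map]
  split_ifs <;> simp

theorem run_map (φ : G →* G') (o : O → O') (w : Braid m) (x : Fin (m + 1) → Strand G O) :
    run w (fun q => (x q).map φ o) = fun p => (run w x p).map φ o := by
  induction w generalizing x with
  | nil => rfl
  | cons g w ih =>
    simp only [run, List.foldl_cons] at ih ⊢
    have : crossing g (fun q => (x q).map φ o) = fun p => (crossing g x p).map φ o :=
      funext fun p => crossing_map φ o g x p
    rw [this, ih]

/-- change the accumulated elements and the origins -/
def Strand.shift (A : O → G) (R : O → O') (s : Strand G O) : Strand G O' :=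
  ⟨s.lab, A s.org * s.acc, R s.org⟩

theorem crossing_shift (A : O → G) (R : O → O') (g : Fin m × Bool)
    (x : Fin (m + 1) → Strand G O) (p : Fin (m + 1)) :
    crossing g (fun q => (x q).shift A R) p = (crossing g x p).shift A R := by
  simp only [crossing, Strand.shift]
  split_ifs <;> simp [mul_assoc]

theorem run_shift (A : O → G) (R : O → O') (w : Braid m) (x : Fin (m + 1) → Strand G O) :
    run w (fun q => (x q).shift A R) = fun p => (run w x p).shift A R := by
  induction w generalizing x with
  | nil => rfl
  | cons g w ih =>
    simp only [run, List.foldl_cons] at ih ⊢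
    have : crossing g (fun q => (x q).shift A R) = fun p => (crossing g x p).shift A R :=
      funext fun p => crossing_shift A R g x p
    rw [this, ih]

theorem run_append (w w' : Braid m) (x : Fin (m + 1) → Strand G O) :
    run (w ++ w') x = run w' (run w x) := by
  simp [run, List.foldl_append]

theorem run_nil (x : Fin (m + 1) → Strand G O) : run ([] : Braid m) x = x := rfl

theorem run_cons (g : Fin m × Bool) (w : Braid m) (x : Fin (m + 1) → Strand G O) :
    run (g :: w) x = run w (crossing g x) := rfl

/-- A word on some of the strands. -/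
theorem run_emb (e : Fin m → Fin n) (f : Fin (m + 1) → Fin (n + 1)) (hf : Function.Injective f)
    (h1 : ∀ i, f i.castSucc = (e i).castSucc) (h2 : ∀ i, f i.succ = (e i).succ) (w : Braid m)
    (x : Fin (n + 1) → Strand G O) :
    (∀ p, run (w.map fun g => (e g.1, g.2)) x (f p) = run w (fun q => x (f q)) p) ∧
      ∀ j, j ∉ Set.range f → run (w.map fun g => (e g.1, g.2)) x j = x j := by
  induction w generalizing x with
  | nil => exact ⟨fun p => rfl, fun j _ => rfl⟩
  | cons g w ih =>
    rw [List.map_cons]
    obtain ⟨ih1, ih2⟩ := ih (crossing (e g.1, g.2) x)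
    have key : (fun q => crossing (e g.1, g.2) x (f q)) = crossing g (fun q => x (f q)) := by
      funext q
      simp only [crossing, ← h1, ← h2, hf.eq_iff]
    refine ⟨fun p => ?_, fun j hj => ?_⟩
    · rw [run_cons, run_cons, ih1, key]
    · rw [run_cons, ih2 j hj]
      have hj1 : j ≠ (e g.1).castSucc := fun h => hj ⟨g.1.castSucc, by rw [h1, h]⟩
      have hj2 : j ≠ (e g.1).succ := fun h => hj ⟨g.1.succ, by rw [h2, h]⟩
      simp only [crossing]
      rw [if_neg hj1, if_neg hj2, if_neg hj1, if_neg hj2]
      split_ifs <;> rfl

/-- the meridians at the top -/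
def labs (w : Braid m) (x : Fin (m + 1) → G) (p : Fin (m + 1)) : G := (run w (fresh x) p).lab

/-- the accumulated elements at the top -/
def accs (w : Braid m) (x : Fin (m + 1) → G) (p : Fin (m + 1)) : G := (run w (fresh x) p).acc

theorem fresh_map (φ : G →* G') (x : Fin (m + 1) → G) :
    fresh (fun p => φ (x p)) = fun p => (fresh x p).map φ id := by
  funext p
  simp [fresh, Strand.map]

theorem labs_map (φ : G →* G') (w : Braid m) (x : Fin (m + 1) → G) (p : Fin (m + 1)) :
    labs w (fun q => φ (x q)) p = φ (labs w x p) := by
  rw [labs, fresh_map, run_map]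
  rfl

theorem accs_map (φ : G →* G') (w : Braid m) (x : Fin (m + 1) → G) (p : Fin (m + 1)) :
    accs w (fun q => φ (x q)) p = φ (accs w x p) := by
  rw [accs, fresh_map, run_map]
  rfl

theorem org_eq (w : Braid m) (x : Fin (m + 1) → G) (p : Fin (m + 1)) :
    (run w (fresh x) p).org = perm w p := by
  have h := run_map (1 : G →* Unit) (id : Fin (m + 1) → Fin (m + 1)) w (fresh x)
  have h' : (fun q => (fresh x q).map (1 : G →* Unit) id) = fresh (fun _ => (1 : Unit)) := by
    funext q
    rfl
  rw [h'] at h
  rw [perm, h]
  rfl

theorem run_eq (w : Braid m) (x : Fin (m + 1) → G) (p : Fin (m + 1)) :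
    run w (fresh x) p = ⟨labs w x p, accs w x p, perm w p⟩ := by
  rw [← org_eq w x p]
  rfl

theorem longAux_succ (w : Braid m) (x : Fin (m + 1) → G) (b : Fin (m + 1)) (t : ℕ) :
    longAux w x b (t + 1) = accs w x ((perm w)^[t] b) * longAux w x b t := by
  have : (fun p => (run w (fresh x) p).org) = perm w := funext fun p => org_eq w x p
  rw [longAux, this]
  rfl

theorem longAux_zero (w : Braid m) (x : Fin (m + 1) → G) (b : Fin (m + 1)) :
    longAux w x b 0 = 1 := rfl

theorem longAux_map (φ : G →* G') (w : Braid m) (x : Fin (m + 1) → G) (b : Fin (m + 1)) (t : ℕ) :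
    longAux w (fun q => φ (x q)) b t = φ (longAux w x b t) := by
  induction t with
  | zero => simp [longAux_zero]
  | succ t ih => rw [longAux_succ, longAux_succ, ih, accs_map, map_mul]

/-- the meridian at the top is a conjugate of the one at the bottom -/
theorem labs_conj (w : Braid m) (x : Fin (m + 1) → G) (p : Fin (m + 1)) :
    labs w x p = (accs w x p)⁻¹ * x (perm w p) * accs w x p := by
  have key : ∀ (w : Braid m) (y : Fin (m + 1) → Strand G (Fin (m + 1))),
      (∀ q, (y q).lab = (y q).acc⁻¹ * x (y q).org * (y q).acc) →
      ∀ q, (run w y q).lab = (run w y q).acc⁻¹ * x (run w y q).org * (run w y q).acc := by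
    intro w
    induction w with
    | nil => intro y hy q; exact hy q
    | cons g w ih =>
      intro y hy
      refine ih (crossing g y) fun q => ?_
      simp only [crossing]
      split_ifs
      · simp only
        rw [hy g.1.succ]
        group
      · exact hy _
      · exact hy _
      · simp only
        rw [hy g.1.castSucc]
        group
      · exact hy _
      · exact hy _
  have := key w (fresh x) (fun q => by simp [fresh]) p
  rw [run_eq] at this
  exact this

/-- the closure condition -/
def Closed (w : Braid m) (x : Fin (m + 1) → G) : Prop := ∀ p, labs w x p = x p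

theorem closed_map_conj (g : G) (w : Braid m) (x : Fin (m + 1) → G) :
    Closed w (fun p => g * x p * g⁻¹) ↔ Closed w x := by
  have h : ∀ p, labs w (fun q => g * x q * g⁻¹) p = g * labs w x p * g⁻¹ :=
    fun p => labs_map (MulAut.conj g).toMonoidHom w x p
  simp only [Closed, h]
  simp

/-- A homomorphism from the fundamental group of the surgery is a solution of the equations. -/
noncomputable def homEquiv (w : Braid m) (b : Fin (m + 1)) (f : ℤ) :
    (pi1 w b f →* G) ≃ {x : Fin (m + 1) → G // Closed w x ∧
      x b ^ (f - writhe w) * longAux w x b (m + 1) = 1} where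
  toFun φ := ⟨fun p => φ (PresentedGroup.of p), by
    have hrel : ∀ r ∈ relators w b f, φ (PresentedGroup.mk (relators w b f) r) = 1 := by
      intro r hr
      have : PresentedGroup.mk (relators w b f) r = 1 := by
        rw [PresentedGroup.one_of_mem hr]
      rw [this, map_one]
    let ψ : FreeGroup (Fin (m + 1)) →* G := φ.comp (PresentedGroup.mk (relators w b f))
    have hψ : ∀ p, ψ (FreeGroup.of p) = φ (PresentedGroup.of p) := fun p => rfl
    have hx : (fun p => φ (PresentedGroup.of p)) =
        fun p => ψ ((FreeGroup.of : Fin (m + 1) → FreeGroup (Fin (m + 1))) p) := rfl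
    constructor
    · intro p
      have h1 := hrel _ (Or.inl ⟨p, rfl⟩)
      have h2 : ψ (labs w FreeGroup.of p * (FreeGroup.of p)⁻¹) = 1 := h1
      rw [hx, labs_map ψ w FreeGroup.of p]
      rw [map_mul, map_inv, mul_inv_eq_one] at h2
      exact h2
    · have h1 := hrel _ (Or.inr rfl)
      have h2 : ψ (FreeGroup.of b ^ (f - writhe w) * longAux w FreeGroup.of b (m + 1)) = 1 := h1
      rw [hx, longAux_map ψ w FreeGroup.of b]
      rw [map_mul, map_zpow] at h2
      exact h2⟩
  invFun x := PresentedGroup.toGroup (f := x.1) (by
    have hx : x.1 = fun p => FreeGroup.lift x.1 ((FreeGroup.of : Fin (m + 1) → _) p) := by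
      funext p; simp
    rintro r (⟨p, rfl⟩ | hr)
    · have h1 := x.2.1 p
      rw [map_mul, map_inv, mul_inv_eq_one]
      have h2 := labs_map (FreeGroup.lift x.1) w FreeGroup.of p
      rw [← hx] at h2
      change FreeGroup.lift x.1 (labs w FreeGroup.of p) = _
      rw [← h2, h1]
      simp
    · rw [Set.mem_singleton_iff] at hr
      subst hr
      rw [map_mul, map_zpow, ← longAux_map (FreeGroup.lift x.1) w FreeGroup.of b, ← hx]
      have := x.2.2
      simpa using this)
  left_inv φ := by
    refine PresentedGroup.ext fun p => ?_
    simp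
  right_inv x := by
    apply Subtype.ext
    funext p
    simp

end basic

end Pool.Agent.W616
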