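import Mathlib

/-!
# Quantum `G` invariants of surgeries on knots, and the fundamental group of such a surgery

Part 1: simple Lie algebras are given by their Cartan data (indecomposable Cartan matrices of finite
type with their minimal symmetrisers).
Part 2: finite dimensional modules over the Drinfeld-Jimbo quantum group `U_v(g)` in a basis of weight
vectors, the braiding, the coloured invariants of closures of braids.
Part 3: the quantum `G` invariant and the quantum `PG` invariant of the closed oriented 3-manifold
obtained from `S^3` by surgery on the closure of a braid (a knot) with a nonzero integral framing.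
Part 4: the fundamental group of that 3-manifold, by the Wirtinger presentation.
-/

set_option autoImplicit false

open scoped Kronecker

namespace Pool.Agent.W616

/-! ## Part 1: Cartan data -/

/-- The Cartan datum of a complex simple Lie algebra `g` (equivalently of a simply connected compact
simple Lie group `G`): an indecomposable Cartan matrix `A = (a_ij)`, `a_ij = ⟨α_i^∨, α_j⟩`, of finite
type, with its minimal symmetriser `d`. The invariant form is normalised so that short roots have
square length `2`: `(α_i, α_j) = d_i a_ij`. -/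
structure CartanDatum where
  /-- the rank -/
  n : ℕ
  /-- the Cartan matrix -/
  A : Matrix (Fin n) (Fin n) ℤ
  /-- half the square lengths of the simple roots -/
  d : Fin n → ℕ
  n_pos : 0 < n
  diag : ∀ i, A i i = 2
  offdiag : ∀ i j, i ≠ j → A i j ≤ 0
  d_pos : ∀ i, 0 < d i
  d_min : ∃ i, d i = 1
  symm : ∀ i j, (d i : ℤ) * A i j = (d j : ℤ) * A j i
  pos : ∀ x : Fin n → ℤ, x ≠ 0 → 0 < ∑ i, ∑ j, x i * ((d i : ℤ) * A i j) * x j
  indec : ∀ S : Finset (Fin n), S.Nonempty → (∃ j, j ∉ S) → ∃ i ∈ S, ∃ j, j ∉ S ∧ A i j ≠ 0

namespace CartanDatum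

variable (Δ : CartanDatum)

/-- Integral weights, in the coordinates of the fundamental weights. -/
abbrev Wt : Type := Fin Δ.n → ℤ

/-- The simple root `α_j`, whose `i`-th coordinate is `⟨α_i^∨, α_j⟩ = a_ij`. -/
def root (j : Fin Δ.n) : Δ.Wt := fun i => Δ.A i j

/-- The determinant `N` of the Cartan matrix (the order of the centre of `G`). -/
def detA : ℤ := Δ.A.det

/-- `N (x, y)` for integral weights `x`, `y`, an integer: since `(ω_i, ω_j) = d_i (A⁻¹)_ij`, it is
`∑ x_i d_i adj(A)_ij y_j`. -/
def ip (x y : Δ.Wt) : ℤ := ∑ i, ∑ j, x i * ((Δ.d i : ℤ) * Δ.A.adjugate i j) * y j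

/-- `2 ρ`, twice the sum of the fundamental weights. -/
def twoRho : Δ.Wt := fun _ => 2

/-- `IsRoot β`: the integer combination `∑ β_j α_j` of simple roots is a root. -/
inductive IsRoot : (Fin Δ.n → ℤ) → Prop
  | simple (i : Fin Δ.n) : IsRoot (Pi.single i 1)
  | reflect (i : Fin Δ.n) (β : Fin Δ.n → ℤ) (h : IsRoot β) :
      IsRoot (β - Pi.single i (∑ j, Δ.A i j * β j))

/-- The largest `d_i`, i.e. `1`, `2` or `3`; the form for which long roots have square length `2` is
`(x, y) / lacing`. -/
def lacing : ℕ := Finset.univ.sup Δ.d

open Classical in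
/-- The colours at `r = k + h^∨`: the dominant weights `lam` of level at most `k`, i.e. with
`(lam + ρ, θ) / lacing < r` for the highest root `θ`, or equivalently with
`(lam + ρ, β) / lacing < r` for every root `β`; here `(lam + ρ, ∑ β_j α_j) = ∑ β_j d_j (lam_j + 1)`. -/
noncomputable def alcove (r : ℕ) : Finset (Fin Δ.n → ℕ) :=
  (Fintype.piFinset fun _ => Finset.range (Δ.lacing * r)).filter fun lam =>
    ∀ β, Δ.IsRoot β → ∑ j, β j * ((Δ.d j : ℤ) * ((lam j : ℤ) + 1)) < (Δ.lacing * r : ℕ)

/-- The weight `lam` lies in the root lattice. -/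
def InRootLattice (lam : Fin Δ.n → ℕ) : Prop :=
  ∃ c : Fin Δ.n → ℤ, ∀ i, (lam i : ℤ) = ∑ j, c j * Δ.root j i

end CartanDatum

/-! ## Part 2: modules over the quantum group, braidings and coloured invariants

`k` is a field with an element `s`; the quantum parameter is `v = s ^ N`, so that
`v ^ (x, y) = s ^ (ip x y)` for integral weights `x`, `y`. -/

section

variable {Δ : CartanDatum} {k : Type} [Field k]

/-- The quantum integer `[m]` for `v_i = v ^ d_i`. -/
def qint (Δ : CartanDatum) (s : k) (i : Fin Δ.n) (m : ℤ) : k :=
  (s ^ (Δ.detA * Δ.d i * m) - s ^ (-(Δ.detA * Δ.d i * m))) /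
    (s ^ (Δ.detA * Δ.d i) - s ^ (-(Δ.detA * Δ.d i)))

/-- The quantum factorial `[m]!` for `v_i`. -/
def qfact (Δ : CartanDatum) (s : k) (i : Fin Δ.n) (m : ℕ) : k :=
  ∏ t ∈ Finset.range m, qint Δ s i ((t : ℤ) + 1)

/-- The quantum binomial coefficient for `v_i`. -/
def qbinom (Δ : CartanDatum) (s : k) (i : Fin Δ.n) (m t : ℕ) : k :=
  qfact Δ s i m / (qfact Δ s i t * qfact Δ s i (m - t))

/-- A finite dimensional module (of type 1) over the quantum group `U_v(g)`, in a basis of weight
vectors: the basis vector `a` has weight `wt a`, and the Chevalley generators act by the matrices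
`E i`, `F i`; the `K i` act by the diagonal matrices `QModule.K`. -/
structure QModule (Δ : CartanDatum) (k : Type) [Field k] (s : k) where
  /-- the dimension -/
  dim : ℕ
  /-- the weights of the basis vectors -/
  wt : Fin dim → Δ.Wt
  /-- the action of the generators `E_i` -/
  E : Fin Δ.n → Matrix (Fin dim) (Fin dim) k
  /-- the action of the generators `F_i` -/
  F : Fin Δ.n → Matrix (Fin dim) (Fin dim) k
  E_wt : ∀ i a b, E i a b ≠ 0 → wt a = wt b + Δ.root i
  F_wt : ∀ i a b, F i a b ≠ 0 → wt a = wt b - Δ.root i
  EF : ∀ i j, E i * F j - F j * E i =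
    if i = j then Matrix.diagonal (fun a => qint Δ s i (wt a i)) else 0
  serreE : ∀ i j, i ≠ j → ∑ t ∈ Finset.range ((1 - Δ.A i j).toNat + 1),
    ((-1) ^ t * qbinom Δ s i (1 - Δ.A i j).toNat t) •
      (E i ^ ((1 - Δ.A i j).toNat - t) * E j * E i ^ t) = 0
  serreF : ∀ i j, i ≠ j → ∑ t ∈ Finset.range ((1 - Δ.A i j).toNat + 1),
    ((-1) ^ t * qbinom Δ s i (1 - Δ.A i j).toNat t) •
      (F i ^ ((1 - Δ.A i j).toNat - t) * F j * F i ^ t) = 0

namespace QModule

variable {s : k} (V : QModule Δ k s)

/-- The action of `K_μ` for a weight `μ`: multiplication by `v ^ (μ, wt a)` on the basis vector `a`. -/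
def Kd (x : Δ.Wt) : Matrix (Fin V.dim) (Fin V.dim) k :=
  Matrix.diagonal fun a => s ^ Δ.ip x (V.wt a)

/-- The action of the generator `K_i = K_(α_i)`. -/
def K (i : Fin Δ.n) : Matrix (Fin V.dim) (Fin V.dim) k := V.Kd (Δ.root i)

/-- The action of `K_i⁻¹`. -/
def Kinv (i : Fin Δ.n) : Matrix (Fin V.dim) (Fin V.dim) k := V.Kd (-Δ.root i)

/-- `V` is the simple module with highest weight `lam`: there is a basis vector of weight `lam` killed
by all `E_i`, and every subspace stable under all `E_i`, `F_i`, `K_i` is `0` or the whole space. -/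
def IsSimple (lam : Fin Δ.n → ℕ) : Prop :=
  (∃ a, V.wt a = (fun i => (lam i : ℤ)) ∧ ∀ i, (V.E i).mulVec (Pi.single a 1) = 0) ∧
  ∀ U : Submodule k (Fin V.dim → k),
    (∀ i, ∀ x ∈ U, (V.E i).mulVec x ∈ U ∧ (V.F i).mulVec x ∈ U ∧ (V.K i).mulVec x ∈ U) →
      U = ⊥ ∨ U = ⊤

/-- The action of `Δ(E_i) = E_i ⊗ 1 + K_i ⊗ E_i` on `V ⊗ V`. -/
def E2 (i : Fin Δ.n) : Matrix (Fin V.dim × Fin V.dim) (Fin V.dim × Fin V.dim) k :=
  V.E i ⊗ₖ 1 + V.K i ⊗ₖ V.E i

/-- The action of `Δ(F_i) = F_i ⊗ K_i⁻¹ + 1 ⊗ F_i` on `V ⊗ V`. -/
def F2 (i : Fin Δ.n) : Matrix (Fin V.dim × Fin V.dim) (Fin V.dim × Fin V.dim) k :=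
  V.F i ⊗ₖ V.Kinv i + 1 ⊗ₖ V.F i

/-- `c` is the matrix of the braiding `V ⊗ V → V ⊗ V` given by the universal `R`-matrix: it is
`U_v(g)`-linear, and `c (x ⊗ y) = v ^ (wt x, wt y) (y ⊗ x) + ∑ (terms in V_(wt y + β) ⊗ V_(wt x - β))`,
the sum over the nonzero `β` in the positive cone of the root lattice. These properties characterise
the braiding. -/
def IsBraiding (c : Matrix (Fin V.dim × Fin V.dim) (Fin V.dim × Fin V.dim) k) : Prop :=
  (∀ i, c * V.E2 i = V.E2 i * c) ∧ (∀ i, c * V.F2 i = V.F2 i * c) ∧
  (∀ a b, c (b, a) (a, b) = s ^ Δ.ip (V.wt a) (V.wt b)) ∧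
  ∀ a b a' b', c (a', b') (a, b) ≠ 0 → (a' = b ∧ b' = a) ∨
    ∃ β : Fin Δ.n → ℕ, β ≠ 0 ∧ V.wt a' = V.wt b + ∑ j, (β j : ℤ) • Δ.root j ∧
      V.wt b' = V.wt a - ∑ j, (β j : ℤ) • Δ.root j

end QModule

/-- Words in the generators of the braid group on `m + 1` strands: the letter `(i, true)` is the
generator `σ_i`, and `(i, false)` is its inverse, `i = 0, …, m - 1`. Diagrams are read upwards; in `σ_i`
the strand in position `i` passes over to position `i + 1`, a positive crossing. -/
abbrev Braid (m : ℕ) : Type := List (Fin m × Bool)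

/-- The exponent sum of a braid word, which is the writhe of the diagram of its closure. -/
def writhe {m : ℕ} (w : Braid m) : ℤ := (w.map fun g => if g.2 then (1 : ℤ) else -1).sum

/-- The matrix `c` acting on the tensor factors `i` and `i + 1` of the tensor power with `m + 1`
factors of the space with basis `ι`. -/
def genMat {ι : Type} [DecidableEq ι] {m : ℕ} (c : Matrix (ι × ι) (ι × ι) k) (i : Fin m) :
    Matrix (Fin (m + 1) → ι) (Fin (m + 1) → ι) k := fun x y =>
  if ∀ j, j ≠ i.castSucc → j ≠ i.succ → x j = y j then
    c (x i.castSucc, x i.succ) (y i.castSucc, y i.succ) else 0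

/-- The action of a braid word: `σ_i` acts by the braiding `c` on the factors `i`, `i + 1`. -/
noncomputable def braidMat {ι : Type} [DecidableEq ι] [Fintype ι] {m : ℕ}
    (c : Matrix (ι × ι) (ι × ι) k) (w : Braid m) :
    Matrix (Fin (m + 1) → ι) (Fin (m + 1) → ι) k :=
  w.foldl (fun T g => genMat (if g.2 then c else c⁻¹) g.1 * T) 1

/-- The quantum trace of the action of a braid word: the trace of its product with `K_2ρ`. It is the
invariant of the closure of the braid with the blackboard framing, all strands having colour `V`. -/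
noncomputable def qtrace {s : k} (V : QModule Δ k s)
    (c : Matrix (Fin V.dim × Fin V.dim) (Fin V.dim × Fin V.dim) k) {m : ℕ} (w : Braid m) : k :=
  (Matrix.diagonal (fun x : Fin (m + 1) → Fin V.dim => ∏ j, s ^ Δ.ip Δ.twoRho (V.wt (x j))) *
    braidMat c w).trace

/-- The exponent `N (lam, lam + 2 ρ)` of `s` in the twist of the simple module of highest weight
`lam`. -/
def twistExp (Δ : CartanDatum) (lam : Fin Δ.n → ℕ) : ℤ :=
  Δ.ip (fun i => (lam i : ℤ)) ((fun i => (lam i : ℤ)) + Δ.twoRho)

end

/-- The generic parameter: the variable of the field of rational functions. -/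
noncomputable def genericS : RatFunc ℚ := RatFunc.X

open Classical in
/-- The invariant `J` of the knot that is the closure of `w`, with framing `f` and with the simple
module of highest weight `lam` as its colour, a Laurent polynomial in `s = v ^ (1 / N)` for the generic
quantum parameter `v`. (The simple module and its braiding exist and are unique up to isomorphism.) -/
noncomputable def knotInv (Δ : CartanDatum) (lam : Fin Δ.n → ℕ) {m : ℕ} (w : Braid m) (f : ℤ) :
    RatFunc ℚ :=
  if h : ∃ (V : QModule Δ (RatFunc ℚ) genericS)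
      (c : Matrix (Fin V.dim × Fin V.dim) (Fin V.dim × Fin V.dim) (RatFunc ℚ)),
      V.IsSimple lam ∧ V.IsBraiding c then
    genericS ^ (twistExp Δ lam * (f - writhe w)) * qtrace h.choose h.choose_spec.choose w
  else 0

/-! ## Part 3: the quantum invariants of 3-manifolds -/

/-- Evaluation of rational functions of `s` at `s = exp (π i / (N · lacing · r))`, so that for the form
in which long roots have square length `2` one has `v ^ (2 (x, y)) = q ^ (x, y)` with
`q = exp (2 π i / r)`. -/
noncomputable def evalAt (Δ : CartanDatum) (r : ℕ) (p : RatFunc ℚ) : ℂ :=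
  RatFunc.eval (algebraMap ℚ ℂ)
    (Complex.exp (Real.pi * Complex.I / ((Δ.detA : ℂ) * (Δ.lacing : ℂ) * (r : ℂ)))) p

/-- The quantum dimension of the colour `lam`, the invariant of the unknot with framing `0`. -/
noncomputable def qdim (Δ : CartanDatum) (lam : Fin Δ.n → ℕ) : RatFunc ℚ :=
  knotInv Δ lam ([] : Braid 0) 0

/-- The surgery formula with colours in the finite set `C`: for a knot (the closure of `w`) with framing
`f ≠ 0`, this is `(∑ [lam] J_lam(U_ε))⁻¹ ∑ [lam] J_lam(K)`, with `U_ε` the unknot whose framing is the
sign of `f`. -/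
noncomputable def surgerySum (Δ : CartanDatum) (C : Finset (Fin Δ.n → ℕ)) (r : ℕ) {m : ℕ}
    (w : Braid m) (f : ℤ) : ℂ :=
  (∑ lam ∈ C, evalAt Δ r (qdim Δ lam * knotInv Δ lam ([] : Braid 0) (SignType.sign f : ℤ)))⁻¹ *
    ∑ lam ∈ C, evalAt Δ r (qdim Δ lam * knotInv Δ lam w f)

/-- The quantum `G` invariant `τ_r^G` of the 3-manifold obtained from `S^3` by surgery on the closure of
`w` (a knot) with framing `f ≠ 0`; `r = k + h^∨`, `q = exp (2 π i / r)`. -/
noncomputable def tauG (Δ : CartanDatum) (r : ℕ) {m : ℕ} (w : Braid m) (f : ℤ) : ℂ :=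
  surgerySum Δ (Δ.alcove r) r w f

open Classical in
/-- The quantum `PG` invariant `τ_r^PG`: only colours in the root lattice are used. -/
noncomputable def tauPG (Δ : CartanDatum) (r : ℕ) {m : ℕ} (w : Braid m) (f : ℤ) : ℂ :=
  surgerySum Δ ((Δ.alcove r).filter Δ.InRootLattice) r w f

/-! ## Part 4: the fundamental group -/

/-- A strand at some height of a braid diagram, in the complement of whose closure we have loops in a
group `G`: the meridian of the strand, the product of the meridians of the arcs under which the strand
has passed so far, and the position `o` at which it started. -/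
structure Strand (G : Type*) (O : Type*) where
  /-- the meridian -/
  lab : G
  /-- the product of the meridians (or their inverses) passed so far -/
  acc : G
  /-- the initial position -/
  org : O

/-- The effect of one letter of a braid word on the strands, by the Wirtinger relations. At a positive
crossing `(i, true)` the strand in position `i + 1`, with meridian `x`, passes under the strand in
position `i`, with meridian `y`, and its meridian becomes `y⁻¹ x y`; at a negative crossing `(i, false)`
the strand in position `i`, with meridian `x`, passes under the strand in position `i + 1`, with meridian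
`y`, and its meridian becomes `y x y⁻¹`. -/
def crossing {G O : Type*} [Group G] {m : ℕ} (g : Fin m × Bool) (x : Fin (m + 1) → Strand G O) :
    Fin (m + 1) → Strand G O := fun p =>
  let a := x g.1.castSucc
  let b := x g.1.succ
  if g.2 then
    if p = g.1.castSucc then ⟨a.lab⁻¹ * b.lab * a.lab, b.acc * a.lab, b.org⟩
    else if p = g.1.succ then a else x p
  else
    if p = g.1.succ then ⟨b.lab * a.lab * b.lab⁻¹, a.acc * b.lab⁻¹, a.org⟩
    else if p = g.1.castSucc then b else x p

/-- The strands at the top of a braid diagram, as a function of those at the bottom. -/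
def run {G O : Type*} [Group G] {m : ℕ} (w : Braid m) (x : Fin (m + 1) → Strand G O) :
    Fin (m + 1) → Strand G O :=
  w.foldl (fun y g => crossing g y) x

/-- The strands at the bottom of the diagram, with meridians `x`. -/
def fresh {G : Type*} [Group G] {m : ℕ} (x : Fin (m + 1) → G) :
    Fin (m + 1) → Strand G (Fin (m + 1)) := fun p => ⟨x p, 1, p⟩

/-- The permutation of a braid word: the strand that ends in position `p` started in position
`perm w p`. -/
def perm {m : ℕ} (w : Braid m) (p : Fin (m + 1)) : Fin (m + 1) :=
  (run w (fresh (fun _ => (1 : Unit))) p).org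

/-- The closure of the braid is a knot: going back from position `0` again and again one meets all
positions. -/
def IsKnot {m : ℕ} (w : Braid m) : Prop := ∀ p, ∃ t : ℕ, (perm w)^[t] 0 = p

/-- The product of the meridians (or their inverses) of the arcs under which the knot passes on its way
through the last `t` strands before it ends in position `b` at the top. For `t = m + 1` this is the
longitude of the knot given by the blackboard framing, based at the strand in position `b`. -/
def longAux {G : Type*} [Group G] {m : ℕ} (w : Braid m) (x : Fin (m + 1) → G) (b : Fin (m + 1)) :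
    ℕ → G
  | 0 => 1
  | t + 1 => (run w (fresh x) ((fun p => (run w (fresh x) p).org)^[t] b)).acc * longAux w x b t

/-- The relators of the fundamental group of the 3-manifold obtained from `S^3` by surgery with framing
`f` on the closure of `w` (a knot): the Wirtinger relations of the closure, and the curve
`x_b ^ f · (preferred longitude) = x_b ^ (f - writhe) · (blackboard longitude)`, where `b` is any of the
strands. -/
def relators {m : ℕ} (w : Braid m) (b : Fin (m + 1)) (f : ℤ) : Set (FreeGroup (Fin (m + 1))) :=
  (Set.range fun p => (run w (fresh FreeGroup.of) p).lab * (FreeGroup.of p)⁻¹) ∪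
    {FreeGroup.of b ^ (f - writhe w) * longAux w FreeGroup.of b (m + 1)}

/-- The fundamental group of the 3-manifold obtained from `S^3` by surgery with framing `f` on the
closure of `w` (a knot). -/
abbrev pi1 {m : ℕ} (w : Braid m) (b : Fin (m + 1)) (f : ℤ) : Type :=
  PresentedGroup (relators w b f)

/-! ## The examples -/

/-- The braid word `σ_1^-3 σ_2^2 σ_1^-2 σ_2 σ_1^-1 σ_2` on three strands; its closure is a knot `K` with
ten crossings. -/
def wordK : Braid 2 :=
  [(0, false), (0, false), (0, false), (1, true), (1, true), (0, false), (0, false), (1, true),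
    (0, false), (1, true)]

/-- A braid on three strands, as a braid on the first three of five strands. -/
def left3 (w : Braid 2) : Braid 4 := w.map fun g => (Fin.castLE (by norm_num) g.1, g.2)

/-- A braid on three strands, as a braid on the last three of five strands. -/
def right3 (w : Braid 2) : Braid 4 := w.map fun g => (Fin.natAdd 2 g.1, g.2)

/-- The closure of this braid on five strands is the connected sum `K # K`. -/
def sumKK : Braid 4 := left3 wordK ++ right3 wordK

/-- The closure of this braid on five strands is the connected sum `K # rK`, with `rK` the knot `K` with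
its orientation reversed. -/
def sumKrK : Braid 4 := left3 wordK ++ right3 wordK.reverse

end Pool.Agent.W616
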