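import Pool.Agent.W616.QRep

/-!
# The contravariant form, and the symmetry of the braiding
-/

set_option autoImplicit false
set_option linter.unusedSectionVars false

open scoped Kronecker

namespace Pool.Agent.W616

theorem mat_ext {k ι ι' : Type} [Field k] [Fintype ι] [DecidableEq ι] {M N : Matrix ι' ι k}
    (h : ∀ x, M.mulVec x = N.mulVec x) : M = N := by
  ext a b
  have := congrFun (h (Pi.single b 1)) a
  simpa using this

section tv

variable {k ι : Type} [Field k] [Fintype ι] [DecidableEq ι]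

/-- the tensor product of two vectors -/
def tv (x y : ι → k) : ι × ι → k := fun p => x p.1 * y p.2

theorem kron_tv (A B : Matrix ι ι k) (x y : ι → k) :
    (A ⊗ₖ B).mulVec (tv x y) = tv (A.mulVec x) (B.mulVec y) := by
  funext p
  simp only [Matrix.mulVec, dotProduct, tv, Fintype.sum_prod_type, Matrix.kroneckerMap_apply,
    Finset.sum_mul_sum]
  refine Finset.sum_congr rfl fun a _ => Finset.sum_congr rfl fun b _ => ?_
  ring

theorem tv_add_left (x x' y : ι → k) : tv (x + x') y = tv x y + tv x' y := by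
  funext p; simp [tv, add_mul]

theorem tv_add_right (x y y' : ι → k) : tv x (y + y') = tv x y + tv x y' := by
  funext p; simp [tv, mul_add]

theorem tv_smul_left (c : k) (x y : ι → k) : tv (c • x) y = c • tv x y := by
  funext p; simp [tv, mul_assoc]

theorem tv_smul_right (c : k) (x y : ι → k) : tv x (c • y) = c • tv x y := by
  funext p; simp [tv]; ring

theorem tv_zero_left (y : ι → k) : tv (0 : ι → k) y = 0 := by
  funext p; simp [tv]

theorem tv_zero_right (x : ι → k) : tv x (0 : ι → k) = 0 := by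
  funext p; simp [tv]

theorem kron_transpose (A B : Matrix ι ι k) :
    (A ⊗ₖ B).transpose = A.transpose ⊗ₖ B.transpose :=
  (Matrix.kroneckerMap_transpose _ _ _).symm

theorem tv_single (a b : ι) : tv (Pi.single a (1 : k)) (Pi.single b (1 : k)) =
    Pi.single (a, b) 1 := by
  funext p
  rcases p with ⟨p, q⟩
  simp only [tv, Pi.single_apply, Prod.mk.injEq]
  by_cases h1 : p = a <;> by_cases h2 : q = b <;> simp [h1, h2]

end tv

namespace QModule

variable {Δ : CartanDatum} {k : Type} [Field k] {s : k} (V : QModule Δ k s)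

theorem diag_mulVec {μ : Δ.Wt} {x : Fin V.dim → k} (hx : x ∈ V.wtSpace μ) (g : Δ.Wt → k) :
    (Matrix.diagonal fun a => g (V.wt a)).mulVec x = g μ • x := by
  funext a
  simp only [Matrix.mulVec_diagonal, Pi.smul_apply, smul_eq_mul]
  by_cases ha : x a = 0
  · simp [ha]
  · rw [hx a ha]

/-- the contravariant form -/
theorem exists_form (hs : s ≠ 0) (hV : V.Irr) (a₀ : Fin V.dim) (h₀ : V.Highest a₀) :
    ∃ B C : Matrix (Fin V.dim) (Fin V.dim) k, (∀ i, B * V.E i = V.Et i * B) ∧
      (∀ i, B * V.F i = V.Ft i * B) ∧ (∀ a b, B a b ≠ 0 → V.wt a = V.wt b) ∧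
      B * C = 1 ∧ C * B = 1 := by
  classical
  set e : Fin V.dim → k := Pi.single a₀ 1 with he
  let x : Fin Δ.n → ((Fin V.dim → k) × (Fin V.dim → k)) →ₗ[k] ((Fin V.dim → k) × (Fin V.dim → k)) :=
    fun i => (V.E i).mulVecLin.prodMap (V.Et i).mulVecLin
  let y : Fin Δ.n → ((Fin V.dim → k) × (Fin V.dim → k)) →ₗ[k] ((Fin V.dim → k) × (Fin V.dim → k)) :=
    fun i => (V.F i).mulVecLin.prodMap (V.Ft i).mulVecLin
  let P : Δ.Wt → Submodule k ((Fin V.dim → k) × (Fin V.dim → k)) :=
    fun μ => (V.wtSpace μ).prod (V.wtSpace μ)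
  set U := wspan y (e, e) with hU
  have hyP : ∀ i μ w, w ∈ P μ → y i w ∈ P (μ + -Δ.root i) := by
    rintro i μ ⟨w1, w2⟩ ⟨h1, h2⟩
    exact ⟨(V.F_shifts i).mem h1, (V.Ft_shifts i).mem h2⟩
  have hwordP : ∀ l, word y l (e, e) ∈ P (V.wt a₀ - Δ.lsum l) := by
    intro l
    induction l with
    | nil => rw [word_nil, Δ.lsum_nil, sub_zero]; exact ⟨V.single_mem a₀, V.single_mem a₀⟩
    | cons i l ih =>
      rw [word_cons, Δ.lsum_cons]
      have := hyP i _ _ ih
      have e' : V.wt a₀ - Δ.lsum l + -Δ.root i = V.wt a₀ - (Δ.root i + Δ.lsum l) := by abel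
      rw [e'] at this
      exact this
  have hEte : ∀ i, (V.Et i).mulVec e = 0 := by
    intro i
    funext a
    by_contra hne
    have h1 := (V.Et_shifts i).mem (V.single_mem a₀) a hne
    have h2 := h₀.ht_le a
    rw [h1, Δ.ht_add] at h2
    have := Δ.ht_root i
    omega
  have hUx : ∀ i, ∀ u ∈ U, x i u ∈ U := by
    intro i
    refine wspan_raise x y P (fun i μ => μ + -Δ.root i) hyP
      (fun i j μ => if i = j then qint Δ s i (μ i) else 0) ?_ (e, e) (V.wt a₀)
      ⟨V.single_mem a₀, V.single_mem a₀⟩ ?_ i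
    · rintro i j μ ⟨w1, w2⟩ ⟨h1, h2⟩
      exact Prod.ext (V.EF_vec i j h1) (V.EtFt_vec hs i j h2)
    · intro i
      exact Prod.ext (h₀.kill i) (hEte i)
  have hUy : ∀ i, ∀ u ∈ U, y i u ∈ U := wspan_lower y (e, e)
  have hUd : ∀ g : Δ.Wt → k, ∀ u ∈ U,
      ((Matrix.diagonal fun a => g (V.wt a)).mulVec u.1,
        (Matrix.diagonal fun a => g (V.wt a)).mulVec u.2) ∈ U := by
    intro g
    refine wspan_map y (e, e) ((Matrix.diagonal fun a => g (V.wt a)).mulVecLin.prodMap
      (Matrix.diagonal fun a => g (V.wt a)).mulVecLin) fun l => ?_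
    obtain ⟨h1, h2⟩ := hwordP l
    have : ((Matrix.diagonal fun a => g (V.wt a)).mulVecLin.prodMap
      (Matrix.diagonal fun a => g (V.wt a)).mulVecLin) (word y l (e, e)) =
        g (V.wt a₀ - Δ.lsum l) • word y l (e, e) :=
      Prod.ext (V.diag_mulVec h1 g) (V.diag_mulVec h2 g)
    rw [this]
    exact Submodule.smul_mem _ _ (word_mem y (e, e) l)
  have heU : (e, e) ∈ U := word_mem y (e, e) []
  -- the first projection is onto
  have hfst : ∀ v : Fin V.dim → k, ∃ w, (v, w) ∈ U := by
    have h := hV (U.map (LinearMap.fst k _ _)) (by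
      rintro i _ ⟨⟨v, w⟩, hvw, rfl⟩
      refine ⟨⟨_, hUx i _ hvw, rfl⟩, ⟨_, hUy i _ hvw, rfl⟩,
        ⟨_, hUd (fun μ => s ^ Δ.ip (Δ.root i) μ) _ hvw, rfl⟩⟩)
    rcases h with h | h
    · exfalso
      have h1 : e ∈ U.map (LinearMap.fst k _ _) := ⟨(e, e), heU, rfl⟩
      rw [h, Submodule.mem_bot] at h1
      exact V.mulVec_single_ne a₀ h1
    · intro v
      have h1 : v ∈ U.map (LinearMap.fst k _ _) := by rw [h]; trivial
      obtain ⟨⟨v', w⟩, hw, hv⟩ := h1
      refine ⟨w, ?_⟩
      rw [← hv]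
      exact hw
  -- coordinates at `a₀` agree
  have hcoord : ∀ u ∈ U, u.1 a₀ = u.2 a₀ := by
    have : U ≤ LinearMap.ker ((LinearMap.proj (R := k) (φ := fun _ => k) a₀).comp (LinearMap.fst k _ _) -
        (LinearMap.proj (R := k) (φ := fun _ => k) a₀).comp (LinearMap.snd k _ _)) := by
      rw [hU, wspan, Submodule.span_le]
      rintro _ ⟨l, rfl⟩
      simp only [SetLike.mem_coe, LinearMap.mem_ker, LinearMap.sub_apply, LinearMap.comp_apply,
        LinearMap.fst_apply, LinearMap.snd_apply, LinearMap.proj_apply]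
      by_cases hl : l = []
      · subst hl
        simp [word_nil]
      · obtain ⟨h1, h2⟩ := hwordP l
        have h3 := Δ.ht_lsum_pos l hl
        have key : ∀ z : Fin V.dim → k, z ∈ V.wtSpace (V.wt a₀ - Δ.lsum l) → z a₀ = 0 := by
          intro z hz
          by_contra hne
          have h4 := hz a₀ hne
          have h5 : Δ.ht (V.wt a₀) = Δ.ht (V.wt a₀) - Δ.ht (Δ.lsum l) := by
            conv_lhs => rw [h4]
            rw [Δ.ht_sub]
          omega
        rw [key _ h1, key _ h2, sub_zero]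
    intro u hu
    have := this hu
    simp only [LinearMap.mem_ker, LinearMap.sub_apply, LinearMap.comp_apply,
        LinearMap.fst_apply, LinearMap.snd_apply, LinearMap.proj_apply] at this
    exact sub_eq_zero.1 this
  -- the kernel is zero
  have hker : ∀ w, ((0 : Fin V.dim → k), w) ∈ U → w = 0 := by
    let Q : Submodule k (Fin V.dim → k) :=
      { carrier := {v | ∀ w, ((0 : Fin V.dim → k), w) ∈ U → dotProduct v w = 0}
        add_mem' := by
          intro v v' h h' w hw
          rw [add_dotProduct, h w hw, h' w hw, add_zero]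
        zero_mem' := by intro w _; simp
        smul_mem' := by
          intro c v h w hw
          rw [smul_dotProduct, h w hw, smul_zero] }
    have hd0 : ∀ z : Δ.Wt, ∀ w, ((0 : Fin V.dim → k), w) ∈ U →
        ((0 : Fin V.dim → k), (V.Kd z).mulVec w) ∈ U := by
      intro z w hw
      have := hUd (fun μ => s ^ Δ.ip z μ) _ hw
      simpa [Kd] using this
    have hy0 : ∀ i, ∀ w, ((0 : Fin V.dim → k), w) ∈ U →
        ((0 : Fin V.dim → k), (V.Ft i).mulVec w) ∈ U := by
      intro i w hw
      have := hUy i _ hw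
      simpa [y] using this
    have hx0 : ∀ i, ∀ w, ((0 : Fin V.dim → k), w) ∈ U →
        ((0 : Fin V.dim → k), (V.Et i).mulVec w) ∈ U := by
      intro i w hw
      have := hUx i _ hw
      simpa [x] using this
    have hET : ∀ i, (V.E i).transpose = V.Ft i * V.K i := by
      intro i
      rw [Ft, mul_assoc, V.Kinv_mul_K hs, mul_one]
    have hFT : ∀ i, (V.F i).transpose = V.Kinv i * V.Et i := by
      intro i
      rw [Et, ← mul_assoc, V.Kinv_mul_K hs, one_mul]
    have hQ := hV Q (by
      intro i v hv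
      refine ⟨?_, ?_, ?_⟩
      · intro w hw
        have : dotProduct ((V.E i).mulVec v) w = dotProduct v ((V.E i).transpose.mulVec w) := by
          rw [Matrix.mulVec_transpose, dotProduct_comm, Matrix.dotProduct_mulVec, dotProduct_comm]
        rw [this, hET, ← Matrix.mulVec_mulVec]
        exact hv _ (hy0 i _ (hd0 _ _ hw))
      · intro w hw
        have : dotProduct ((V.F i).mulVec v) w = dotProduct v ((V.F i).transpose.mulVec w) := by
          rw [Matrix.mulVec_transpose, dotProduct_comm, Matrix.dotProduct_mulVec, dotProduct_comm]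
        rw [this, hFT, ← Matrix.mulVec_mulVec]
        exact hv _ (hd0 _ _ (hx0 i _ hw))
      · intro w hw
        have hK : (V.K i).transpose = V.K i := V.kd_transpose _
        have : dotProduct ((V.K i).mulVec v) w = dotProduct v ((V.K i).transpose.mulVec w) := by
          rw [Matrix.mulVec_transpose, dotProduct_comm, Matrix.dotProduct_mulVec, dotProduct_comm]
        rw [this, hK]
        exact hv _ (hd0 _ _ hw))
    rcases hQ with hQ | hQ
    · exfalso
      have h1 : e ∈ Q := by
        intro w hw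
        have := hcoord _ hw
        simp only [Pi.zero_apply] at this
        simp [he, ← this]
      rw [hQ, Submodule.mem_bot] at h1
      exact V.mulVec_single_ne a₀ h1
    · intro w hw
      funext a
      have h1 : (Pi.single a (1 : k) : Fin V.dim → k) ∈ Q := by rw [hQ]; trivial
      have := h1 w hw
      simpa using this
  have huniq : ∀ v w w', (v, w) ∈ U → (v, w') ∈ U → w = w' := by
    intro v w w' h h'
    have h1 := Submodule.sub_mem U h h'
    simp only [Prod.mk_sub_mk, sub_self] at h1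
    exact sub_eq_zero.1 (hker _ h1)
  choose φ hφ using hfst
  let Bl : (Fin V.dim → k) →ₗ[k] (Fin V.dim → k) :=
    { toFun := φ
      map_add' := by
        intro v v'
        exact huniq (v + v') _ _ (hφ _) (Submodule.add_mem U (hφ v) (hφ v'))
      map_smul' := by
        intro c v
        exact huniq (c • v) _ _ (hφ _) (Submodule.smul_mem U c (hφ v)) }
  let B := LinearMap.toMatrix' Bl
  have hB : ∀ v, B.mulVec v = φ v := by
    intro v
    exact LinearMap.toMatrix'_mulVec Bl v
  have hBU : ∀ v, (v, B.mulVec v) ∈ U := by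
    intro v; rw [hB]; exact hφ v
  have hBE : ∀ i, B * V.E i = V.Et i * B := by
    intro i
    refine mat_ext fun v => ?_
    rw [← Matrix.mulVec_mulVec, ← Matrix.mulVec_mulVec]
    exact huniq _ _ _ (hBU _) (hUx i _ (hBU v))
  have hBF : ∀ i, B * V.F i = V.Ft i * B := by
    intro i
    refine mat_ext fun v => ?_
    rw [← Matrix.mulVec_mulVec, ← Matrix.mulVec_mulVec]
    exact huniq _ _ _ (hBU _) (hUy i _ (hBU v))
  have hBd : ∀ g : Δ.Wt → k, ∀ v, B.mulVec ((Matrix.diagonal fun a => g (V.wt a)).mulVec v) =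
      (Matrix.diagonal fun a => g (V.wt a)).mulVec (B.mulVec v) := by
    intro g v
    exact huniq _ _ _ (hBU _) (hUd g _ (hBU v))
  have hBwt : ∀ a b, B a b ≠ 0 → V.wt a = V.wt b := by
    intro a b hab
    by_contra hne
    apply hab
    have h1 := congrFun (hBd (fun μ => if μ = V.wt a then 1 else 0) (Pi.single b 1)) a
    rw [Matrix.mulVec_diagonal] at h1
    simp only [if_true, one_mul] at h1
    have h2 : (Matrix.diagonal fun c => (if V.wt c = V.wt a then (1 : k) else 0)).mulVec
        (Pi.single b 1) = 0 := by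
      funext c
      rw [Matrix.mulVec_diagonal]
      by_cases hcb : c = b
      · subst hcb
        simp [Ne.symm hne]
      · simp [hcb]
    rw [h2, Matrix.mulVec_zero, Matrix.mulVec_single_one] at h1
    simpa using h1.symm
  have hBe : B.mulVec e = e := huniq _ _ _ (hBU _) heU
  have hinj : ∀ v, B.mulVec v = 0 → v = 0 := by
    have h := hV (LinearMap.ker B.mulVecLin) (by
      intro i v hv
      rw [LinearMap.mem_ker, Matrix.mulVecLin_apply] at hv
      refine ⟨?_, ?_, ?_⟩
      · rw [LinearMap.mem_ker, Matrix.mulVecLin_apply, Matrix.mulVec_mulVec, hBE,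
          ← Matrix.mulVec_mulVec, hv, Matrix.mulVec_zero]
      · rw [LinearMap.mem_ker, Matrix.mulVecLin_apply, Matrix.mulVec_mulVec, hBF,
          ← Matrix.mulVec_mulVec, hv, Matrix.mulVec_zero]
      · rw [LinearMap.mem_ker, Matrix.mulVecLin_apply]
        have := hBd (fun μ => s ^ Δ.ip (Δ.root i) μ) v
        rw [K, Kd, this, hv, Matrix.mulVec_zero])
    rcases h with h | h
    · intro v hv
      have : v ∈ LinearMap.ker B.mulVecLin := hv
      rw [h] at this
      exact this
    · exfalso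
      have h1 : e ∈ LinearMap.ker B.mulVecLin := by rw [h]; trivial
      rw [LinearMap.mem_ker, Matrix.mulVecLin_apply, hBe] at h1
      exact V.mulVec_single_ne a₀ h1
  have hdet : IsUnit B.det := by
    rw [isUnit_iff_ne_zero]
    intro h
    obtain ⟨v, hv, hv'⟩ := Matrix.exists_mulVec_eq_zero_iff.2 h
    exact hv (hinj v hv')
  exact ⟨B, B⁻¹, hBE, hBF, hBwt, Matrix.mul_nonsing_inv B hdet, Matrix.nonsing_inv_mul B hdet⟩

/-- a linear map on `V ⊗ V` commuting with the quantum group is determined by one value -/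
theorem braiding_unique {a₀ b₀ : Fin V.dim} (h₀ : V.Highest a₀) (h₁ : V.Lowest b₀)
    {c c' : Matrix (Fin V.dim × Fin V.dim) (Fin V.dim × Fin V.dim) k}
    (hE : ∀ i, c * V.E2 i = V.E2 i * c) (hF : ∀ i, c * V.F2 i = V.F2 i * c)
    (hE' : ∀ i, c' * V.E2 i = V.E2 i * c') (hF' : ∀ i, c' * V.F2 i = V.F2 i * c')
    (hv : c.mulVec (Pi.single (b₀, a₀) 1) = c'.mulVec (Pi.single (b₀, a₀) 1)) : c = c' := by
  let S : Submodule k (Fin V.dim × Fin V.dim → k) :=
    LinearMap.ker (c.mulVecLin - c'.mulVecLin)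
  have hS : ∀ z, z ∈ S ↔ c.mulVec z = c'.mulVec z := by
    intro z
    simp only [S, LinearMap.mem_ker, LinearMap.sub_apply, Matrix.mulVecLin_apply, sub_eq_zero]
  have hSE : ∀ i z, z ∈ S → (V.E2 i).mulVec z ∈ S := by
    intro i z hz
    rw [hS] at hz ⊢
    rw [Matrix.mulVec_mulVec, Matrix.mulVec_mulVec, hE, hE', ← Matrix.mulVec_mulVec, hz,
      Matrix.mulVec_mulVec]
  have hSF : ∀ i z, z ∈ S → (V.F2 i).mulVec z ∈ S := by
    intro i z hz
    rw [hS] at hz ⊢
    rw [Matrix.mulVec_mulVec, Matrix.mulVec_mulVec, hF, hF', ← Matrix.mulVec_mulVec, hz,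
      Matrix.mulVec_mulVec]
  -- step 1
  have step1 : ∀ v, tv v (Pi.single a₀ 1) ∈ S := by
    let S1 : Submodule k (Fin V.dim → k) :=
      { carrier := {v | tv v (Pi.single a₀ 1) ∈ S}
        add_mem' := by
          intro v v' h h'
          change tv (v + v') (Pi.single a₀ 1) ∈ S
          rw [tv_add_left]
          exact Submodule.add_mem S h h'
        zero_mem' := by
          change tv 0 (Pi.single a₀ 1) ∈ S
          rw [tv_zero_left]
          exact Submodule.zero_mem S
        smul_mem' := by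
          intro r v h
          change tv (r • v) (Pi.single a₀ 1) ∈ S
          rw [tv_smul_left]
          exact Submodule.smul_mem S r h }
    have h2 : wspan (fun i => (V.E i).mulVecLin) (Pi.single b₀ (1 : k)) ≤ S1 := by
      rw [wspan, Submodule.span_le]
      rintro _ ⟨l, rfl⟩
      induction l with
      | nil =>
        change tv (Pi.single b₀ 1) (Pi.single a₀ 1) ∈ S
        rw [tv_single, hS]
        exact hv
      | cons i l ih =>
        change tv ((V.E i).mulVec (word (fun i => (V.E i).mulVecLin) l (Pi.single b₀ (1 : k))))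
          (Pi.single a₀ 1) ∈ S
        have h3 := hSE i _ ih
        rw [E2, Matrix.add_mulVec, kron_tv, kron_tv, h₀.kill i, tv_zero_right, add_zero,
          Matrix.one_mulVec] at h3
        exact h3
    rw [h₁.gen] at h2
    intro v
    exact h2 trivial
  have step2 : ∀ w, ∀ v, tv v w ∈ S := by
    let S2 : Submodule k (Fin V.dim → k) :=
      { carrier := {w | ∀ v, tv v w ∈ S}
        add_mem' := by
          intro w w' h h' v
          rw [tv_add_right]
          exact Submodule.add_mem S (h v) (h' v)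
        zero_mem' := by
          intro v
          rw [tv_zero_right]
          exact Submodule.zero_mem S
        smul_mem' := by
          intro r w h v
          rw [tv_smul_right]
          exact Submodule.smul_mem S r (h v) }
    have h2 : wspan (fun i => (V.F i).mulVecLin) (Pi.single a₀ (1 : k)) ≤ S2 := by
      rw [wspan, Submodule.span_le]
      rintro _ ⟨l, rfl⟩
      induction l with
      | nil =>
        intro v
        exact step1 v
      | cons i l ih =>
        intro v
        change tv v ((V.F i).mulVec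
          (word (fun i => (V.F i).mulVecLin) l (Pi.single a₀ (1 : k)))) ∈ S
        have h3 := hSF i _ (ih v)
        rw [F2, Matrix.add_mulVec, kron_tv, kron_tv, Matrix.one_mulVec, Kinv,
          V.kd_mulVec (V.word_F_mem a₀ l), tv_smul_right] at h3
        have h4 := Submodule.smul_mem S (s ^ Δ.ip (-Δ.root i) (V.wt a₀ - Δ.lsum l))
          (ih ((V.F i).mulVec v))
        have h5 := Submodule.sub_mem S h3 h4
        rwa [add_sub_cancel_left] at h5
    rw [h₀.gen] at h2
    intro w v
    exact h2 (x := w) trivial v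
  refine mat_ext fun z => ?_
  have hz : z = ∑ p : Fin V.dim × Fin V.dim, z p • (Pi.single p (1 : k)) := by
    funext q
    simp [Finset.sum_apply, Pi.single_apply]
  rw [← hS]
  rw [hz]
  refine Submodule.sum_mem S fun p _ => Submodule.smul_mem S _ ?_
  have := step2 (Pi.single p.2 1) (Pi.single p.1 1)
  rwa [tv_single] at this

theorem braiding_wt {c : Matrix (Fin V.dim × Fin V.dim) (Fin V.dim × Fin V.dim) k}
    (hc : V.IsBraiding c) {a b a' b' : Fin V.dim} (h : c (a', b') (a, b) ≠ 0) :
    V.wt a' + V.wt b' = V.wt a + V.wt b := by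
  rcases hc.2.2.2 a b a' b' h with ⟨h1, h2⟩ | ⟨β, _, h1, h2⟩
  · rw [h1, h2, add_comm]
  · rw [h1, h2]; abel

theorem braiding_value (hs : s ≠ 0) {a₀ b₀ : Fin V.dim} (h₀ : V.Highest a₀)
    {c : Matrix (Fin V.dim × Fin V.dim) (Fin V.dim × Fin V.dim) k} (hc : V.IsBraiding c) :
    c.mulVec (Pi.single (b₀, a₀) 1) =
      s ^ Δ.ip (V.wt b₀) (V.wt a₀) • (Pi.single (a₀, b₀) (1 : k)) := by
  rw [Matrix.mulVec_single_one]
  funext p
  rcases p with ⟨a', b'⟩
  simp only [Matrix.col_apply, Pi.smul_apply, smul_eq_mul]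
  by_cases h : c (a', b') (b₀, a₀) = 0
  · rw [h]
    by_cases hp : (a', b') = (a₀, b₀)
    · exfalso
      rw [hp, hc.2.2.1] at h
      exact zpow_ne_zero _ hs h
    · rw [Pi.single_apply, if_neg hp, mul_zero]
  · rcases hc.2.2.2 _ _ _ _ h with ⟨h1, h2⟩ | ⟨β, hβ, h1, _⟩
    · subst h1; subst h2
      rw [hc.2.2.1]
      simp
    · exfalso
      have h2 := h₀.ht_le a'
      rw [h1, Δ.ht_add] at h2
      have := Δ.ht_cone_pos β hβ
      omega

/-- the braiding is symmetric with respect to the contravariant form -/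
theorem braiding_symm (hs : s ≠ 0) {a₀ b₀ : Fin V.dim} (h₀ : V.Highest a₀) (h₁ : V.Lowest b₀)
    {c : Matrix (Fin V.dim × Fin V.dim) (Fin V.dim × Fin V.dim) k} (hc : V.IsBraiding c)
    (B C : Matrix (Fin V.dim) (Fin V.dim) k) (hBE : ∀ i, B * V.E i = V.Et i * B)
    (hBF : ∀ i, B * V.F i = V.Ft i * B) (hBwt : ∀ a b, B a b ≠ 0 → V.wt a = V.wt b)
    (hBC : B * C = 1) (hCB : C * B = 1) :
    (B ⊗ₖ B) * c = c.transpose * (B ⊗ₖ B) := by
  classical
  set BB := B ⊗ₖ B with hBB
  set CC := C ⊗ₖ C with hCC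
  have h1 : BB * CC = 1 := by
    rw [hBB, hCC, ← Matrix.mul_kronecker_mul, hBC, Matrix.one_kronecker_one]
  have h2 : CC * BB = 1 := by
    rw [hBB, hCC, ← Matrix.mul_kronecker_mul, hCB, Matrix.one_kronecker_one]
  have hBK : ∀ z, B * V.Kd z = V.Kd z * B := by
    intro z
    have hsh : V.Shifts 0 B := by
      intro a b hab
      rw [hBwt a b hab, add_zero]
    have := hsh.kd hs z
    have e : Δ.ip z 0 = 0 := by simp [CartanDatum.ip]
    rw [e, zpow_zero, one_smul] at this
    exact this.symm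
  -- `c` commutes with `K ⊗ K`
  have hcK : ∀ z, c * (V.Kd z ⊗ₖ V.Kd z) = (V.Kd z ⊗ₖ V.Kd z) * c := by
    intro z
    have e : V.Kd z ⊗ₖ V.Kd z = Matrix.diagonal (fun p : Fin V.dim × Fin V.dim =>
        s ^ Δ.ip z (V.wt p.1 + V.wt p.2)) := by
      rw [Kd, Matrix.diagonal_kronecker_diagonal]
      congr 1
      funext p
      rw [Δ.ip_add_right, zpow_add₀ hs]
    rw [e]
    ext ⟨a', b'⟩ ⟨a, b⟩
    rw [Matrix.mul_diagonal, Matrix.diagonal_mul]
    by_cases h : c (a', b') (a, b) = 0
    · simp [h]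
    · simp only [V.braiding_wt hc h]
      ring
  -- the transposed operators
  have hE2t : ∀ i, V.Et i ⊗ₖ 1 + V.K i ⊗ₖ V.Et i =
      (V.K i ⊗ₖ V.K i) * (V.F2 i).transpose := by
    intro i
    have hKi : (V.Kinv i).transpose = V.Kinv i := V.kd_transpose _
    rw [F2, Matrix.transpose_add, kron_transpose, kron_transpose, mul_add,
      ← Matrix.mul_kronecker_mul, ← Matrix.mul_kronecker_mul, hKi, V.K_mul_Kinv hs,
      Matrix.transpose_one, mul_one]
    rfl
  have hF2t : ∀ i, V.Ft i ⊗ₖ V.Kinv i + 1 ⊗ₖ V.Ft i =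
      (V.E2 i).transpose * (V.Kinv i ⊗ₖ V.Kinv i) := by
    intro i
    have hKi : (V.K i).transpose = V.K i := V.kd_transpose _
    rw [E2, Matrix.transpose_add, kron_transpose, kron_transpose, add_mul,
      ← Matrix.mul_kronecker_mul, ← Matrix.mul_kronecker_mul, hKi, V.K_mul_Kinv hs,
      Matrix.transpose_one, one_mul]
    rfl
  have hcE2t : ∀ i, c.transpose * (V.Et i ⊗ₖ 1 + V.K i ⊗ₖ V.Et i) =
      (V.Et i ⊗ₖ 1 + V.K i ⊗ₖ V.Et i) * c.transpose := by
    intro i
    have e1 : c.transpose * (V.K i ⊗ₖ V.K i) = (V.K i ⊗ₖ V.K i) * c.transpose := by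
      have := congrArg Matrix.transpose (hcK (Δ.root i))
      rw [Matrix.transpose_mul, Matrix.transpose_mul, kron_transpose,
        V.kd_transpose] at this
      exact this.symm
    have e2 : c.transpose * (V.F2 i).transpose = (V.F2 i).transpose * c.transpose := by
      rw [← Matrix.transpose_mul, ← Matrix.transpose_mul, hc.2.1 i]
    rw [hE2t, ← mul_assoc, e1, mul_assoc, e2, mul_assoc]
  have hcF2t : ∀ i, c.transpose * (V.Ft i ⊗ₖ V.Kinv i + 1 ⊗ₖ V.Ft i) =
      (V.Ft i ⊗ₖ V.Kinv i + 1 ⊗ₖ V.Ft i) * c.transpose := by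
    intro i
    have e1 : c.transpose * (V.Kinv i ⊗ₖ V.Kinv i) = (V.Kinv i ⊗ₖ V.Kinv i) * c.transpose := by
      have := congrArg Matrix.transpose (hcK (-Δ.root i))
      rw [Matrix.transpose_mul, Matrix.transpose_mul, kron_transpose,
        V.kd_transpose] at this
      exact this.symm
    have e2 : c.transpose * (V.E2 i).transpose = (V.E2 i).transpose * c.transpose := by
      rw [← Matrix.transpose_mul, ← Matrix.transpose_mul, hc.1 i]
    rw [hF2t, ← mul_assoc, e2, mul_assoc, e1, mul_assoc]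
  have hBBE : ∀ i, BB * V.E2 i = (V.Et i ⊗ₖ 1 + V.K i ⊗ₖ V.Et i) * BB := by
    intro i
    rw [hBB, E2, mul_add, add_mul, ← Matrix.mul_kronecker_mul, ← Matrix.mul_kronecker_mul,
      ← Matrix.mul_kronecker_mul, ← Matrix.mul_kronecker_mul, hBE, K, hBK, mul_one, one_mul]
  have hBBF : ∀ i, BB * V.F2 i = (V.Ft i ⊗ₖ V.Kinv i + 1 ⊗ₖ V.Ft i) * BB := by
    intro i
    rw [hBB, F2, mul_add, add_mul, ← Matrix.mul_kronecker_mul, ← Matrix.mul_kronecker_mul,
      ← Matrix.mul_kronecker_mul, ← Matrix.mul_kronecker_mul, hBF, Kinv, hBK, mul_one, one_mul]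
  set d := CC * c.transpose * BB with hd
  have move : ∀ X Y, BB * X = Y * BB → c.transpose * Y = Y * c.transpose → d * X = X * d := by
    intro X Y h h'
    have h3 : CC * Y = X * CC := by
      calc CC * Y = CC * Y * (BB * CC) := by rw [h1, mul_one]
        _ = CC * (Y * BB) * CC := by simp only [mul_assoc]
        _ = CC * (BB * X) * CC := by rw [h]
        _ = (CC * BB) * X * CC := by simp only [mul_assoc]
        _ = X * CC := by rw [h2, one_mul]
    calc d * X = CC * c.transpose * (BB * X) := by rw [hd, mul_assoc]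
      _ = CC * (c.transpose * Y) * BB := by rw [h]; simp only [mul_assoc]
      _ = (CC * Y) * (c.transpose * BB) := by rw [h']; simp only [mul_assoc]
      _ = X * d := by rw [h3, hd]; simp only [mul_assoc]
  have hdval : d.mulVec (Pi.single (b₀, a₀) 1) = c.mulVec (Pi.single (b₀, a₀) 1) := by
    -- `B` on extremal vectors
    have hBa : B.mulVec (Pi.single a₀ 1) = B a₀ a₀ • Pi.single a₀ (1 : k) := by
      rw [Matrix.mulVec_single_one]
      funext a
      simp only [Matrix.col_apply, Pi.smul_apply, smul_eq_mul]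
      by_cases h : B a a₀ = 0
      · by_cases ha : a = a₀
        · subst ha; simp
        · simp [h, ha]
      · have := h₀.uniq a (hBwt _ _ h)
        subst this
        simp
    have hBb : B.mulVec (Pi.single b₀ 1) = B b₀ b₀ • Pi.single b₀ (1 : k) := by
      rw [Matrix.mulVec_single_one]
      funext a
      simp only [Matrix.col_apply, Pi.smul_apply, smul_eq_mul]
      by_cases h : B a b₀ = 0
      · by_cases ha : a = b₀
        · subst ha; simp
        · simp [h, ha]
      · have := h₁.uniq a (hBwt _ _ h)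
        subst this
        simp
    have hct : c.transpose.mulVec (Pi.single (b₀, a₀) 1) =
        s ^ Δ.ip (V.wt a₀) (V.wt b₀) • (Pi.single (a₀, b₀) (1 : k)) := by
      rw [Matrix.mulVec_single_one]
      funext p
      rcases p with ⟨a, b⟩
      simp only [Matrix.col_apply, Matrix.transpose_apply, Pi.smul_apply, smul_eq_mul]
      by_cases h : c (b₀, a₀) (a, b) = 0
      · rw [h]
        by_cases hp : (a, b) = (a₀, b₀)
        · exfalso
          rw [hp, hc.2.2.1] at h
          exact zpow_ne_zero _ hs h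
        · rw [Pi.single_apply, if_neg hp, mul_zero]
      · rcases hc.2.2.2 _ _ _ _ h with ⟨h1, h2⟩ | ⟨β, hβ, h1, _⟩
        · subst h1; subst h2
          rw [hc.2.2.1]
          simp
        · exfalso
          have h2 := h₁.ht_le b
          rw [h1, Δ.ht_add] at h2
          have := Δ.ht_cone_pos β hβ
          omega
    have e1 : BB.mulVec (Pi.single (b₀, a₀) 1) = (B b₀ b₀ * B a₀ a₀) • Pi.single (b₀, a₀) 1 := by
      rw [← tv_single, hBB, kron_tv, hBa, hBb, tv_smul_left, tv_smul_right, smul_smul]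
    have e2 : BB.mulVec (Pi.single (a₀, b₀) 1) = (B a₀ a₀ * B b₀ b₀) • Pi.single (a₀, b₀) 1 := by
      rw [← tv_single, hBB, kron_tv, hBa, hBb, tv_smul_left, tv_smul_right, smul_smul]
    have e3 : (B a₀ a₀ * B b₀ b₀) • CC.mulVec (Pi.single (a₀, b₀) 1) =
        (Pi.single (a₀, b₀) (1 : k)) := by
      rw [← Matrix.mulVec_smul, ← e2, Matrix.mulVec_mulVec, h2, Matrix.one_mulVec]
    rw [V.braiding_value hs h₀ hc, hd, ← Matrix.mulVec_mulVec, ← Matrix.mulVec_mulVec, e1,
      Matrix.mulVec_smul, hct, Matrix.mulVec_smul, Matrix.mulVec_smul, smul_comm,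
      mul_comm (B b₀ b₀), e3, Δ.ip_symm]
  have hdc : d = c := V.braiding_unique h₀ h₁ (fun i => move _ _ (hBBE i) (hcE2t i))
    (fun i => move _ _ (hBBF i) (hcF2t i)) hc.1 hc.2.1 hdval
  rw [← hdc, hd]
  rw [← mul_assoc, ← mul_assoc, h1, one_mul]
  conv_rhs => rw [← hd, hdc]

theorem braiding_symm_inv (B C : Matrix (Fin V.dim) (Fin V.dim) k)
    {c : Matrix (Fin V.dim × Fin V.dim) (Fin V.dim × Fin V.dim) k}
    (hBC : B * C = 1) (hCB : C * B = 1)
    (h : (B ⊗ₖ B) * c = c.transpose * (B ⊗ₖ B)) :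
    (B ⊗ₖ B) * c⁻¹ = (c⁻¹).transpose * (B ⊗ₖ B) := by
  set BB := B ⊗ₖ B with hBB
  set CC := C ⊗ₖ C with hCC
  have h1 : BB * CC = 1 := by
    rw [hBB, hCC, ← Matrix.mul_kronecker_mul, hBC, Matrix.one_kronecker_one]
  have h2 : CC * BB = 1 := by
    rw [hBB, hCC, ← Matrix.mul_kronecker_mul, hCB, Matrix.one_kronecker_one]
  have h3 : c.transpose = BB * c * CC := by
    rw [h, mul_assoc, h1, mul_one]
  have h4 : BB⁻¹ = CC := Matrix.inv_eq_right_inv h1
  have h5 : CC⁻¹ = BB := Matrix.inv_eq_right_inv h2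
  have h6 : (c⁻¹).transpose = BB * c⁻¹ * CC := by
    rw [Matrix.transpose_nonsing_inv, h3, Matrix.mul_inv_rev, Matrix.mul_inv_rev, h4, h5, mul_assoc]
  rw [h6, mul_assoc, h2, mul_one]

end QModule

end Pool.Agent.W616
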