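import Pool.Agent.W616.QDefs

/-!
# Linear algebra of tensor powers: matrices acting on some of the tensor factors
-/

set_option autoImplicit false
set_option linter.unusedSectionVars false

open scoped Kronecker

namespace Pool.Agent.W616

section emb

variable {k : Type} [Field k] {α β γ ι : Type} [Fintype α] [Fintype β] [Fintype γ]
  [DecidableEq α] [DecidableEq β] [DecidableEq γ] [Fintype ι] [DecidableEq ι]

open Classical in
/-- the matrix `T` acting on the tensor factors `e i` -/
noncomputable def embMat (e : α → β) (T : Matrix (α → ι) (α → ι) k) :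
    Matrix (β → ι) (β → ι) k := fun x y =>
  if ∀ j, j ∉ Set.range e → x j = y j then T (x ∘ e) (y ∘ e) else 0

theorem extend_comp (e : α → β) (he : Function.Injective e) (u : α → ι) (z : β → ι) :
    Function.extend e u z ∘ e = u := by
  funext i
  simp [he.extend_apply]

theorem extend_off (e : α → β) (u : α → ι) (z : β → ι) (j : β)
    (hj : j ∉ Set.range e) : Function.extend e u z j = z j := by
  rw [Function.extend_apply']
  simpa using hj

open Classical in
theorem sum_restrict (e : α → β) (he : Function.Injective e) (z : β → ι) (g : (β → ι) → k) :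
    (∑ y, if ∀ j, j ∉ Set.range e → y j = z j then g y else 0) =
      ∑ u : α → ι, g (Function.extend e u z) := by
  rw [← Finset.sum_filter]
  refine Finset.sum_bij' (fun y _ => y ∘ e) (fun u _ => Function.extend e u z) ?_ ?_ ?_ ?_ ?_
  · intro y _; exact Finset.mem_univ _
  · intro u _
    simp only [Finset.mem_filter, Finset.mem_univ, true_and]
    intro j hj
    exact extend_off e u z j hj
  · intro y hy
    simp only [Finset.mem_filter, Finset.mem_univ, true_and] at hy
    funext j
    by_cases hj : j ∈ Set.range e
    · obtain ⟨i, rfl⟩ := hj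
      simp [he.extend_apply]
    · rw [extend_off e _ z j hj, hy j hj]
  · intro u _
    exact extend_comp e he u z
  · intro y hy
    simp only [Finset.mem_filter, Finset.mem_univ, true_and] at hy
    congr 1
    funext j
    by_cases hj : j ∈ Set.range e
    · obtain ⟨i, rfl⟩ := hj
      simp [he.extend_apply]
    · rw [extend_off e _ z j hj, hy j hj]

theorem sum_restrict' (e : α → β) (he : Function.Injective e) (z : β → ι)
    (P : (β → ι) → Prop) [DecidablePred P] (hP : ∀ y, P y ↔ ∀ j, j ∉ Set.range e → y j = z j)
    (g : (β → ι) → k) :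
    (∑ y, if P y then g y else 0) = ∑ u : α → ι, g (Function.extend e u z) := by
  classical
  rw [← sum_restrict e he z g]
  refine Finset.sum_congr rfl fun y _ => ?_
  by_cases h : P y
  · rw [if_pos h, if_pos ((hP y).1 h)]
  · rw [if_neg h, if_neg (fun h' => h ((hP y).2 h'))]

theorem embMat_mul (e : α → β) (he : Function.Injective e) (S T : Matrix (α → ι) (α → ι) k) :
    embMat e S * embMat e T = embMat (ι := ι) e (S * T) := by
  classical
  ext x z
  rw [Matrix.mul_apply]
  have h1 : ∀ y, embMat e S x y * embMat e T y z =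
      if ∀ j, j ∉ Set.range e → y j = z j then
        (if ∀ j, j ∉ Set.range e → x j = y j then S (x ∘ e) (y ∘ e) * T (y ∘ e) (z ∘ e) else 0)
      else 0 := by
    intro y
    simp only [embMat]
    split_ifs <;> simp
  rw [Finset.sum_congr rfl fun y _ => h1 y, sum_restrict e he z]
  simp only [embMat, Matrix.mul_apply]
  have h2 : ∀ u : α → ι, (∀ j, j ∉ Set.range e → x j = Function.extend e u z j) ↔
      ∀ j, j ∉ Set.range e → x j = z j := by
    intro u
    refine forall_congr' fun j => forall_congr' fun hj => ?_
    rw [extend_off e u z j hj]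
  by_cases h : ∀ j, j ∉ Set.range e → x j = z j
  · rw [if_pos h]
    refine Finset.sum_congr rfl fun u _ => ?_
    rw [if_pos ((h2 u).2 h), extend_comp e he]
  · rw [if_neg h]
    refine Finset.sum_eq_zero fun u _ => ?_
    rw [if_neg (fun h' => h ((h2 u).1 h'))]

theorem embMat_one (e : α → β) : embMat e (1 : Matrix (α → ι) (α → ι) k) = 1 := by
  classical
  ext x y
  simp only [embMat, Matrix.one_apply]
  by_cases h : x = y
  · subst h; simp
  · rw [if_neg h]
    split_ifs with h1 h2
    · exfalso
      apply h
      funext j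
      by_cases hj : j ∈ Set.range e
      · obtain ⟨i, rfl⟩ := hj
        exact congrFun h2 i
      · exact h1 j hj
    · rfl
    · rfl

theorem embMat_transpose (e : α → β) (T : Matrix (α → ι) (α → ι) k) :
    (embMat e T).transpose = embMat e T.transpose := by
  classical
  ext x y
  simp only [embMat, Matrix.transpose_apply, eq_comm]

theorem embMat_comp (e : α → β) (f : β → γ) (hf : Function.Injective f)
    (T : Matrix (α → ι) (α → ι) k) : embMat f (embMat e T) = embMat (f ∘ e) T := by
  classical
  ext x y
  simp only [embMat]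
  have key : (∀ j, j ∉ Set.range (f ∘ e) → x j = y j) ↔
      ((∀ j, j ∉ Set.range f → x j = y j) ∧ ∀ j, j ∉ Set.range e → (x ∘ f) j = (y ∘ f) j) := by
    constructor
    · intro h
      refine ⟨fun j hj => h j ?_, fun j hj => h (f j) ?_⟩
      · rintro ⟨i, rfl⟩
        exact hj ⟨e i, rfl⟩
      · rintro ⟨i, hi⟩
        exact hj ⟨i, hf hi⟩
    · rintro ⟨h1, h2⟩ j hj
      by_cases hj' : j ∈ Set.range f
      · obtain ⟨i, rfl⟩ := hj'
        refine h2 i ?_
        rintro ⟨l, rfl⟩
        exact hj ⟨l, rfl⟩
      · exact h1 j hj'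
  by_cases h1 : ∀ j, j ∉ Set.range f → x j = y j
  · rw [if_pos h1]
    by_cases h2 : ∀ j, j ∉ Set.range e → (x ∘ f) j = (y ∘ f) j
    · rw [if_pos h2, if_pos (key.2 ⟨h1, h2⟩)]
      rfl
    · rw [if_neg h2, if_neg (fun h => h2 (key.1 h).2)]
  · rw [if_neg h1, if_neg (fun h => h1 (key.1 h).1)]

/-- the tensor power of a matrix -/
noncomputable def tens (α : Type) [Fintype α] (B : Matrix ι ι k) : Matrix (α → ι) (α → ι) k :=
  fun x y => ∏ j, B (x j) (y j)

theorem tens_mul (B C : Matrix ι ι k) : tens α B * tens α C = tens α (B * C) := by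
  ext x z
  simp only [tens, Matrix.mul_apply]
  rw [Finset.prod_univ_sum]
  simp only [Fintype.piFinset_univ, Finset.prod_mul_distrib]

theorem tens_one : tens α (1 : Matrix ι ι k) = 1 := by
  ext x y
  simp only [tens, Matrix.one_apply]
  by_cases h : x = y
  · subst h; simp
  · rw [if_neg h]
    obtain ⟨j, hj⟩ := Function.ne_iff.1 h
    exact Finset.prod_eq_zero (Finset.mem_univ j) (by rw [if_neg hj])

open Classical in
theorem prod_split (e : α → β) (he : Function.Injective e) (f : β → k) :
    ∏ j, f j = (∏ i, f (e i)) * ∏ j ∈ Finset.univ.filter (fun j => j ∉ Set.range e), f j := by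
  rw [← Finset.prod_filter_mul_prod_filter_not Finset.univ (fun j => j ∈ Set.range e)]
  congr 1
  symm
  refine Finset.prod_bij (fun i _ => e i) ?_ ?_ ?_ ?_
  · intro i _; simp
  · intro i _ j _ h; exact he h
  · intro j hj
    simp only [Finset.mem_filter, Finset.mem_univ, true_and] at hj
    obtain ⟨i, hi⟩ := hj
    exact ⟨i, Finset.mem_univ _, hi⟩
  · intro i _; rfl

theorem tens_embMat (e : α → β) (he : Function.Injective e) (B : Matrix ι ι k)
    (T T' : Matrix (α → ι) (α → ι) k) (h : tens α B * T = T' * tens α B) :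
    tens β B * embMat e T = embMat e T' * tens β B := by
  classical
  ext x z
  have hL : (tens β B * embMat e T) x z =
      (∏ j ∈ Finset.univ.filter (fun j => j ∉ Set.range e), B (x j) (z j)) *
        (tens α B * T) (x ∘ e) (z ∘ e) := by
    rw [Matrix.mul_apply]
    have h1 : ∀ y, tens β B x y * embMat e T y z =
        if ∀ j, j ∉ Set.range e → y j = z j then tens β B x y * T (y ∘ e) (z ∘ e) else 0 := by
      intro y
      simp only [embMat]
      split_ifs <;> simp
    rw [Finset.sum_congr rfl fun y _ => h1 y, sum_restrict e he z, Matrix.mul_apply,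
      Finset.mul_sum]
    refine Finset.sum_congr rfl fun u _ => ?_
    rw [extend_comp e he]
    simp only [tens]
    rw [prod_split e he]
    have h2 : ∏ j ∈ Finset.univ.filter (fun j => j ∉ Set.range e),
        B (x j) (Function.extend e u z j) =
        ∏ j ∈ Finset.univ.filter (fun j => j ∉ Set.range e), B (x j) (z j) := by
      refine Finset.prod_congr rfl fun j hj => ?_
      rw [extend_off e u z j (Finset.mem_filter.1 hj).2]
    rw [h2]
    simp only [he.extend_apply, Function.comp_apply]
    ring
  have hR : (embMat e T' * tens β B) x z =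
      (∏ j ∈ Finset.univ.filter (fun j => j ∉ Set.range e), B (x j) (z j)) *
        (T' * tens α B) (x ∘ e) (z ∘ e) := by
    rw [Matrix.mul_apply]
    have h1 : ∀ y, embMat e T' x y * tens β B y z =
        if ∀ j, j ∉ Set.range e → y j = x j then T' (x ∘ e) (y ∘ e) * tens β B y z else 0 := by
      intro y
      simp only [embMat, eq_comm (a := y _)]
      split_ifs <;> simp
    rw [Finset.sum_congr rfl fun y _ => h1 y, sum_restrict e he x, Matrix.mul_apply,
      Finset.mul_sum]
    refine Finset.sum_congr rfl fun u _ => ?_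
    rw [extend_comp e he]
    simp only [tens]
    rw [prod_split e he]
    have h2 : ∏ j ∈ Finset.univ.filter (fun j => j ∉ Set.range e),
        B (Function.extend e u x j) (z j) =
        ∏ j ∈ Finset.univ.filter (fun j => j ∉ Set.range e), B (x j) (z j) := by
      refine Finset.prod_congr rfl fun j hj => ?_
      rw [extend_off e u x j (Finset.mem_filter.1 hj).2]
    rw [h2]
    simp only [he.extend_apply, Function.comp_apply]
    ring
  rw [hL, hR, h]

end emb

section gen

variable {k : Type} [Field k] {ι : Type} [Fintype ι] [DecidableEq ι]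

/-- a matrix on `V ⊗ V` in terms of the index type `Fin 2 → ι` -/
def on2 (c : Matrix (ι × ι) (ι × ι) k) : Matrix (Fin 2 → ι) (Fin 2 → ι) k :=
  c.submatrix (finTwoArrowEquiv ι) (finTwoArrowEquiv ι)

theorem on2_mul (c d : Matrix (ι × ι) (ι × ι) k) : on2 (c * d) = on2 c * on2 d := by
  simp only [on2]
  rw [Matrix.submatrix_mul_equiv]

theorem on2_kron (B : Matrix ι ι k) : on2 (B ⊗ₖ B) = tens (Fin 2) B := by
  ext x y
  simp [on2, tens, Fin.prod_univ_two, Matrix.kroneckerMap_apply]

/-- the pair of positions on which the `i`-th generator acts -/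
def pr {m : ℕ} (i : Fin m) : Fin 2 → Fin (m + 1) := ![i.castSucc, i.succ]

theorem pr_inj {m : ℕ} (i : Fin m) : Function.Injective (pr i) := by
  intro a b h
  fin_cases a <;> fin_cases b <;> simp [pr, Fin.ext_iff] at h ⊢

theorem not_mem_range_pr {m : ℕ} (i : Fin m) (j : Fin (m + 1)) :
    j ∉ Set.range (pr i) ↔ j ≠ i.castSucc ∧ j ≠ i.succ := by
  simp only [pr, Set.mem_range, not_exists]
  constructor
  · intro h
    exact ⟨fun h' => h 0 (by simp [h']), fun h' => h 1 (by simp [h'])⟩
  · rintro ⟨h1, h2⟩ x
    fin_cases x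
    · simpa using h1.symm
    · simpa using h2.symm

theorem genMat_eq {m : ℕ} (c : Matrix (ι × ι) (ι × ι) k) (i : Fin m) :
    genMat c i = embMat (pr i) (on2 c) := by
  classical
  ext x y
  simp only [genMat, embMat]
  have h : (∀ j, j ≠ i.castSucc → j ≠ i.succ → x j = y j) ↔
      ∀ j, j ∉ Set.range (pr i) → x j = y j := by
    refine forall_congr' fun j => ?_
    rw [not_mem_range_pr]
    exact ⟨fun h h' => h h'.1 h'.2, fun h h1 h2 => h ⟨h1, h2⟩⟩
  by_cases h1 : ∀ j, j ≠ i.castSucc → j ≠ i.succ → x j = y j
  · rw [if_pos h1, if_pos (h.1 h1)]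
    simp [on2, pr]
  · rw [if_neg h1, if_neg (fun h' => h1 (h.2 h'))]

theorem genMat_transpose {m : ℕ} (c : Matrix (ι × ι) (ι × ι) k) (i : Fin m) :
    (genMat c i).transpose = genMat c.transpose i := by
  rw [genMat_eq, genMat_eq, embMat_transpose]
  rfl

theorem braidMat_foldl {m : ℕ} (c : Matrix (ι × ι) (ι × ι) k) (w : Braid m)
    (T : Matrix (Fin (m + 1) → ι) (Fin (m + 1) → ι) k) :
    w.foldl (fun T g => genMat (if g.2 then c else c⁻¹) g.1 * T) T = braidMat c w * T := by
  induction w generalizing T with
  | nil => simp [braidMat]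
  | cons g w ih =>
    simp only [braidMat, List.foldl_cons]
    rw [ih, ih]
    simp [mul_assoc]

theorem braidMat_nil {m : ℕ} (c : Matrix (ι × ι) (ι × ι) k) :
    braidMat c ([] : Braid m) = 1 := rfl

theorem braidMat_append {m : ℕ} (c : Matrix (ι × ι) (ι × ι) k) (w w' : Braid m) :
    braidMat c (w ++ w') = braidMat c w' * braidMat c w := by
  rw [braidMat, List.foldl_append, braidMat_foldl]
  rfl

theorem braidMat_single {m : ℕ} (c : Matrix (ι × ι) (ι × ι) k) (g : Fin m × Bool) :
    braidMat c [g] = genMat (if g.2 then c else c⁻¹) g.1 := by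
  simp [braidMat]

theorem braidMat_cons {m : ℕ} (c : Matrix (ι × ι) (ι × ι) k) (g : Fin m × Bool) (w : Braid m) :
    braidMat c (g :: w) = braidMat c w * genMat (if g.2 then c else c⁻¹) g.1 := by
  rw [← List.singleton_append, braidMat_append, braidMat_single]

/-- If `B ⊗ B` intertwines `c` and its transpose, then the tensor power of `B` intertwines the action
of the reversed word and the transpose of the action of the word. -/
theorem braidMat_reverse {m : ℕ} (c : Matrix (ι × ι) (ι × ι) k) (B : Matrix ι ι k)
    (h : (B ⊗ₖ B) * c = c.transpose * (B ⊗ₖ B)) (h' : (B ⊗ₖ B) * c⁻¹ = (c⁻¹).transpose * (B ⊗ₖ B))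
    (w : Braid m) :
    tens (Fin (m + 1)) B * braidMat c w.reverse =
      (braidMat c w).transpose * tens (Fin (m + 1)) B := by
  have key : ∀ g : Fin m × Bool, tens (Fin (m + 1)) B * genMat (if g.2 then c else c⁻¹) g.1 =
      (genMat (if g.2 then c else c⁻¹) g.1).transpose * tens (Fin (m + 1)) B := by
    intro g
    rw [genMat_transpose, genMat_eq, genMat_eq]
    apply tens_embMat _ (pr_inj _)
    rw [← on2_kron, ← on2_mul, ← on2_mul]
    congr 1
    by_cases hg : g.2
    · simpa [hg] using h
    · simpa [hg] using h'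
  induction w with
  | nil => simp [braidMat_nil]
  | cons g w ih =>
    rw [List.reverse_cons, braidMat_append, braidMat_single, ← mul_assoc, key, mul_assoc, ih,
      ← mul_assoc, ← Matrix.transpose_mul, braidMat_cons]

/-- A word on a smaller number of strands, placed on some consecutive strands. -/
theorem braidMat_map {m n : ℕ} (c : Matrix (ι × ι) (ι × ι) k) (e : Fin m → Fin n)
    (f : Fin (m + 1) → Fin (n + 1)) (hf : Function.Injective f)
    (h1 : ∀ i, f i.castSucc = (e i).castSucc) (h2 : ∀ i, f i.succ = (e i).succ) (w : Braid m) :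
    braidMat c (w.map fun g => (e g.1, g.2)) = embMat f (braidMat c w) := by
  induction w with
  | nil => simp [braidMat_nil, embMat_one]
  | cons g w ih =>
    rw [List.map_cons, braidMat_cons, braidMat_cons, ih, ← embMat_mul f hf]
    congr 1
    rw [genMat_eq, genMat_eq, embMat_comp _ _ hf]
    congr 1
    funext x
    fin_cases x
    · simp [pr, h1]
    · simp [pr, h2]

end gen

end Pool.Agent.W616
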