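import Pool.Agent.W616.QLin

/-!
# Simple modules over the quantum group and their braidings
-/

set_option autoImplicit false
set_option linter.unusedSectionVars false

open scoped Kronecker

namespace Pool.Agent.W616

namespace CartanDatum

variable (Δ : CartanDatum)

theorem ip_add_left (x y z : Δ.Wt) : Δ.ip (x + y) z = Δ.ip x z + Δ.ip y z := by
  simp only [ip, Pi.add_apply, add_mul, Finset.sum_add_distrib]

theorem ip_add_right (x y z : Δ.Wt) : Δ.ip x (y + z) = Δ.ip x y + Δ.ip x z := by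
  simp only [ip, Pi.add_apply, mul_add, Finset.sum_add_distrib]

theorem ip_neg_left (x z : Δ.Wt) : Δ.ip (-x) z = -Δ.ip x z := by
  simp only [ip, Pi.neg_apply, neg_mul, Finset.sum_neg_distrib]

theorem ip_neg_right (x z : Δ.Wt) : Δ.ip x (-z) = -Δ.ip x z := by
  simp only [ip, Pi.neg_apply, mul_neg, Finset.sum_neg_distrib]

theorem ip_sub_left (x y z : Δ.Wt) : Δ.ip (x - y) z = Δ.ip x z - Δ.ip y z := by
  rw [sub_eq_add_neg, ip_add_left, ip_neg_left, sub_eq_add_neg]

theorem ip_sub_right (x y z : Δ.Wt) : Δ.ip x (y - z) = Δ.ip x y - Δ.ip x z := by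
  rw [sub_eq_add_neg, ip_add_right, ip_neg_right, sub_eq_add_neg]

theorem ip_root_right (x : Δ.Wt) (j : Fin Δ.n) : Δ.ip x (Δ.root j) = Δ.detA * Δ.d j * x j := by
  have h : ∀ i, ∑ l, Δ.A.adjugate i l * Δ.A l j = if i = j then Δ.detA else 0 := by
    intro i
    have := congrFun (congrFun (Matrix.adjugate_mul Δ.A) i) j
    rw [Matrix.mul_apply] at this
    rw [this]
    simp [Matrix.one_apply, detA]
  have h1 : Δ.ip x (Δ.root j) = ∑ i, x i * (Δ.d i : ℤ) * ∑ l, Δ.A.adjugate i l * Δ.A l j := by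
    simp only [ip, root, Finset.mul_sum]
    refine Finset.sum_congr rfl fun i _ => Finset.sum_congr rfl fun l _ => ?_
    ring
  rw [h1]
  simp only [h, mul_ite, mul_zero, Finset.sum_ite_eq', Finset.mem_univ, if_true]
  ring

theorem ip_root_left (x : Δ.Wt) (j : Fin Δ.n) : Δ.ip (Δ.root j) x = Δ.detA * Δ.d j * x j := by
  have h : ∀ l, ∑ i, Δ.A j i * Δ.A.adjugate i l = if j = l then Δ.detA else 0 := by
    intro l
    have := congrFun (congrFun (Matrix.mul_adjugate Δ.A) j) l
    rw [Matrix.mul_apply] at this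
    rw [this]
    simp [Matrix.one_apply, detA]
  have h1 : Δ.ip (Δ.root j) x = ∑ l, (Δ.d j : ℤ) * x l * ∑ i, Δ.A j i * Δ.A.adjugate i l := by
    simp only [ip, root, Finset.mul_sum]
    rw [Finset.sum_comm]
    refine Finset.sum_congr rfl fun l _ => Finset.sum_congr rfl fun i _ => ?_
    have := Δ.symm i j
    calc Δ.A i j * ((Δ.d i : ℤ) * Δ.A.adjugate i l) * x l
        = ((Δ.d i : ℤ) * Δ.A i j) * Δ.A.adjugate i l * x l := by ring
      _ = _ := by rw [this]; ring
  rw [h1]
  simp only [h, mul_ite, mul_zero, Finset.sum_ite_eq, Finset.mem_univ, if_true]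
  ring

theorem detA_ne_zero : Δ.detA ≠ 0 := by
  intro h
  obtain ⟨v, hv, hv'⟩ := Matrix.exists_mulVec_eq_zero_iff.2 h
  have h1 := Δ.pos v hv
  have h2 : ∑ i, ∑ j, v i * ((Δ.d i : ℤ) * Δ.A i j) * v j = ∑ i, v i * (Δ.d i : ℤ) * (Δ.A.mulVec v) i := by
    refine Finset.sum_congr rfl fun i _ => ?_
    simp only [Matrix.mulVec, dotProduct, Finset.mul_sum]
    refine Finset.sum_congr rfl fun j _ => ?_
    ring
  rw [h2, hv'] at h1
  simp at h1

theorem ip_symm (x y : Δ.Wt) : Δ.ip x y = Δ.ip y x := by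
  -- `A^T D = D A`
  set D : Matrix (Fin Δ.n) (Fin Δ.n) ℤ := Matrix.diagonal fun i => (Δ.d i : ℤ) with hD
  have h1 : Δ.A.transpose * D = D * Δ.A := by
    ext i j
    simp only [hD, Matrix.mul_diagonal, Matrix.diagonal_mul, Matrix.transpose_apply]
    rw [mul_comm]
    exact (Δ.symm i j).symm
  have h2 : Δ.A.transpose * (D * Δ.A.adjugate) = Δ.A.transpose * (Δ.A.adjugate.transpose * D) := by
    rw [← mul_assoc, h1, mul_assoc, Matrix.mul_adjugate, ← mul_assoc, ← Matrix.transpose_mul,
      Matrix.adjugate_mul]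
    simp only [Matrix.mul_smul, Matrix.smul_mul, mul_one, one_mul, Matrix.transpose_smul,
      Matrix.transpose_one]
  have h3 : D * Δ.A.adjugate = Δ.A.adjugate.transpose * D := by
    have h4 : Δ.detA • (D * Δ.A.adjugate) = Δ.detA • (Δ.A.adjugate.transpose * D) := by
      have e1 : ∀ M : Matrix (Fin Δ.n) (Fin Δ.n) ℤ,
          Δ.A.transpose.adjugate * (Δ.A.transpose * M) = Δ.detA • M := by
        intro M
        rw [← mul_assoc, Matrix.adjugate_mul, Matrix.det_transpose, Matrix.smul_mul, one_mul]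
        rfl
      rw [← e1, h2, e1]
    have h5 : Δ.detA ≠ 0 := Δ.detA_ne_zero
    ext i j
    have := congrFun (congrFun h4 i) j
    simp only [Matrix.smul_apply, smul_eq_mul] at this
    exact mul_left_cancel₀ h5 this
  have h6 : ∀ i j, (Δ.d i : ℤ) * Δ.A.adjugate i j = (Δ.d j : ℤ) * Δ.A.adjugate j i := by
    intro i j
    have := congrFun (congrFun h3 i) j
    simp only [hD, Matrix.mul_diagonal, Matrix.diagonal_mul, Matrix.transpose_apply] at this
    rw [this, mul_comm]
  simp only [ip]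
  rw [Finset.sum_comm]
  refine Finset.sum_congr rfl fun i _ => Finset.sum_congr rfl fun j _ => ?_
  rw [h6 j i]
  ring

/-- a height function on weights, positive on simple roots -/
def ht (x : Δ.Wt) : ℤ := Δ.detA * Δ.ip Δ.twoRho x

theorem ht_add (x y : Δ.Wt) : Δ.ht (x + y) = Δ.ht x + Δ.ht y := by
  simp only [ht, ip_add_right, mul_add]

theorem ht_sub (x y : Δ.Wt) : Δ.ht (x - y) = Δ.ht x - Δ.ht y := by
  simp only [ht, ip_sub_right, mul_sub]

theorem ht_zero : Δ.ht 0 = 0 := by
  have := Δ.ht_add 0 0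
  simp at this
  exact this

theorem ht_root (i : Fin Δ.n) : 0 < Δ.ht (Δ.root i) := by
  simp only [ht, ip_root_right, twoRho]
  have h1 := Δ.detA_ne_zero
  have h2 : (0 : ℤ) < Δ.d i := by exact_mod_cast Δ.d_pos i
  have h3 : 0 < Δ.detA * Δ.detA := mul_self_pos.2 h1
  nlinarith [mul_pos h3 h2]

theorem ht_sum {σ : Type} (t : Finset σ) (f : σ → Δ.Wt) :
    Δ.ht (∑ j ∈ t, f j) = ∑ j ∈ t, Δ.ht (f j) := by
  classical
  induction t using Finset.induction_on with
  | empty => simp [ht_zero]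
  | insert a t ha ih => rw [Finset.sum_insert ha, ht_add, ih, Finset.sum_insert ha]

theorem ht_zsmul (c : ℕ) (x : Δ.Wt) : Δ.ht ((c : ℤ) • x) = c * Δ.ht x := by
  induction c with
  | zero => simp [ht_zero]
  | succ c ih => push_cast; rw [add_smul, ht_add, ih, one_smul]; ring

theorem ht_cone_pos (β : Fin Δ.n → ℕ) (h : β ≠ 0) :
    0 < Δ.ht (∑ j, (β j : ℤ) • Δ.root j) := by
  rw [ht_sum]
  simp only [ht_zsmul]
  obtain ⟨j, hj⟩ := Function.ne_iff.1 h
  refine Finset.sum_pos' (fun i _ => ?_) ⟨j, Finset.mem_univ _, ?_⟩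
  · exact mul_nonneg (by positivity) (Δ.ht_root i).le
  · have : 0 < β j := Nat.pos_of_ne_zero hj
    exact mul_pos (by exact_mod_cast this) (Δ.ht_root j)

/-- the sum of the simple roots in a list -/
def lsum (l : List (Fin Δ.n)) : Δ.Wt := (l.map Δ.root).sum

theorem lsum_nil : Δ.lsum [] = 0 := rfl

theorem lsum_cons (i : Fin Δ.n) (l : List (Fin Δ.n)) : Δ.lsum (i :: l) = Δ.root i + Δ.lsum l := by
  simp [lsum]

theorem ht_lsum_nonneg (l : List (Fin Δ.n)) : 0 ≤ Δ.ht (Δ.lsum l) := by
  induction l with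
  | nil => simp [lsum_nil, ht_zero]
  | cons i l ih => rw [lsum_cons, ht_add]; have := Δ.ht_root i; omega

theorem ht_lsum_pos (l : List (Fin Δ.n)) (h : l ≠ []) : 0 < Δ.ht (Δ.lsum l) := by
  cases l with
  | nil => exact absurd rfl h
  | cons i l => rw [lsum_cons, ht_add]; have := Δ.ht_root i; have := Δ.ht_lsum_nonneg l; omega

end CartanDatum

/-! ### words -/

section words

variable {k : Type} [Field k] {W I Λ : Type} [AddCommGroup W] [Module k W]

/-- apply a word in the operators `y` -/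
def word (y : I → W →ₗ[k] W) (l : List I) (w : W) : W := l.foldr (fun i v => y i v) w

theorem word_nil (y : I → W →ₗ[k] W) (w : W) : word y [] w = w := rfl

theorem word_cons (y : I → W →ₗ[k] W) (i : I) (l : List I) (w : W) :
    word y (i :: l) w = y i (word y l w) := rfl

/-- the span of the words -/
def wspan (y : I → W →ₗ[k] W) (w : W) : Submodule k W := Submodule.span k (Set.range fun l => word y l w)

theorem word_mem (y : I → W →ₗ[k] W) (w : W) (l : List I) : word y l w ∈ wspan y w :=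
  Submodule.subset_span ⟨l, rfl⟩

theorem wspan_map (y : I → W →ₗ[k] W) (w : W) (T : W →ₗ[k] W)
    (h : ∀ l, T (word y l w) ∈ wspan y w) : ∀ u ∈ wspan y w, T u ∈ wspan y w := by
  intro u hu
  have : wspan y w ≤ (wspan y w).comap T := by
    rw [wspan, Submodule.span_le]
    rintro _ ⟨l, rfl⟩
    exact h l
  exact this hu

theorem wspan_lower (y : I → W →ₗ[k] W) (w : W) (i : I) :
    ∀ u ∈ wspan y w, y i u ∈ wspan y w :=
  wspan_map y w (y i) fun l => word_mem y w (i :: l)

theorem wspan_raise (x y : I → W →ₗ[k] W) (P : Λ → Submodule k W) (sh : I → Λ → Λ)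
    (hy : ∀ i μ w, w ∈ P μ → y i w ∈ P (sh i μ)) (c : I → I → Λ → k)
    (rel : ∀ i j μ w, w ∈ P μ → x i (y j w) = y j (x i w) + c i j μ • w)
    (w0 : W) (μ0 : Λ) (hw0 : w0 ∈ P μ0) (hx0 : ∀ i, x i w0 = 0) (i : I) :
    ∀ u ∈ wspan y w0, x i u ∈ wspan y w0 := by
  have hP : ∀ l : List I, ∃ μ, word y l w0 ∈ P μ := by
    intro l
    induction l with
    | nil => exact ⟨μ0, hw0⟩
    | cons j l ih =>
      obtain ⟨μ, hμ⟩ := ih
      exact ⟨sh j μ, hy j μ _ hμ⟩
  refine wspan_map y w0 (x i) fun l => ?_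
  induction l with
  | nil => rw [word_nil, hx0]; exact Submodule.zero_mem _
  | cons j l ih =>
    obtain ⟨μ, hμ⟩ := hP l
    rw [word_cons, rel i j μ _ hμ]
    exact Submodule.add_mem _ (wspan_lower y w0 j _ ih)
      (Submodule.smul_mem _ _ (word_mem y w0 l))

end words

namespace QModule

variable {Δ : CartanDatum} {k : Type} [Field k] {s : k} (V : QModule Δ k s)

/-- the weight space of weight `μ` -/
def wtSpace (μ : Δ.Wt) : Submodule k (Fin V.dim → k) where
  carrier := {x | ∀ a, x a ≠ 0 → V.wt a = μ}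
  add_mem' := by
    intro x y hx hy a ha
    by_contra h
    have h1 : x a = 0 := by by_contra h'; exact h (hx a h')
    have h2 : y a = 0 := by by_contra h'; exact h (hy a h')
    exact ha (by simp [h1, h2])
  zero_mem' := by intro a ha; simp at ha
  smul_mem' := by
    intro c x hx a ha
    refine hx a fun h => ha (by simp [h])

theorem mem_wtSpace {μ : Δ.Wt} {x : Fin V.dim → k} :
    x ∈ V.wtSpace μ ↔ ∀ a, x a ≠ 0 → V.wt a = μ := Iff.rfl

theorem single_mem (a : Fin V.dim) : Pi.single a (1 : k) ∈ V.wtSpace (V.wt a) := by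
  intro b hb
  by_cases h : b = a
  · rw [h]
  · simp [Pi.single_apply, h] at hb

/-- a matrix shifts weights by `ν` -/
def Shifts (ν : Δ.Wt) (M : Matrix (Fin V.dim) (Fin V.dim) k) : Prop :=
  ∀ a b, M a b ≠ 0 → V.wt a = V.wt b + ν

variable {V}

theorem Shifts.mem {ν μ : Δ.Wt} {M : Matrix (Fin V.dim) (Fin V.dim) k} (h : V.Shifts ν M)
    {x : Fin V.dim → k} (hx : x ∈ V.wtSpace μ) : M.mulVec x ∈ V.wtSpace (μ + ν) := by
  intro a ha
  simp only [Matrix.mulVec, dotProduct] at ha
  obtain ⟨b, _, hb⟩ := Finset.exists_ne_zero_of_sum_ne_zero ha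
  rw [h a b (left_ne_zero_of_mul hb), hx b (right_ne_zero_of_mul hb)]

theorem Shifts.mul {ν ν' : Δ.Wt} {M M' : Matrix (Fin V.dim) (Fin V.dim) k} (h : V.Shifts ν M)
    (h' : V.Shifts ν' M') : V.Shifts (ν + ν') (M * M') := by
  intro a b hab
  rw [Matrix.mul_apply] at hab
  obtain ⟨c, _, hc⟩ := Finset.exists_ne_zero_of_sum_ne_zero hab
  rw [h a c (left_ne_zero_of_mul hc), h' c b (right_ne_zero_of_mul hc)]
  abel

theorem Shifts.transpose {ν : Δ.Wt} {M : Matrix (Fin V.dim) (Fin V.dim) k} (h : V.Shifts ν M) :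
    V.Shifts (-ν) M.transpose := by
  intro a b hab
  rw [Matrix.transpose_apply] at hab
  rw [h b a hab]
  abel

theorem Shifts.kd (hs : s ≠ 0) {ν : Δ.Wt} {M : Matrix (Fin V.dim) (Fin V.dim) k}
    (h : V.Shifts ν M) (x : Δ.Wt) : V.Kd x * M = s ^ Δ.ip x ν • (M * V.Kd x) := by
  ext a b
  simp only [Kd, Matrix.diagonal_mul, Matrix.smul_apply, Matrix.mul_diagonal, smul_eq_mul]
  by_cases hab : M a b = 0
  · simp [hab]
  · rw [h a b hab, Δ.ip_add_right, zpow_add₀ hs]
    ring

variable (V)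

theorem E_shifts (i : Fin Δ.n) : V.Shifts (Δ.root i) (V.E i) := V.E_wt i

theorem F_shifts (i : Fin Δ.n) : V.Shifts (-Δ.root i) (V.F i) := by
  intro a b h
  rw [V.F_wt i a b h, sub_eq_add_neg]

theorem kd_mulVec {μ : Δ.Wt} {x : Fin V.dim → k} (hx : x ∈ V.wtSpace μ) (y : Δ.Wt) :
    (V.Kd y).mulVec x = s ^ Δ.ip y μ • x := by
  funext a
  simp only [Kd, Matrix.mulVec_diagonal, Pi.smul_apply, smul_eq_mul]
  by_cases ha : x a = 0
  · simp [ha]
  · rw [hx a ha]

theorem kd_mul (hs : s ≠ 0) (x y : Δ.Wt) : V.Kd x * V.Kd y = V.Kd (x + y) := by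
  simp only [Kd, Matrix.diagonal_mul_diagonal]
  congr 1
  funext a
  rw [Δ.ip_add_left, zpow_add₀ hs]

theorem kd_zero : V.Kd 0 = 1 := by
  simp only [Kd]
  have : ∀ a, Δ.ip 0 (V.wt a) = 0 := by
    intro a
    simp [CartanDatum.ip]
  simp [this]

theorem kd_transpose (x : Δ.Wt) : (V.Kd x).transpose = V.Kd x := by
  simp [Kd]

theorem K_mul_Kinv (hs : s ≠ 0) (i : Fin Δ.n) : V.K i * V.Kinv i = 1 := by
  rw [K, Kinv, V.kd_mul hs, add_neg_cancel, V.kd_zero]

theorem Kinv_mul_K (hs : s ≠ 0) (i : Fin Δ.n) : V.Kinv i * V.K i = 1 := by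
  rw [K, Kinv, V.kd_mul hs, neg_add_cancel, V.kd_zero]

/-! ### the transposed module -/

/-- `E_i` on the transposed module -/
def Et (i : Fin Δ.n) : Matrix (Fin V.dim) (Fin V.dim) k := V.K i * (V.F i).transpose

/-- `F_i` on the transposed module -/
def Ft (i : Fin Δ.n) : Matrix (Fin V.dim) (Fin V.dim) k := (V.E i).transpose * V.Kinv i

theorem kd_shifts (x : Δ.Wt) : V.Shifts 0 (V.Kd x) := by
  intro a b h
  simp only [Kd, Matrix.diagonal_apply] at h
  split_ifs at h with hab
  · rw [hab, add_zero]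
  · exact absurd rfl h

theorem Et_shifts (i : Fin Δ.n) : V.Shifts (Δ.root i) (V.Et i) := by
  have := (V.kd_shifts (Δ.root i)).mul (V.F_shifts i).transpose
  rw [neg_neg, zero_add] at this
  exact this

theorem Ft_shifts (i : Fin Δ.n) : V.Shifts (-Δ.root i) (V.Ft i) := by
  have := (V.E_shifts i).transpose.mul (V.kd_shifts (-Δ.root i))
  rw [add_zero] at this
  exact this

theorem EtFt (hs : s ≠ 0) (i j : Fin Δ.n) : V.Et i * V.Ft j - V.Ft j * V.Et i =
    if i = j then Matrix.diagonal (fun a => qint Δ s i (V.wt a i)) else 0 := by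
  have h1 : V.Et i * V.Ft j = s ^ Δ.ip (Δ.root i) (Δ.root i - Δ.root j) •
      ((V.F i).transpose * (V.E j).transpose * (V.K i * V.Kinv j)) := by
    have h := ((V.F_shifts i).transpose.mul (V.E_shifts j).transpose).kd hs (Δ.root i)
    have e : - -Δ.root i + -Δ.root j = Δ.root i - Δ.root j := by abel
    rw [e] at h
    calc V.Et i * V.Ft j = (V.Kd (Δ.root i) * ((V.F i).transpose * (V.E j).transpose)) *
          V.Kinv j := by simp only [Et, Ft, K, mul_assoc]
      _ = _ := by rw [h]; simp only [Matrix.smul_mul, K, mul_assoc]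
  have h2 : V.Ft j * V.Et i = s ^ Δ.ip (Δ.root i) (Δ.root i - Δ.root j) •
      ((V.E j).transpose * (V.F i).transpose * (V.K i * V.Kinv j)) := by
    have h := (V.F_shifts i).transpose.kd hs (-Δ.root j + Δ.root i)
    have e : Δ.ip (-Δ.root j + Δ.root i) (- -Δ.root i) =
        Δ.ip (Δ.root i) (Δ.root i - Δ.root j) := by
      rw [neg_neg, Δ.ip_symm]
      congr 1
      abel
    rw [e] at h
    have e2 : V.K i * V.Kinv j = V.Kd (-Δ.root j + Δ.root i) := by
      rw [K, Kinv, V.kd_mul hs, add_comm]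
    calc V.Ft j * V.Et i = (V.E j).transpose * ((V.Kinv j * V.K i) * (V.F i).transpose) := by
          simp only [Et, Ft, mul_assoc]
      _ = (V.E j).transpose * (V.Kd (-Δ.root j + Δ.root i) * (V.F i).transpose) := by
          rw [K, Kinv, V.kd_mul hs]
      _ = _ := by rw [h, e2]; simp only [Matrix.mul_smul, mul_assoc]
  rw [h1, h2, ← smul_sub, ← sub_mul, ← Matrix.transpose_mul, ← Matrix.transpose_mul,
    ← Matrix.transpose_sub, V.EF j i]
  by_cases hij : i = j
  · subst hij
    simp only [if_true, sub_self]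
    rw [V.K_mul_Kinv hs]
    have e : Δ.ip (Δ.root i) 0 = 0 := by simp [CartanDatum.ip]
    rw [e]
    simp
  · rw [if_neg hij, if_neg (fun h => hij h.symm)]
    simp

/-! ### the simple module: generation, extremal vectors -/

theorem mulVec_single_ne (a : Fin V.dim) : (Pi.single a (1 : k) : Fin V.dim → k) ≠ 0 := by
  intro h
  have := congrFun h a
  simp at this

theorem EF_vec (i j : Fin Δ.n) {μ : Δ.Wt} {w : Fin V.dim → k} (hw : w ∈ V.wtSpace μ) :
    (V.E i).mulVec ((V.F j).mulVec w) = (V.F j).mulVec ((V.E i).mulVec w) +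
      (if i = j then qint Δ s i (μ i) else 0) • w := by
  have h := congrArg (fun M => M.mulVec w) (V.EF i j)
  simp only [Matrix.sub_mulVec, ← Matrix.mulVec_mulVec] at h
  rw [sub_eq_iff_eq_add] at h
  rw [h, add_comm]
  congr 1
  by_cases hij : i = j
  · subst hij
    simp only [if_true]
    funext a
    simp only [Matrix.mulVec_diagonal, Pi.smul_apply, smul_eq_mul]
    by_cases ha : w a = 0
    · simp [ha]
    · rw [hw a ha]
  · simp [hij]

theorem EtFt_vec (hs : s ≠ 0) (i j : Fin Δ.n) {μ : Δ.Wt} {w : Fin V.dim → k}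
    (hw : w ∈ V.wtSpace μ) :
    (V.Et i).mulVec ((V.Ft j).mulVec w) = (V.Ft j).mulVec ((V.Et i).mulVec w) +
      (if i = j then qint Δ s i (μ i) else 0) • w := by
  have h := congrArg (fun M => M.mulVec w) (V.EtFt hs i j)
  simp only [Matrix.sub_mulVec, ← Matrix.mulVec_mulVec] at h
  rw [sub_eq_iff_eq_add] at h
  rw [h, add_comm]
  congr 1
  by_cases hij : i = j
  · subst hij
    simp only [if_true]
    funext a
    simp only [Matrix.mulVec_diagonal, Pi.smul_apply, smul_eq_mul]
    by_cases ha : w a = 0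
    · simp [ha]
    · rw [hw a ha]
  · simp [hij]

/-- irreducibility -/
def Irr : Prop := ∀ U : Submodule k (Fin V.dim → k),
    (∀ i, ∀ x ∈ U, (V.E i).mulVec x ∈ U ∧ (V.F i).mulVec x ∈ U ∧ (V.K i).mulVec x ∈ U) →
      U = ⊥ ∨ U = ⊤

/-- words in the `F_i` applied to a weight vector are weight vectors -/
theorem word_F_mem (a : Fin V.dim) (l : List (Fin Δ.n)) :
    word (fun i => (V.F i).mulVecLin) l (Pi.single a 1) ∈ V.wtSpace (V.wt a - Δ.lsum l) := by
  induction l with
  | nil => rw [word_nil, Δ.lsum_nil, sub_zero]; exact V.single_mem a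
  | cons i l ih =>
    rw [word_cons, Δ.lsum_cons]
    have := (V.F_shifts i).mem ih
    have e : V.wt a - Δ.lsum l + -Δ.root i = V.wt a - (Δ.root i + Δ.lsum l) := by abel
    rw [e] at this
    exact this

theorem word_E_mem (a : Fin V.dim) (l : List (Fin Δ.n)) :
    word (fun i => (V.E i).mulVecLin) l (Pi.single a 1) ∈ V.wtSpace (V.wt a + Δ.lsum l) := by
  induction l with
  | nil => rw [word_nil, Δ.lsum_nil, add_zero]; exact V.single_mem a
  | cons i l ih =>
    rw [word_cons, Δ.lsum_cons]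
    have := (V.E_shifts i).mem ih
    have e : V.wt a + Δ.lsum l + Δ.root i = V.wt a + (Δ.root i + Δ.lsum l) := by abel
    rw [e] at this
    exact this

/-- A highest weight vector generates under the `F_i`. -/
theorem wspan_F (hV : V.Irr) (a : Fin V.dim) (ha : ∀ i, (V.E i).mulVec (Pi.single a 1) = 0) :
    wspan (fun i => (V.F i).mulVecLin) (Pi.single a (1 : k)) = ⊤ := by
  have h := hV (wspan (fun i => (V.F i).mulVecLin) (Pi.single a (1 : k))) (by
    intro i x hx
    refine ⟨?_, ?_, ?_⟩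
    · exact wspan_raise (fun i => (V.E i).mulVecLin) (fun i => (V.F i).mulVecLin) V.wtSpace
        (fun i μ => μ + -Δ.root i) (fun i μ w hw => (V.F_shifts i).mem hw)
        (fun i j μ => if i = j then qint Δ s i (μ i) else 0)
        (fun i j μ w hw => V.EF_vec i j hw) _ (V.wt a) (V.single_mem a) ha i x hx
    · exact wspan_lower (fun i => (V.F i).mulVecLin) _ i x hx
    · refine wspan_map _ _ (V.K i).mulVecLin (fun l => ?_) x hx
      have := V.kd_mulVec (V.word_F_mem a l) (Δ.root i)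
      simp only [Matrix.mulVecLin_apply, K]
      rw [this]
      exact Submodule.smul_mem _ _ (word_mem _ _ l))
  rcases h with h | h
  · exfalso
    have h1 := word_mem (fun i => (V.F i).mulVecLin) (Pi.single a (1 : k)) []
    rw [h, Submodule.mem_bot] at h1
    exact V.mulVec_single_ne a h1
  · exact h

/-- A lowest weight vector generates under the `E_i`. -/
theorem wspan_E (hV : V.Irr) (a : Fin V.dim) (ha : ∀ i, (V.F i).mulVec (Pi.single a 1) = 0) :
    wspan (fun i => (V.E i).mulVecLin) (Pi.single a (1 : k)) = ⊤ := by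
  have h := hV (wspan (fun i => (V.E i).mulVecLin) (Pi.single a (1 : k))) (by
    intro i x hx
    refine ⟨?_, ?_, ?_⟩
    · exact wspan_lower (fun i => (V.E i).mulVecLin) _ i x hx
    · refine wspan_raise (fun i => (V.F i).mulVecLin) (fun i => (V.E i).mulVecLin) V.wtSpace
        (fun i μ => μ + Δ.root i) (fun i μ w hw => (V.E_shifts i).mem hw)
        (fun i j μ => -(if j = i then qint Δ s j (μ j) else 0))
        (fun i j μ w hw => ?_) _ (V.wt a) (V.single_mem a) ha i x hx
      have h1 := V.EF_vec j i hw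
      simp only [Matrix.mulVecLin_apply]
      rw [h1, neg_smul]
      abel
    · refine wspan_map _ _ (V.K i).mulVecLin (fun l => ?_) x hx
      have := V.kd_mulVec (V.word_E_mem a l) (Δ.root i)
      simp only [Matrix.mulVecLin_apply, K]
      rw [this]
      exact Submodule.smul_mem _ _ (word_mem _ _ l))
  rcases h with h | h
  · exfalso
    have h1 := word_mem (fun i => (V.E i).mulVecLin) (Pi.single a (1 : k)) []
    rw [h, Submodule.mem_bot] at h1
    exact V.mulVec_single_ne a h1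
  · exact h

/-- If a coordinate vanishes on all words, the words do not span. -/
theorem exists_word_ne {σ : Type} (f : σ → Fin V.dim → k)
    (h : Submodule.span k (Set.range f) = ⊤) (a : Fin V.dim) : ∃ l, f l a ≠ 0 := by
  by_contra hc
  push Not at hc
  have h1 : Submodule.span k (Set.range f) ≤ LinearMap.ker (LinearMap.proj (R := k) a) := by
    rw [Submodule.span_le]
    rintro _ ⟨l, rfl⟩
    exact hc l
  rw [h] at h1
  have h2 : (Pi.single a (1 : k) : Fin V.dim → k) ∈ LinearMap.ker (LinearMap.proj (R := k) a) :=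
    h1 trivial
  simp at h2

/-- extremal index data: `b` is a lowest weight index -/
structure Lowest (b : Fin V.dim) : Prop where
  kill : ∀ i, (V.F i).mulVec (Pi.single b 1) = 0
  gen : wspan (fun i => (V.E i).mulVecLin) (Pi.single b (1 : k)) = ⊤
  ht_le : ∀ a, Δ.ht (V.wt b) ≤ Δ.ht (V.wt a)
  uniq : ∀ a, V.wt a = V.wt b → a = b

/-- extremal index data: `b` is a highest weight index -/
structure Highest (b : Fin V.dim) : Prop where
  kill : ∀ i, (V.E i).mulVec (Pi.single b 1) = 0
  gen : wspan (fun i => (V.F i).mulVecLin) (Pi.single b (1 : k)) = ⊤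
  ht_le : ∀ a, Δ.ht (V.wt a) ≤ Δ.ht (V.wt b)
  uniq : ∀ a, V.wt a = V.wt b → a = b

theorem highest_of (hV : V.Irr) (a : Fin V.dim) (ha : ∀ i, (V.E i).mulVec (Pi.single a 1) = 0) :
    V.Highest a := by
  have hg := V.wspan_F hV a ha
  refine ⟨ha, hg, ?_, ?_⟩
  · intro b
    obtain ⟨l, hl⟩ := V.exists_word_ne _ hg b
    have := V.word_F_mem a l b hl
    rw [this, Δ.ht_sub]
    have := Δ.ht_lsum_nonneg l
    omega
  · intro b hb
    by_contra hne
    obtain ⟨l, hl⟩ := V.exists_word_ne _ hg b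
    have h1 := V.word_F_mem a l b hl
    by_cases hl0 : l = []
    · subst hl0
      rw [word_nil, Pi.single_apply, if_neg hne] at hl
      exact hl rfl
    · have h2 := Δ.ht_lsum_pos l hl0
      have h3 : Δ.ht (V.wt b) = Δ.ht (V.wt a) - Δ.ht (Δ.lsum l) := by rw [h1, Δ.ht_sub]
      rw [hb] at h3
      omega

theorem lowest_of (hV : V.Irr) (a : Fin V.dim) (ha : ∀ i, (V.F i).mulVec (Pi.single a 1) = 0) :
    V.Lowest a := by
  have hg := V.wspan_E hV a ha
  refine ⟨ha, hg, ?_, ?_⟩
  · intro b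
    obtain ⟨l, hl⟩ := V.exists_word_ne _ hg b
    have := V.word_E_mem a l b hl
    rw [this, Δ.ht_add]
    have := Δ.ht_lsum_nonneg l
    omega
  · intro b hb
    by_contra hne
    obtain ⟨l, hl⟩ := V.exists_word_ne _ hg b
    have h1 := V.word_E_mem a l b hl
    by_cases hl0 : l = []
    · subst hl0
      rw [word_nil, Pi.single_apply, if_neg hne] at hl
      exact hl rfl
    · have h2 := Δ.ht_lsum_pos l hl0
      have h3 : Δ.ht (V.wt b) = Δ.ht (V.wt a) + Δ.ht (Δ.lsum l) := by rw [h1, Δ.ht_add]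
      rw [hb] at h3
      omega

theorem exists_lowest (hV : V.Irr) (a : Fin V.dim) : ∃ b, V.Lowest b := by
  obtain ⟨b, _, hb⟩ := Finset.exists_min_image Finset.univ (fun b => Δ.ht (V.wt b))
    ⟨a, Finset.mem_univ a⟩
  refine ⟨b, V.lowest_of hV b fun i => ?_⟩
  funext c
  rw [Matrix.mulVec_single_one]
  simp only [Matrix.col_apply, Pi.zero_apply]
  by_contra hc
  have h1 := V.F_wt i c b hc
  have h2 := hb c (Finset.mem_univ c)
  rw [h1, Δ.ht_sub] at h2
  have := Δ.ht_root i
  omega

end QModule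

end Pool.Agent.W616
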